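import Pool.Agent.Y314.FD.DimUp

/-!
# Countable exceptional sets of power growth near targets (light version of `X123.MT.Gen` and `X123.MT.Null`)
-/

set_option autoImplicit false

namespace Pool.Agent.X123.ML

open Filter Topology MeasureTheory Module
open scoped ENNReal NNReal

/-- the counting bound with the exponent `e` -/
def Cnt {V : Type*} (A : Set V) (w : V → ℝ) (e : ℝ) : Prop :=
  ∀ δ : ℝ, 0 < δ → ∃ C : ℝ, ∀ t : ℝ, 0 ≤ t → {x | x ∈ A ∧ w x ≤ t}.Finite ∧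
    ({x | x ∈ A ∧ w x ≤ t}.ncard : ℝ) ≤ C * Real.exp ((e + δ) * t)



theorem dim_le {V X : Type} [MetricSpace X] (A : Set V) (w : V → ℝ) (hw : ∀ x ∈ A, 0 ≤ w x)
    {e τ : ℝ} (he : 0 ≤ e) (hτ : 0 < τ) (hc : Cnt A w e) (σ : V → X) :
    dimH {y : X | {x | x ∈ A ∧ dist y (σ x) ≤ Real.exp (-(τ * w x))}.Infinite} ≤
      ENNReal.ofReal (e / τ) := by
  classical
  by_contra hcon
  push Not at hcon
  obtain ⟨r, hr1, hr2⟩ := ENNReal.lt_iff_exists_nnreal_btwn.1 hcon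
  have hr3 : e / τ < r := by
    have h1 : ENNReal.ofReal (e / τ) < ENNReal.ofReal (r : ℝ) := by
      rw [ENNReal.ofReal_coe_nnreal]; exact hr1
    exact (ENNReal.ofReal_lt_ofReal_iff_of_nonneg (by positivity)).1 h1
  apply absurd hr2
  rw [not_lt]
  obtain ⟨s, hs⟩ : ∃ s : ℝ, s = (r : ℝ) := ⟨_, rfl⟩
  rw [← hs] at hr3
  have hsτ : e < s * τ := by rwa [div_lt_iff₀ hτ] at hr3
  have hs0 : 0 < s := lt_of_le_of_lt (by positivity) hr3
  obtain ⟨δ, hδ⟩ : ∃ δ : ℝ, δ = (s * τ - e) / 2 := ⟨_, rfl⟩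
  have hδ0 : 0 < δ := by linarith
  obtain ⟨C, hC⟩ := hc δ hδ0
  obtain ⟨b, hb⟩ : ∃ b : ℝ, b = Real.exp (-τ) := ⟨_, rfl⟩
  have hb0 : 0 < b := by rw [hb]; exact Real.exp_pos _
  have hb1 : b < 1 := by rw [hb, Real.exp_lt_one_iff]; linarith
  have hbv : ∀ v : ℕ, b ^ v = Real.exp (-(τ * v)) := by
    intro v
    rw [hb, ← Real.exp_nat_mul]
    congr 1
    ring
  have hfin : ∀ v : ℕ, {x | x ∈ A ∧ w x ≤ (v : ℝ) + 1}.Finite := fun v => (hC _ (by positivity)).1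
  obtain ⟨F, hF⟩ : ∃ F : ℕ → Finset X, ∀ v, F v = ((hfin v).toFinset).image σ := ⟨_, fun _ => rfl⟩
  -- the threshold
  have hev : ∀ᶠ v : ℕ in atTop, C * Real.exp (e + δ) ≤ Real.exp (δ * v) := by
    have h1 : Tendsto (fun v : ℕ => δ * (v : ℝ)) atTop atTop :=
      tendsto_natCast_atTop_atTop.const_mul_atTop hδ0
    exact (Real.tendsto_exp_atTop.comp h1).eventually_ge_atTop _
  obtain ⟨v0, hv0⟩ := eventually_atTop.1 hev
  have hmain := Pool.Agent.Y314.FD.dimH_le_of_balls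
    {y : X | {x | x ∈ A ∧ dist y (σ x) ≤ Real.exp (-(τ * w x))}.Infinite} F hb0 hb1 hs0.le
    (v0 := v0) (fun v hv => ?_) (fun y hy => ?_)
  · rwa [hs, ENNReal.ofReal_coe_nnreal] at hmain
  · have h1 : ((F v).card : ℝ) ≤ C * Real.exp ((e + δ) * (v + 1)) := by
      refine le_trans ?_ (hC (v + 1) (by positivity)).2
      have h9 : (F v).card ≤ ((hfin v).toFinset).card := by
        rw [hF]; exact Finset.card_image_le
      have h10 := Set.ncard_eq_toFinset_card _ (hfin v)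
      rw [← h10] at h9
      exact_mod_cast h9
    refine h1.trans ?_
    have h2 : Real.exp ((e + δ) * (v + 1)) = Real.exp ((e + δ) * v) * Real.exp (e + δ) := by
      rw [← Real.exp_add]; congr 1; ring
    have h3 : b ^ (-(s * v)) = Real.exp ((e + δ) * v) * Real.exp (δ * v) := by
      rw [← Real.exp_add, hb, ← Real.exp_mul]
      congr 1
      rw [hδ]
      ring
    rw [h2, h3]
    calc C * (Real.exp ((e + δ) * v) * Real.exp (e + δ)) =
        Real.exp ((e + δ) * v) * (C * Real.exp (e + δ)) := by ring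
      _ ≤ _ := mul_le_mul_of_nonneg_left (hv0 v hv) (Real.exp_pos _).le
  · rw [frequently_atTop]
    intro v1
    have hinf : {x | x ∈ A ∧ dist y (σ x) ≤ Real.exp (-(τ * w x))}.Infinite := hy
    obtain ⟨x, ⟨hx1, hx3⟩, hx4⟩ := (hinf.sdiff (hfin v1)).nonempty
    have hHx : (v1 : ℝ) + 1 < w x := by
      by_contra hcon
      push Not at hcon
      exact hx4 ⟨hx1, hcon⟩
    have hx0 := hw x hx1
    obtain ⟨v, hv⟩ : ∃ v : ℕ, v = ⌊w x⌋₊ := ⟨_, rfl⟩
    have hv1 : (v : ℝ) ≤ w x := by rw [hv]; exact Nat.floor_le hx0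
    have hv2 : w x < v + 1 := by rw [hv]; exact Nat.lt_floor_add_one _
    have hv3 : v1 ≤ v := by
      have : (v1 : ℝ) + 1 < v + 1 := hHx.trans hv2
      have h5 : (v1 : ℝ) < v := by linarith
      exact le_of_lt (by exact_mod_cast h5)
    refine ⟨v, hv3, σ x, ?_, ?_⟩
    · rw [hF]
      simp only [Finset.mem_image, Set.Finite.mem_toFinset]
      exact ⟨x, ⟨hx1, hv2.le⟩, rfl⟩
    · rw [hbv]
      refine hx3.trans ?_
      apply Real.exp_le_exp.2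
      have := mul_le_mul_of_nonneg_left hv1 hτ.le
      linarith




/-- countably many sets of counting exponent `e`: targets outside a set of dimension `≤ e / τ` -/
theorem pos_dim {V X I : Type} [Countable I] [MetricSpace X] (A : I → Set V) (w : V → ℝ)
    (hw : ∀ i, ∀ x ∈ A i, 0 ≤ w x) {e τ : ℝ} (he : 0 ≤ e) (hτ : 0 < τ)
    (hc : ∀ i, Cnt (A i) w e) (σ : V → X) :
    ∃ E : Set X, dimH E ≤ ENNReal.ofReal (e / τ) ∧ ∀ y : X, y ∉ E → ∀ i,
      {x | x ∈ A i ∧ dist y (σ x) ≤ Real.exp (-(τ * w x))}.Finite := by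
  refine ⟨⋃ i, {y : X | {x | x ∈ A i ∧ dist y (σ x) ≤ Real.exp (-(τ * w x))}.Infinite}, ?_,
    fun y hy i => ?_⟩
  · rw [dimH_iUnion]
    exact iSup_le fun i => dim_le (A i) w (hw i) he hτ (hc i) σ
  · rw [Set.mem_iUnion] at hy
    push Not at hy
    by_contra h
    exact hy i h

/-- countably many sets of counting exponent `0`: targets outside a set of dimension `0` -/
theorem zero_dim {V X I : Type} [Countable I] [MetricSpace X] (A : I → Set V) (w : V → ℝ)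
    (hw : ∀ i, ∀ x ∈ A i, 0 ≤ w x) (hc : ∀ i, Cnt (A i) w 0) (σ : V → X) :
    ∃ E : Set X, dimH E = 0 ∧ ∀ y : X, y ∉ E → ∀ i, ∀ τ : ℝ, 0 < τ →
      {x | x ∈ A i ∧ dist y (σ x) ≤ Real.exp (-(τ * w x))}.Finite := by
  have h1 : ∀ k : ℕ, ∃ E : Set X, dimH E ≤ ENNReal.ofReal (0 / (1 / ((k : ℝ) + 1))) ∧
      ∀ y : X, y ∉ E → ∀ i,
        {x | x ∈ A i ∧ dist y (σ x) ≤ Real.exp (-(1 / ((k : ℝ) + 1) * w x))}.Finite := fun k =>
    pos_dim A w hw le_rfl (by positivity) hc σ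
  choose E hE1 hE2 using h1
  refine ⟨⋃ k, E k, ?_, fun y hy i τ hτ => ?_⟩
  · rw [← nonpos_iff_eq_zero, dimH_iUnion]
    refine iSup_le fun k => (hE1 k).trans ?_
    simp
  · rw [Set.mem_iUnion] at hy
    push Not at hy
    obtain ⟨k, hk⟩ := exists_nat_one_div_lt hτ
    refine (hE2 k y (hy k) i).subset fun x hx => ⟨hx.1, hx.2.trans (Real.exp_le_exp.2 ?_)⟩
    have := mul_le_mul_of_nonneg_right hk.le (hw i x hx.1)
    linarith

/-- a power bound gives a counting exponent -/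
theorem cnt_of_pow {V : Type*} {A : Set V} {H : V → ℝ} (hH : ∀ x ∈ A, 0 < H x) {e : ℝ}
    (h : ∀ ε : ℝ, 0 < ε → ∃ C : ℝ, ∀ X : ℝ, 1 ≤ X → {x | x ∈ A ∧ H x ≤ X}.Finite ∧
      ({x | x ∈ A ∧ H x ≤ X}.ncard : ℝ) ≤ C * X ^ (e + ε)) :
    Cnt A (fun x => Real.log (H x)) e := by
  intro δ hδ
  obtain ⟨C, hC⟩ := h δ hδ
  refine ⟨C, fun t ht => ?_⟩
  have h1 := hC (Real.exp t) (Real.one_le_exp ht)
  have hset : {x | x ∈ A ∧ Real.log (H x) ≤ t} = {x | x ∈ A ∧ H x ≤ Real.exp t} := by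
    ext x
    exact and_congr_right fun hx => Real.log_le_iff_le_exp (hH x hx)
  rw [hset]
  refine ⟨h1.1, h1.2.trans (le_of_eq ?_)⟩
  rw [← Real.exp_mul]
  congr 2
  ring

/-- sets of dimension `≤ 1 / (k + 1)`: outside a set of dimension zero, all but finitely many levels
are avoided -/
theorem levels {X I : Type} [Countable I] [MetricSpace X] (G : ℕ → I → Set X)
    (hG : ∀ k i, dimH (G k i) ≤ ENNReal.ofReal (1 / ((k : ℝ) + 1))) :
    ∃ E : Set X, dimH E = 0 ∧ ∀ y : X, y ∉ E → ∃ J : ℕ, ∀ k : ℕ, J ≤ k → ∀ i, y ∉ G k i := by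
  refine ⟨⋂ J : ℕ, ⋃ k : ℕ, ⋃ i, G (J + k) i, ?_, fun y hy => ?_⟩
  · rw [← nonpos_iff_eq_zero]
    apply le_of_forall_pos_le_add
    intro η hη
    rw [zero_add]
    obtain ⟨J, hJ⟩ : ∃ J : ℕ, ENNReal.ofReal (1 / ((J : ℝ) + 1)) ≤ η := by
      have ht : Filter.Tendsto (fun J : ℕ => ENNReal.ofReal (1 / ((J : ℝ) + 1))) Filter.atTop
          (nhds 0) := by
        rw [← ENNReal.ofReal_zero]
        exact ENNReal.tendsto_ofReal tendsto_one_div_add_atTop_nhds_zero_nat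
      exact ((ht.eventually (ge_mem_nhds hη)).exists)
    refine (dimH_mono (Set.iInter_subset _ J)).trans ?_
    rw [dimH_iUnion]
    refine iSup_le fun k => ?_
    rw [dimH_iUnion]
    refine iSup_le fun e => (hG _ _).trans (le_trans (ENNReal.ofReal_le_ofReal ?_) hJ)
    apply one_div_le_one_div_of_le (by positivity)
    push_cast
    have : (0 : ℝ) ≤ k := Nat.cast_nonneg k
    linarith
  · rw [Set.mem_iInter] at hy
    push Not at hy
    obtain ⟨J, hJ⟩ := hy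
    refine ⟨J, fun k hJk i => ?_⟩
    rw [Set.mem_iUnion] at hJ
    push Not at hJ
    have h1 := hJ (k - J)
    rw [Set.mem_iUnion] at h1
    push Not at h1
    have h2 := h1 i
    rwa [Nat.add_sub_cancel' hJk] at h2

/-- `dist ≤ H ^ (-τ)` and `dist ≤ exp (-(τ log H))` -/
theorem exp_eq_pow {H : ℝ} (hH : 0 < H) (τ : ℝ) : Real.exp (-(τ * Real.log H)) = H ^ (-τ) := by
  rw [Real.rpow_def_of_pos hH]
  congr 1
  ring




theorem null_of_dim {F : Type*} [NormedAddCommGroup F] [NormedSpace ℝ F] [FiniteDimensional ℝ F]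
    [MeasurableSpace F] [BorelSpace F] (μ : Measure F) [μ.IsAddHaarMeasure] {E : Set F}
    (h : dimH E < (finrank ℝ F : ℝ≥0∞)) : μ E = 0 := by
  have h1 : dimH E < ((finrank ℝ F : NNReal) : ℝ≥0∞) := by
    simpa using h
  have h2 := hausdorffMeasure_of_dimH_lt h1
  have h3 : (Measure.hausdorffMeasure (finrank ℝ F : ℝ) : Measure F).IsAddHaarMeasure :=
    isAddHaarMeasure_hausdorffMeasure
  have h4 : (Measure.hausdorffMeasure (finrank ℝ F : ℝ) : Measure F) E = 0 := by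
    simpa using h2
  exact Measure.absolutelyContinuous_isAddHaarMeasure μ
    (Measure.hausdorffMeasure (finrank ℝ F : ℝ)) h4

/-- a set of real numbers of dimension `< 1` is null -/
theorem null_real {E : Set ℝ} {t : ℝ} (ht : t < 1) (h : dimH E ≤ ENNReal.ofReal t) :
    volume E = 0 := by
  apply null_of_dim
  rw [Module.finrank_self]
  refine lt_of_le_of_lt h ?_
  rw [Nat.cast_one, ENNReal.ofReal_lt_one]
  exact ht

/-- a set of complex numbers of dimension `< 2` is null -/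
theorem null_complex {E : Set ℂ} {t : ℝ} (ht : t < 2) (h : dimH E ≤ ENNReal.ofReal t) :
    volume E = 0 := by
  apply null_of_dim
  rw [Complex.finrank_real_complex]
  refine lt_of_le_of_lt h ?_
  have h2 : ((2 : ℕ) : ℝ≥0∞) = ENNReal.ofReal 2 := by simp
  rw [h2]
  exact (ENNReal.ofReal_lt_ofReal_iff (by norm_num)).2 ht


/-- exceptional sets with at most `C R ^ (e + ε)` elements of height at most `R` near targets -/
theorem near {V X I : Type} [Countable I] [MetricSpace X] (A : I → Set V) (H : V → ℝ) {e τ : ℝ}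
    (he : 0 ≤ e) (hτ : 0 < τ)
    (hc : ∀ i, ∀ ε : ℝ, 0 < ε → ∃ C : ℝ, ∀ R : ℝ, 1 ≤ R → {x | x ∈ A i ∧ H x ≤ R}.Finite ∧
      ({x | x ∈ A i ∧ H x ≤ R}.ncard : ℝ) ≤ C * R ^ (e + ε)) (s : V → X) :
    ∃ E : Set X, dimH E ≤ ENNReal.ofReal (e / τ) ∧ ∀ y : X, y ∉ E → ∀ i,
      {x | x ∈ A i ∧ dist y (s x) ≤ H x ^ (-τ)}.Finite := by
  have hcnt : ∀ i, Cnt {x | x ∈ A i ∧ 1 < H x} (fun x => Real.log (H x)) e := by
    intro i
    apply cnt_of_pow (fun x hx => by linarith [hx.2])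
    intro ε hε
    obtain ⟨C, hC⟩ := hc i ε hε
    refine ⟨C, fun R hR => ?_⟩
    have h1 := hC R hR
    have hsub : {x | x ∈ {x | x ∈ A i ∧ 1 < H x} ∧ H x ≤ R} ⊆ {x | x ∈ A i ∧ H x ≤ R} :=
      fun x hx => ⟨hx.1.1, hx.2⟩
    refine ⟨h1.1.subset hsub, le_trans ?_ h1.2⟩
    exact_mod_cast Set.ncard_le_ncard hsub h1.1
  obtain ⟨E, hE1, hE2⟩ := pos_dim (fun i => {x | x ∈ A i ∧ 1 < H x}) (fun x => Real.log (H x))
    (fun i x hx => Real.log_nonneg hx.2.le) he hτ hcnt s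
  refine ⟨E, hE1, fun y hy i => ?_⟩
  obtain ⟨C, hC⟩ := hc i 1 one_pos
  refine ((hE2 y hy i).union (hC 1 le_rfl).1).subset fun x hx => ?_
  rcases le_or_gt (H x) 1 with h | h
  · exact Or.inr ⟨hx.1, h⟩
  · refine Or.inl ⟨⟨hx.1, h⟩, ?_⟩
    rw [exp_eq_pow (by linarith)]
    exact hx.2

/-- exceptional sets with at most `C R ^ (e + ε)` elements of height at most `R` near almost all
vectors -/
theorem near_ae {V I F : Type} [Countable I] [NormedAddCommGroup F] [NormedSpace ℝ F]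
    [FiniteDimensional ℝ F] [MeasurableSpace F] [BorelSpace F] (μ : Measure F)
    [μ.IsAddHaarMeasure] (A : I → Set V) (H : V → ℝ) {e τ : ℝ}
    (he : 0 ≤ e) (hτ : 0 < τ) (hF : e < τ * finrank ℝ F)
    (hc : ∀ i, ∀ ε : ℝ, 0 < ε → ∃ C : ℝ, ∀ R : ℝ, 1 ≤ R → {x | x ∈ A i ∧ H x ≤ R}.Finite ∧
      ({x | x ∈ A i ∧ H x ≤ R}.ncard : ℝ) ≤ C * R ^ (e + ε)) (s : V → F) :
    ∀ᵐ y ∂μ, ∀ i, {x | x ∈ A i ∧ dist y (s x) ≤ H x ^ (-τ)}.Finite := by
  obtain ⟨E, hE1, hE2⟩ := near A H he hτ hc s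
  have h0 : μ E = 0 := by
    apply null_of_dim
    refine lt_of_le_of_lt hE1 ?_
    have h2 : ((finrank ℝ F : ℕ) : ℝ≥0∞) = ENNReal.ofReal (finrank ℝ F : ℝ) := by simp
    rw [h2]
    have h3 : e / τ < finrank ℝ F := by
      rw [div_lt_iff₀ hτ]; linarith
    exact (ENNReal.ofReal_lt_ofReal_iff_of_nonneg (by positivity)).2 h3
  rw [ae_iff]
  refine measure_mono_null (fun y hy => ?_) h0
  by_contra hyE
  exact hy (hE2 y hyE)

/-- the elements of a set of integral vectors in cubes, from a bound for natural side lengths -/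
theorem count_cubes {ι : Type} [Finite ι] {V : Type} (A : Set V) (c : V → ι → ℤ)
    (hinj : Function.Injective c) (H : V → ℝ) (hH : ∀ v i, |((c v i : ℤ) : ℝ)| ≤ H v) {e C : ℝ} (he : 0 ≤ e)
    {R₀ : ℕ}
    (h : ∀ R : ℕ, R₀ ≤ R → 1 ≤ R → (Nat.card {v : V // H v ≤ R ∧ v ∈ A} : ℝ) ≤ C * (2 * R + 1 : ℝ) ^ e)
    (ε : ℝ) (hε : 0 < ε) :
    ∃ C' : ℝ, ∀ R : ℝ, 1 ≤ R → {v | v ∈ A ∧ H v ≤ R}.Finite ∧
      ({v | v ∈ A ∧ H v ≤ R}.ncard : ℝ) ≤ C' * R ^ (e + ε) := by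
  classical
  haveI := Fintype.ofFinite ι
  have hfin : ∀ R : ℝ, {v | H v ≤ R}.Finite := by
    intro R
    have h1 : {f : ι → ℤ | ∀ i, f i ∈ Set.Icc (-(⌈|R|⌉)) (⌈|R|⌉)}.Finite :=
      Set.Finite.pi' fun _ => Set.finite_Icc _ _
    refine (h1.preimage hinj.injOn).subset fun v hv => ?_
    change ∀ i, c v i ∈ Set.Icc (-(⌈|R|⌉)) (⌈|R|⌉)
    intro i
    have h2 : |((c v i : ℤ) : ℝ)| ≤ ⌈|R|⌉ := (hH v i).trans (le_trans hv ((le_abs_self R).trans (Int.le_ceil _)))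
    rw [abs_le] at h2
    rw [Set.mem_Icc]
    exact ⟨by exact_mod_cast h2.1, by exact_mod_cast h2.2⟩
  obtain ⟨B, hB⟩ : ∃ B : ℕ, B = max R₀ 1 := ⟨_, rfl⟩
  have hC0 : 0 ≤ C := by
    have h1 := h B (by rw [hB]; exact le_max_left _ _) (by rw [hB]; exact le_max_right _ _)
    have h2 : (0 : ℝ) ≤ C * (2 * B + 1 : ℝ) ^ e := le_trans (Nat.cast_nonneg _) h1
    have h3 : (0 : ℝ) < (2 * B + 1 : ℝ) ^ e := by positivity
    exact nonneg_of_mul_nonneg_left h2 h3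
  refine ⟨C * (2 * (B + 1) + 1 : ℝ) ^ e, fun R hR => ?_⟩
  have hf : {v | v ∈ A ∧ H v ≤ R}.Finite := (hfin R).subset fun v hv => hv.2
  refine ⟨hf, ?_⟩
  obtain ⟨M, hM⟩ : ∃ M : ℕ, M = B + ⌊R⌋₊ := ⟨_, rfl⟩
  have hR0 : (0 : ℝ) ≤ R := by linarith
  have hM1 : R ≤ M := by
    rw [hM]
    push_cast
    have h1 := (Nat.lt_floor_add_one R).le
    have h2 : (1 : ℝ) ≤ B := by
      have : 1 ≤ B := by rw [hB]; exact le_max_right _ _
      exact_mod_cast this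
    linarith
  have hM2 : (M : ℝ) ≤ (B + 1) * R := by
    rw [hM]
    push_cast
    have h1 := Nat.floor_le hR0
    have h2 : (0 : ℝ) ≤ B := Nat.cast_nonneg B
    nlinarith
  have h1 := h M (by rw [hM, hB]; exact le_trans (le_max_left _ _) (Nat.le_add_right _ _))
    (by rw [hM, hB]; exact le_trans (le_max_right _ _) (Nat.le_add_right _ _))
  have h2 : ({v | v ∈ A ∧ H v ≤ R}.ncard : ℝ) ≤ (Nat.card {v : V // H v ≤ M ∧ v ∈ A} : ℝ) := by
    have hf2 : {v | H v ≤ (M : ℝ) ∧ v ∈ A}.Finite := (hfin M).subset fun v hv => hv.1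
    have h3 : {v | v ∈ A ∧ H v ≤ R} ⊆ {v | H v ≤ (M : ℝ) ∧ v ∈ A} := fun v hv => ⟨hv.2.trans hM1, hv.1⟩
    have h4 := Set.ncard_le_ncard h3 hf2
    have h5 : Nat.card {v : V // H v ≤ M ∧ v ∈ A} = {v | H v ≤ (M : ℝ) ∧ v ∈ A}.ncard := rfl
    rw [h5]
    exact_mod_cast h4
  refine h2.trans (h1.trans ?_)
  rw [mul_assoc]
  refine mul_le_mul_of_nonneg_left ?_ hC0
  have h3 : (2 * M + 1 : ℝ) ≤ (2 * (B + 1) + 1) * R := by
    nlinarith
  have h4 : (0 : ℝ) ≤ (2 * (B + 1) + 1) := by positivity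
  calc (2 * M + 1 : ℝ) ^ e ≤ ((2 * (B + 1) + 1) * R) ^ e := Real.rpow_le_rpow (by positivity) h3 he
    _ = (2 * (B + 1) + 1 : ℝ) ^ e * R ^ e := Real.mul_rpow h4 hR0
    _ ≤ (2 * (B + 1) + 1 : ℝ) ^ e * R ^ (e + ε) :=
        mul_le_mul_of_nonneg_left (Real.rpow_le_rpow_of_exponent_le hR (by linarith)) (by positivity)

end Pool.Agent.X123.ML
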