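import Pool.Agent.X123.ML.Base

/-!
# Exceptional sets of integral vectors and matrices near targets
-/

set_option autoImplicit false

namespace Pool.Agent.X123.ML

open MeasureTheory Module
open scoped ENNReal

theorem vec_norm_le {α : Type} [Fintype α] (e : α → ℤ) (R : ℕ) :
    ‖e‖ ≤ (R : ℝ) ↔ ∀ i, |e i| ≤ (R : ℤ) := by
  rw [pi_norm_le_iff_of_nonneg (Nat.cast_nonneg R)]
  refine forall_congr' fun i => ?_
  rw [Int.norm_eq_abs]
  constructor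
  · intro h; exact_mod_cast h
  · intro h; exact_mod_cast h

theorem mat_norm_le {α β : Type} [Fintype α] [Fintype β] (e : α → β → ℤ) (R : ℕ) :
    ‖e‖ ≤ (R : ℝ) ↔ ∀ i j, |e i j| ≤ (R : ℤ) := by
  rw [pi_norm_le_iff_of_nonneg (Nat.cast_nonneg R)]
  exact forall_congr' fun i => vec_norm_le (e i) R

/-- counting bound for exceptional integral vectors -/
theorem vec_count {α : Type} [Fintype α] (A : Set (α → ℤ)) {e C : ℝ} (he : 0 ≤ e) {R₀ : ℕ}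
    (h : ∀ R : ℕ, R₀ ≤ R → 1 ≤ R →
      (Nat.card {v : α → ℤ // (∀ i, |v i| ≤ (R : ℤ)) ∧ v ∈ A} : ℝ) ≤ C * (2 * R + 1 : ℝ) ^ e)
    (ε : ℝ) (hε : 0 < ε) :
    ∃ C' : ℝ, ∀ R : ℝ, 1 ≤ R → {v | v ∈ A ∧ ‖v‖ ≤ R}.Finite ∧
      ({v | v ∈ A ∧ ‖v‖ ≤ R}.ncard : ℝ) ≤ C' * R ^ (e + ε) := by
  refine count_cubes (ι := α) A id Function.injective_id (fun v => ‖v‖) (fun v i => ?_) he
    (R₀ := R₀) (C := C) (fun R hR hR1 => ?_) ε hε
  · have := norm_le_pi_norm v i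
    rwa [Int.norm_eq_abs] at this
  · refine le_trans (le_of_eq ?_) (h R hR hR1)
    congr 1
    exact Nat.card_congr (Equiv.subtypeEquivRight fun v => by rw [vec_norm_le])

/-- counting bound for exceptional integral matrices -/
theorem mat_count {α β : Type} [Fintype α] [Fintype β] (A : Set (α → β → ℤ)) {M t c : ℕ}
    (ht : t ≤ M)
    (h : ∀ R : ℕ, 1 ≤ R → Nat.card {e : α → β → ℤ // (∀ i j, |e i j| ≤ (R : ℤ)) ∧ e ∈ A} *
      (2 * R + 1) ^ t ≤ c * (2 * R + 1) ^ M)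
    (ε : ℝ) (hε : 0 < ε) :
    ∃ C' : ℝ, ∀ R : ℝ, 1 ≤ R → {v | v ∈ A ∧ ‖v‖ ≤ R}.Finite ∧
      ({v | v ∈ A ∧ ‖v‖ ≤ R}.ncard : ℝ) ≤ C' * R ^ (((M : ℝ) - t) + ε) := by
  have htM : (t : ℝ) ≤ M := by exact_mod_cast ht
  refine count_cubes (ι := α × β) A (fun v p => v p.1 p.2)
    (fun u v huv => funext fun i => funext fun j => congrFun huv (i, j)) (fun v => ‖v‖)
    (fun v p => ?_) (by linarith) (R₀ := 1) (C := c) (fun R _ hR1 => ?_) ε hε
  · have h1 := norm_le_pi_norm (v p.1) p.2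
    have h2 := norm_le_pi_norm v p.1
    rw [Int.norm_eq_abs] at h1
    exact h1.trans h2
  · have h1 : Nat.card {v : α → β → ℤ // ‖v‖ ≤ (R : ℝ) ∧ v ∈ A} =
        Nat.card {e : α → β → ℤ // (∀ i j, |e i j| ≤ (R : ℤ)) ∧ e ∈ A} :=
      Nat.card_congr (Equiv.subtypeEquivRight fun v => by rw [mat_norm_le])
    rw [h1]
    have h2 : (Nat.card {e : α → β → ℤ // (∀ i j, |e i j| ≤ (R : ℤ)) ∧ e ∈ A} : ℝ) *
        (2 * (R : ℝ) + 1) ^ t ≤ c * (2 * (R : ℝ) + 1) ^ M := by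
      exact_mod_cast h R hR1
    have hb : (0 : ℝ) < 2 * R + 1 := by positivity
    have h3 : (2 * (R : ℝ) + 1) ^ M = (2 * (R : ℝ) + 1) ^ ((M : ℝ) - t) * (2 * (R : ℝ) + 1) ^ t := by
      rw [← Real.rpow_natCast _ M, ← Real.rpow_natCast _ t, ← Real.rpow_add hb]
      congr 1
      ring
    rw [h3, ← mul_assoc] at h2
    exact le_of_mul_le_mul_right h2 (by positivity)

/-- the exceptional integral vectors are not among the good approximations to the ratios of almost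
all real vectors -/
theorem ratios_ae {ι : Type} [Fintype ι] [DecidableEq ι] (q0 : ι) (hι : 2 ≤ Fintype.card ι)
    (A : Set (ι → ℤ)) {δ C : ℝ} (hδ : 0 < δ) (hδ1 : δ ≤ 1) {R₀ : ℕ}
    (h : ∀ R : ℕ, R₀ ≤ R → 1 ≤ R → (Nat.card {v : ι → ℤ // (∀ i, |v i| ≤ (R : ℤ)) ∧ v ∈ A} : ℝ) ≤
      C * (2 * R + 1 : ℝ) ^ ((Fintype.card ι : ℝ) - δ)) :
    ∀ᵐ z : {q : ι // q ≠ q0} → ℝ, ∀ c : ℝ,
      {v : ι → ℤ | v ∈ A ∧ ∀ q : {q : ι // q ≠ q0}, |z q - (v q : ℝ) / (v q0 : ℝ)| ≤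
        c * ‖v‖ ^ (-((Fintype.card ι : ℝ) / ((Fintype.card ι : ℝ) - 1)))}.Finite := by
  obtain ⟨m, hm⟩ : ∃ m : ℝ, m = (Fintype.card ι : ℝ) := ⟨_, rfl⟩
  rw [← hm] at h ⊢
  have hm2 : 2 ≤ m := by rw [hm]; exact_mod_cast hι
  have hm1 : 0 < m - 1 := by linarith
  have hrank : (finrank ℝ ({q : ι // q ≠ q0} → ℝ) : ℝ) = m - 1 := by
    rw [Module.finrank_fintype_fun_eq_card, Fintype.card_subtype_compl, Fintype.card_subtype_eq,
      Nat.cast_sub (by omega), hm, Nat.cast_one]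
  obtain ⟨τ, hτ⟩ : ∃ τ : ℝ, τ = (m - δ / 2) / (m - 1) := ⟨_, rfl⟩
  have hτ0 : 0 < τ := by rw [hτ]; apply div_pos <;> linarith
  have hτm : τ * (m - 1) = m - δ / 2 := by rw [hτ, div_mul_cancel₀ _ hm1.ne']
  have hcount := vec_count A (by linarith : 0 ≤ m - δ) h
  have h1 := near_ae (I := Unit) (volume : Measure ({q : ι // q ≠ q0} → ℝ)) (fun _ => A)
    (fun v => ‖v‖) (by linarith : 0 ≤ m - δ) hτ0 (by rw [hrank, hτm]; linarith)
    (fun _ => hcount) (fun v q => (v q : ℝ) / (v q0 : ℝ))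
  filter_upwards [h1] with z hz c
  obtain ⟨C1, hC1⟩ := hcount 1 one_pos
  -- large vectors
  obtain ⟨B, hB1, hB⟩ : ∃ B : ℝ, 1 ≤ B ∧ ∀ x : ℝ, B < x → c * x ^ (-(m / (m - 1))) ≤ x ^ (-τ) := by
    have hlim := tendsto_rpow_atTop (y := m / (m - 1) - τ) (by
      rw [hτ, ← sub_div]; apply div_pos <;> linarith)
    obtain ⟨B, hB⟩ := Filter.eventually_atTop.1 (hlim.eventually_ge_atTop c)
    refine ⟨max B 1, le_max_right _ _, fun x hx => ?_⟩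
    have hx1 : 1 < x := lt_of_le_of_lt (le_max_right _ _) hx
    have hx2 := hB x (lt_of_le_of_lt (le_max_left _ _) hx).le
    have h3 : x ^ (-τ) = x ^ (m / (m - 1) - τ) * x ^ (-(m / (m - 1))) := by
      rw [← Real.rpow_add (by linarith)]; congr 1; ring
    rw [h3]
    exact mul_le_mul_of_nonneg_right hx2 (by positivity)
  refine ((hz ()).union (hC1 B hB1).1).subset fun v hv => ?_
  rcases le_or_gt ‖v‖ B with hv1 | hv1
  · exact Or.inr ⟨hv.1, hv1⟩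
  · refine Or.inl ⟨hv.1, ?_⟩
    have h4 : (0 : ℝ) ≤ ‖v‖ ^ (-τ) := Real.rpow_nonneg (norm_nonneg _) _
    rw [dist_pi_le_iff h4]
    intro q
    rw [Real.dist_eq]
    exact (hv.2 q).trans (hB _ hv1)

end Pool.Agent.X123.ML
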