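import Pool.Agent.X123.ML.Prop

/-!
# Exceptional sets which depend on the size: dyadic decomposition
-/

set_option autoImplicit false

namespace Pool.Agent.X123.ML

theorem finite_ball {α : Type} [Fintype α] (R : ℕ) : {v : α → ℤ | ∀ i, |v i| ≤ (R : ℤ)}.Finite := by
  have h1 : {f : α → ℤ | ∀ i, f i ∈ Set.Icc (-(R : ℤ)) (R : ℤ)}.Finite :=
    Set.Finite.pi' fun _ => Set.finite_Icc _ _
  refine h1.subset fun v hv i => ?_
  exact Set.mem_Icc.2 (abs_le.1 (hv i))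

theorem log_le_pow (n : ℕ) {η : ℝ} (hη : 0 < η) :
    ((n : ℝ) + 1) ≤ (1 / min 1 (η * Real.log 2)) * ((2 : ℝ) ^ n) ^ η := by
  have hl : 0 < Real.log 2 := Real.log_pos one_lt_two
  obtain ⟨c, hc⟩ : ∃ c : ℝ, c = min 1 (η * Real.log 2) := ⟨_, rfl⟩
  have hc0 : 0 < c := by rw [hc]; exact lt_min one_pos (by positivity)
  rw [← hc, one_div, inv_mul_eq_div, le_div_iff₀ hc0]
  have h1 : ((2 : ℝ) ^ n) ^ η = Real.exp (n * (η * Real.log 2)) := by
    rw [← Real.rpow_natCast, ← Real.rpow_mul (by norm_num), Real.rpow_def_of_pos (by norm_num)]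
    congr 1
    ring
  rw [h1]
  have h2 := Real.add_one_le_exp ((n : ℝ) * (η * Real.log 2))
  have h3 : c ≤ 1 := by rw [hc]; exact min_le_left _ _
  have h4 : c ≤ η * Real.log 2 := by rw [hc]; exact min_le_right _ _
  have h5 : (0 : ℝ) ≤ n := Nat.cast_nonneg n
  nlinarith [mul_le_mul_of_nonneg_left h4 h5]

/-- sets of exceptions in each cube, and vectors `v` which are exceptional in all cubes of size
between `|v|` and `2 |v|` -/
theorem dyadic_count {α : Type} [Fintype α] (P : ℕ → (α → ℤ) → Prop) {e C : ℝ} (he : 0 ≤ e)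
    {R₀ : ℕ} (h : ∀ H : ℕ, R₀ ≤ H → 1 ≤ H →
      (Nat.card {v : α → ℤ // (∀ i, |v i| ≤ (H : ℤ)) ∧ ¬ P H v} : ℝ) ≤ C * (2 * H + 1 : ℝ) ^ e)
    (ε : ℝ) (hε : 0 < ε) :
    ∃ C' : ℝ, ∀ R : ℕ, 1 ≤ R → (Nat.card {v : α → ℤ // (∀ i, |v i| ≤ (R : ℤ)) ∧
      v ∈ {v : α → ℤ | ∀ H : ℕ, ‖v‖ ≤ H → (H : ℝ) ≤ 2 * ‖v‖ → ¬ P H v}} : ℝ) ≤
      C' * (2 * R + 1 : ℝ) ^ (e + ε) := by
  classical
  have hC0 : 0 ≤ C := by
    have h1 := h (max R₀ 1) (le_max_left _ _) (le_max_right _ _)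
    have h2 : (0 : ℝ) ≤ C * (2 * ((max R₀ 1 : ℕ) : ℝ) + 1) ^ e := le_trans (Nat.cast_nonneg _) h1
    have h3 : (0 : ℝ) < (2 * ((max R₀ 1 : ℕ) : ℝ) + 1) ^ e := by positivity
    exact nonneg_of_mul_nonneg_left h2 h3
  obtain ⟨B, hB⟩ : ∃ B : ℝ, B = ((finite_ball (α := α) R₀).toFinset.card : ℝ) := ⟨_, rfl⟩
  obtain ⟨κ, hκ⟩ : ∃ κ : ℝ, κ = 1 / min 1 (ε * Real.log 2) := ⟨_, rfl⟩
  have hκ0 : 0 ≤ κ := by
    rw [hκ]
    have hl : 0 < Real.log 2 := Real.log_pos one_lt_two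
    have : 0 < min 1 (ε * Real.log 2) := lt_min one_pos (by positivity)
    positivity
  refine ⟨B + κ * (C * 2 ^ e), fun R hR => ?_⟩
  have hR1 : (1 : ℝ) ≤ R := by exact_mod_cast hR
  have hb1 : (1 : ℝ) ≤ 2 * R + 1 := by linarith
  -- the finite sets
  have hfin : ∀ H : ℕ, {v : α → ℤ | (∀ i, |v i| ≤ (H : ℤ)) ∧ ¬ P H v}.Finite := fun H =>
    (finite_ball H).subset fun v hv => hv.1
  obtain ⟨F, hF⟩ : ∃ F : ℕ → Finset (α → ℤ), F = fun k =>
      if R₀ ≤ 2 ^ (k + 1) then (hfin (2 ^ (k + 1))).toFinset else ∅ := ⟨_, rfl⟩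
  have hFc : ∀ k ∈ Finset.range (Nat.log 2 R + 1), ((F k).card : ℝ) ≤
      C * 2 ^ e * (2 * R + 1 : ℝ) ^ e := by
    intro k hk
    rw [Finset.mem_range] at hk
    rw [hF]
    simp only
    split_ifs with h0
    · have h1 := h (2 ^ (k + 1)) h0 Nat.one_le_two_pow
      have h2 : (Nat.card {v : α → ℤ // (∀ i, |v i| ≤ ((2 ^ (k + 1) : ℕ) : ℤ)) ∧
          ¬ P (2 ^ (k + 1)) v}) = (hfin (2 ^ (k + 1))).toFinset.card := by
        rw [← Set.ncard_eq_toFinset_card _ (hfin (2 ^ (k + 1)))]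
        rfl
      rw [h2] at h1
      refine h1.trans ?_
      rw [mul_assoc]
      refine mul_le_mul_of_nonneg_left ?_ hC0
      rw [← Real.mul_rpow (by norm_num) (by linarith)]
      refine Real.rpow_le_rpow (by positivity) ?_ he
      have h3 : 2 ^ k ≤ R := le_trans (Nat.pow_le_pow_right (by norm_num) (by omega))
        (Nat.pow_log_le_self 2 (by omega))
      have h4 : (2 : ℝ) ^ k ≤ R := by exact_mod_cast h3
      push_cast
      rw [pow_succ]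
      linarith
    · rw [Finset.card_empty, Nat.cast_zero]
      positivity
  -- the covering
  have hcov : {v : α → ℤ | (∀ i, |v i| ≤ (R : ℤ)) ∧
      v ∈ {v : α → ℤ | ∀ H : ℕ, ‖v‖ ≤ H → (H : ℝ) ≤ 2 * ‖v‖ → ¬ P H v}} ⊆
      (((finite_ball (α := α) R₀).toFinset ∪
        (Finset.range (Nat.log 2 R + 1)).biUnion F : Finset (α → ℤ)) : Set (α → ℤ)) := by
    rintro v ⟨hv1, hv2⟩
    rw [Finset.mem_coe, Finset.mem_union]
    rcases le_or_gt ‖v‖ (R₀ : ℝ) with h1 | h1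
    · left
      rw [Set.Finite.mem_toFinset]
      exact (vec_norm_le v R₀).1 h1
    right
    have hvR : ‖v‖ ≤ R := (vec_norm_le v R).2 hv1
    -- the norm is a positive natural number or the set is empty
    rcases lt_or_ge ‖v‖ 1 with h2 | h2
    · -- `v = 0`
      exfalso
      have h3 : v = 0 := by
        funext i
        have h4 := norm_le_pi_norm v i
        rw [Int.norm_eq_abs] at h4
        have h5 : |((v i : ℤ) : ℝ)| < 1 := lt_of_le_of_lt h4 h2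
        have h6 : |v i| < 1 := by exact_mod_cast h5
        rw [Pi.zero_apply]
        exact Int.abs_lt_one_iff.1 h6
      rw [h3, norm_zero] at h1
      exact absurd h1 (not_lt.2 (Nat.cast_nonneg _))
    obtain ⟨m, hm⟩ : ∃ m : ℕ, m = ⌊‖v‖⌋₊ := ⟨_, rfl⟩
    have hm1 : (m : ℝ) ≤ ‖v‖ := by rw [hm]; exact Nat.floor_le (norm_nonneg _)
    have hm2 : ‖v‖ < m + 1 := by rw [hm]; exact Nat.lt_floor_add_one _
    have hm3 : 1 ≤ m := by rw [hm]; exact Nat.le_floor (by exact_mod_cast h2)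
    obtain ⟨k, hk⟩ : ∃ k : ℕ, k = Nat.log 2 m := ⟨_, rfl⟩
    have hk1 : 2 ^ k ≤ m := by rw [hk]; exact Nat.pow_log_le_self 2 (by omega)
    have hk2 : m < 2 ^ (k + 1) := by rw [hk]; exact Nat.lt_pow_succ_log_self (by norm_num) m
    have hk3 : k ≤ Nat.log 2 R := by
      rw [hk]
      apply Nat.log_mono_right
      have : (m : ℝ) ≤ R := hm1.trans hvR
      exact_mod_cast this
    have hH1 : ‖v‖ ≤ ((2 ^ (k + 1) : ℕ) : ℝ) := by
      have : ((m + 1 : ℕ) : ℝ) ≤ ((2 ^ (k + 1) : ℕ) : ℝ) := by exact_mod_cast hk2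
      push_cast at this ⊢
      linarith
    have hH2 : ((2 ^ (k + 1) : ℕ) : ℝ) ≤ 2 * ‖v‖ := by
      have : ((2 ^ k : ℕ) : ℝ) ≤ m := by exact_mod_cast hk1
      push_cast at this ⊢
      rw [pow_succ]
      linarith
    rw [Finset.mem_biUnion]
    refine ⟨k, Finset.mem_range.2 (by omega), ?_⟩
    have h0 : R₀ ≤ 2 ^ (k + 1) := by
      have : (R₀ : ℝ) ≤ ((2 ^ (k + 1) : ℕ) : ℝ) := h1.le.trans hH1
      exact_mod_cast this
    rw [hF]
    simp only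
    rw [if_pos h0, Set.Finite.mem_toFinset]
    exact ⟨(vec_norm_le v _).1 hH1, hv2 _ hH1 hH2⟩
  have hcard : (Nat.card {v : α → ℤ // (∀ i, |v i| ≤ (R : ℤ)) ∧
      v ∈ {v : α → ℤ | ∀ H : ℕ, ‖v‖ ≤ H → (H : ℝ) ≤ 2 * ‖v‖ → ¬ P H v}}) ≤
      (finite_ball (α := α) R₀).toFinset.card +
        ∑ k ∈ Finset.range (Nat.log 2 R + 1), (F k).card := by
    have h1 := Set.ncard_le_ncard hcov (Finset.finite_toSet _)
    rw [Set.ncard_coe_finset] at h1
    exact h1.trans ((Finset.card_union_le _ _).trans (Nat.add_le_add_left Finset.card_biUnion_le _))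
  have hcard' : (Nat.card {v : α → ℤ // (∀ i, |v i| ≤ (R : ℤ)) ∧
      v ∈ {v : α → ℤ | ∀ H : ℕ, ‖v‖ ≤ H → (H : ℝ) ≤ 2 * ‖v‖ → ¬ P H v}} : ℝ) ≤
      B + ∑ k ∈ Finset.range (Nat.log 2 R + 1), ((F k).card : ℝ) := by
    rw [hB]; exact_mod_cast hcard
  refine hcard'.trans ?_
  have hsum : ∑ k ∈ Finset.range (Nat.log 2 R + 1), ((F k).card : ℝ) ≤
      ((Nat.log 2 R : ℝ) + 1) * (C * 2 ^ e * (2 * R + 1 : ℝ) ^ e) := by
    refine (Finset.sum_le_sum hFc).trans (le_of_eq ?_)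
    rw [Finset.sum_const, Finset.card_range, nsmul_eq_mul]
    push_cast
    ring
  have hlog : ((Nat.log 2 R : ℝ) + 1) ≤ κ * (2 * R + 1 : ℝ) ^ ε := by
    refine (log_le_pow (Nat.log 2 R) hε).trans ?_
    rw [← hκ]
    refine mul_le_mul_of_nonneg_left ?_ hκ0
    refine Real.rpow_le_rpow (by positivity) ?_ hε.le
    have h1 : 2 ^ (Nat.log 2 R) ≤ R := Nat.pow_log_le_self 2 (by omega)
    have h2 : (2 : ℝ) ^ (Nat.log 2 R) ≤ R := by exact_mod_cast h1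
    linarith
  have hpos : (0 : ℝ) ≤ C * 2 ^ e * (2 * R + 1 : ℝ) ^ e := by positivity
  have hB0 : 0 ≤ B := by rw [hB]; exact Nat.cast_nonneg _
  have hone : (1 : ℝ) ≤ (2 * R + 1 : ℝ) ^ (e + ε) := Real.one_le_rpow hb1 (by linarith)
  have hsplit : (2 * R + 1 : ℝ) ^ (e + ε) = (2 * R + 1 : ℝ) ^ e * (2 * R + 1 : ℝ) ^ ε :=
    Real.rpow_add (by linarith) _ _
  calc B + ∑ k ∈ Finset.range (Nat.log 2 R + 1), ((F k).card : ℝ)
      ≤ B * 1 + κ * (2 * R + 1 : ℝ) ^ ε * (C * 2 ^ e * (2 * R + 1 : ℝ) ^ e) := by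
        have := hsum.trans (mul_le_mul_of_nonneg_right hlog hpos)
        linarith
    _ ≤ B * (2 * R + 1 : ℝ) ^ (e + ε) +
        κ * (2 * R + 1 : ℝ) ^ ε * (C * 2 ^ e * (2 * R + 1 : ℝ) ^ e) := by
        have := mul_le_mul_of_nonneg_left hone hB0
        linarith
    _ = (B + κ * (C * 2 ^ e)) * (2 * R + 1 : ℝ) ^ (e + ε) := by rw [hsplit]; ring

end Pool.Agent.X123.ML
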