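import Mathlib

/-!
# The Hausdorff-Cantelli lemma, and sequences with small mean values near targets
-/

set_option autoImplicit false

namespace Pool.Agent.X123.ML

open Filter Topology Set MeasureTheory MeasureTheory.Measure
open scoped ENNReal NNReal

theorem ediam_ball_le {X : Type} [MetricSpace X] (x : X) {r : ℝ} :
    Metric.ediam (Metric.closedBall x r) ≤ ENNReal.ofReal (2 * r) := by
  rw [Metric.ediam_le_iff]
  intro y hy z hz
  rw [edist_dist]
  apply ENNReal.ofReal_le_ofReal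
  rw [Metric.mem_closedBall] at hy hz
  have := dist_triangle_right y z x
  linarith

/-- the Hausdorff-Cantelli lemma -/
theorem dimH_limsup_le {X : Type} [MetricSpace X] (s : ℕ → X) (r : ℕ → ℝ) (hr : ∀ n, 0 ≤ r n)
    {d : ℝ} (hd : 0 < d) (hsum : Summable fun n => r n ^ d) :
    dimH {z : X | ∃ᶠ n in atTop, dist z (s n) ≤ r n} ≤ ENNReal.ofReal d := by
  borelize X
  obtain ⟨T, hTdef⟩ : ∃ T : ℕ → ℝ, T = fun N => ∑' i, r (i + N) ^ d := ⟨_, rfl⟩
  have hT : Tendsto T atTop (𝓝 0) := by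
    rw [hTdef]; exact tendsto_sum_nat_add (fun n => r n ^ d)
  have hs : ∀ N, Summable fun i => r (i + N) ^ d := fun N => (summable_nat_add_iff N).2 hsum
  have hT0 : ∀ N, 0 ≤ T N := by
    intro N; rw [hTdef]; exact tsum_nonneg fun i => Real.rpow_nonneg (hr _) _
  have hle : ∀ N i, r (i + N) ≤ T N ^ (1 / d) := by
    intro N i
    have h0 : r (i + N) ^ d ≤ T N := by
      rw [hTdef]
      exact (hs N).le_tsum i fun j _ => Real.rpow_nonneg (hr _) _
    have h1 := Real.rpow_le_rpow (Real.rpow_nonneg (hr _) _) h0 (by positivity : (0 : ℝ) ≤ 1 / d)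
    rwa [← Real.rpow_mul (hr _), mul_one_div_cancel hd.ne', Real.rpow_one] at h1
  have hmain := hausdorffMeasure_le_liminf_tsum (ι := fun _ : ℕ => ℕ) d
    {z : X | ∃ᶠ n in atTop, dist z (s n) ≤ r n} (l := atTop)
    (fun N => ENNReal.ofReal (2 * T N ^ (1 / d))) (by
      have h1 : Tendsto (fun N => 2 * T N ^ (1 / d)) atTop (𝓝 (2 * 0 ^ (1 / d))) :=
        (hT.rpow_const (Or.inr (by positivity))).const_mul 2
      rw [Real.zero_rpow (by positivity), mul_zero] at h1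
      have h2 := ENNReal.tendsto_ofReal h1
      rwa [ENNReal.ofReal_zero] at h2)
    (fun N i => Metric.closedBall (s (i + N)) (r (i + N)))
    (Eventually.of_forall fun N i => (ediam_ball_le _).trans
      (ENNReal.ofReal_le_ofReal (by linarith [hle N i])))
    (Eventually.of_forall fun N z hz => by
      obtain ⟨n, hn, h⟩ := (frequently_atTop.1 hz) N
      rw [mem_iUnion]
      refine ⟨n - N, ?_⟩
      rw [Nat.sub_add_cancel hn]
      exact h)
  have hzero : μH[d] {z : X | ∃ᶠ n in atTop, dist z (s n) ≤ r n} = 0 := by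
    rw [← nonpos_iff_eq_zero]
    refine hmain.trans ?_
    have hlim : Tendsto (fun N => ENNReal.ofReal (2 ^ d * T N)) atTop (𝓝 0) := by
      have h3 := hT.const_mul (2 ^ d)
      rw [mul_zero] at h3
      have h4 := ENNReal.tendsto_ofReal h3
      rwa [ENNReal.ofReal_zero] at h4
    rw [← hlim.liminf_eq]
    refine liminf_le_liminf (Eventually.of_forall fun N => ?_)
    have h5 : ∀ i, Metric.ediam (Metric.closedBall (s (i + N)) (r (i + N))) ^ d ≤
        ENNReal.ofReal (2 ^ d * r (i + N) ^ d) := by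
      intro i
      refine (ENNReal.rpow_le_rpow (ediam_ball_le _) hd.le).trans ?_
      rw [ENNReal.ofReal_rpow_of_nonneg (by linarith [hr (i + N)]) hd.le,
        Real.mul_rpow (by norm_num) (hr _)]
    refine (ENNReal.tsum_le_tsum h5).trans ?_
    rw [← ENNReal.ofReal_tsum_of_nonneg
      (fun i => mul_nonneg (by positivity) (Real.rpow_nonneg (hr _) _)) ((hs N).mul_left _),
      tsum_mul_left, hTdef]
  obtain ⟨d', hd'⟩ : ∃ d' : ℝ≥0, (d' : ℝ) = d := ⟨⟨d, hd.le⟩, rfl⟩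
  rw [← hd'] at hzero ⊢
  rw [ENNReal.ofReal_coe_nnreal]
  apply dimH_le_of_hausdorffMeasure_ne_top
  rw [hzero]
  exact ENNReal.zero_ne_top

/-- a bound for the mean values gives a convergent series -/
theorem summable_of_sum_le (b : ℕ → ℝ) (hb : ∀ n, 0 ≤ b n) {D e : ℝ} (he : 0 ≤ e)
    (h : ∀ X : ℕ, 1 ≤ X → ∑ n ∈ Finset.range (X + 1), b n ≤ D * (X : ℝ) ^ e) {η : ℝ} (hη : 0 < η) :
    Summable fun n : ℕ => b n * (n : ℝ) ^ (-(e + η)) := by
  have h1 : LSeriesSummable (fun n => (b n : ℂ)) ((e + η : ℝ) : ℂ) := by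
    refine LSeriesSummable_of_sum_norm_bigO (r := e) ?_ he (by rw [Complex.ofReal_re]; linarith)
    refine Asymptotics.IsBigO.of_bound D ?_
    filter_upwards [eventually_ge_atTop 1] with X hX
    rw [Real.norm_of_nonneg (Finset.sum_nonneg fun i _ => norm_nonneg _),
      Real.norm_of_nonneg (by positivity)]
    refine le_trans ?_ (h X hX)
    have h2 : ∑ k ∈ Finset.Icc 1 X, ‖((b k : ℝ) : ℂ)‖ = ∑ k ∈ Finset.Icc 1 X, b k :=
      Finset.sum_congr rfl fun k _ => by rw [Complex.norm_real, Real.norm_of_nonneg (hb k)]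
    rw [h2]
    refine Finset.sum_le_sum_of_subset_of_nonneg (fun k hk => ?_) fun k _ _ => hb k
    rw [Finset.mem_Icc] at hk
    rw [Finset.mem_range]
    omega
  have h2 := h1.norm
  refine h2.congr fun n => ?_
  rw [LSeries.norm_term_eq]
  split_ifs with h0
  · rw [h0, Nat.cast_zero, Real.zero_rpow (by linarith), mul_zero]
  · rw [Complex.norm_real, Real.norm_of_nonneg (hb n), Complex.ofReal_re,
      Real.rpow_neg (Nat.cast_nonneg n), div_eq_mul_inv]

/-- a sequence with small mean values near a target outside a set of dimension at most `d` -/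
theorem mean_dim {X I : Type} [Countable I] [MetricSpace X] (s : ℕ → X) (b : I → ℕ → ℝ)
    (hb : ∀ i n, 0 ≤ b i n) {e : ℝ} (he : 0 ≤ e) {d : ℝ} (hd : 0 < d)
    (h : ∀ i, ∃ D : ℝ, ∀ X : ℕ, 1 ≤ X → ∑ n ∈ Finset.range (X + 1), b i n ≤ D * (X : ℝ) ^ e) :
    ∃ E : Set X, dimH E ≤ ENNReal.ofReal d ∧ ∀ z : X, z ∉ E → ∀ i, ∀ ε : ℝ, 0 < ε →
      ∀ᶠ n : ℕ in atTop, b i n ≤ (n : ℝ) ^ (e + ε) * dist z (s n) ^ d := by
  have hr : ∀ i, ∀ η : ℝ, ∀ n : ℕ, 0 ≤ (b i n * (n : ℝ) ^ (-(e + η))) := fun i η n =>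
    mul_nonneg (hb i n) (Real.rpow_nonneg (Nat.cast_nonneg _) _)
  refine ⟨⋃ p : I × ℕ, {z : X | ∃ᶠ n : ℕ in atTop,
    dist z (s n) ≤ (b p.1 n * (n : ℝ) ^ (-(e + 1 / ((p.2 : ℝ) + 1)))) ^ (1 / d)}, ?_, ?_⟩
  · rw [dimH_iUnion]
    refine iSup_le fun p => dimH_limsup_le s _ (fun n => Real.rpow_nonneg (hr _ _ _) _) hd ?_
    obtain ⟨D, hD⟩ := h p.1
    refine (summable_of_sum_le (b p.1) (hb p.1) he hD
      (η := 1 / ((p.2 : ℝ) + 1)) (by positivity)).congr fun n => ?_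
    rw [← Real.rpow_mul (hr _ _ _), one_div_mul_cancel hd.ne', Real.rpow_one]
  · intro z hz i ε hε
    rw [mem_iUnion] at hz
    push Not at hz
    obtain ⟨m, hm⟩ := exists_nat_one_div_lt hε
    have h1 := hz (i, m)
    have h2 : ∀ᶠ n : ℕ in atTop,
        ¬ dist z (s n) ≤ (b i n * (n : ℝ) ^ (-(e + 1 / ((m : ℝ) + 1)))) ^ (1 / d) :=
      not_frequently.1 h1
    filter_upwards [h2, eventually_ge_atTop 1] with n hn hn1
    push Not at hn
    have hn0 : (1 : ℝ) ≤ n := by exact_mod_cast hn1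
    have h3 := Real.rpow_le_rpow (Real.rpow_nonneg (hr _ _ _) _) hn.le hd.le
    rw [← Real.rpow_mul (hr _ _ _), one_div_mul_cancel hd.ne', Real.rpow_one] at h3
    have h4 : b i n = (n : ℝ) ^ (e + 1 / ((m : ℝ) + 1)) *
        (b i n * (n : ℝ) ^ (-(e + 1 / ((m : ℝ) + 1)))) := by
      rw [Real.rpow_neg (by linarith)]
      field_simp
    rw [h4]
    refine mul_le_mul ?_ h3 (hr _ _ _) (by positivity)
    exact Real.rpow_le_rpow_of_exponent_le hn0 (by linarith)

/-- a sequence with small mean values near almost every real number -/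
theorem mean_ae {I : Type} [Countable I] (s : ℕ → ℝ) (b : I → ℕ → ℝ)
    (hb : ∀ i n, 0 ≤ b i n) {e : ℝ} (he : 0 ≤ e)
    (h : ∀ i, ∃ D : ℝ, ∀ X : ℕ, 1 ≤ X → ∑ n ∈ Finset.range (X + 1), b i n ≤ D * (X : ℝ) ^ e) :
    ∀ᵐ z : ℝ, ∀ i, ∀ ε : ℝ, 0 < ε →
      ∀ᶠ n : ℕ in atTop, b i n ≤ (n : ℝ) ^ (e + ε) * |z - s n| := by
  have hr : ∀ i, ∀ η : ℝ, ∀ n : ℕ, 0 ≤ (b i n * (n : ℝ) ^ (-(e + η))) := fun i η n =>
    mul_nonneg (hb i n) (Real.rpow_nonneg (Nat.cast_nonneg _) _)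
  have hone : ∀ p : I × ℕ, ∀ᵐ z : ℝ, ∀ᶠ n : ℕ in atTop,
      z ∉ Metric.closedBall (s n) (b p.1 n * (n : ℝ) ^ (-(e + 1 / ((p.2 : ℝ) + 1)))) := by
    intro p
    obtain ⟨D, hD⟩ := h p.1
    have h1 := summable_of_sum_le (b p.1) (hb p.1) he hD (η := 1 / ((p.2 : ℝ) + 1)) (by positivity)
    apply ae_eventually_notMem
    simp only [Real.volume_closedBall]
    exact (h1.mul_left 2).tsum_ofReal_ne_top
  have hall := ae_all_iff.2 hone
  filter_upwards [hall] with z hz i ε hε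
  obtain ⟨m, hm⟩ := exists_nat_one_div_lt hε
  filter_upwards [hz (i, m), eventually_ge_atTop 1] with n hn hn1
  rw [Metric.mem_closedBall] at hn
  push Not at hn
  have hn0 : (1 : ℝ) ≤ n := by exact_mod_cast hn1
  rw [Real.dist_eq] at hn
  have h4 : b i n = (n : ℝ) ^ (e + 1 / ((m : ℝ) + 1)) *
      (b i n * (n : ℝ) ^ (-(e + 1 / ((m : ℝ) + 1)))) := by
    rw [Real.rpow_neg (by linarith)]
    field_simp
  rw [h4]
  refine mul_le_mul ?_ hn.le (hr _ _ _) (by positivity)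
  exact Real.rpow_le_rpow_of_exponent_le hn0 (by linarith)

end Pool.Agent.X123.ML
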