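import Pool.Agent.X123.ML.Vec

/-!
# Proportions of exceptional integral vectors
-/

set_option autoImplicit false

namespace Pool.Agent.X123.ML

theorem prop_bound {H : ℕ} (hH : 1 ≤ H) {m : ℕ} {δ δ' : ℝ} (h0 : 0 ≤ δ') (h : δ' ≤ δ) :
    (H : ℝ) ^ (-δ) * (2 * H + 1 : ℝ) ^ m ≤ 3 ^ δ' * (2 * H + 1 : ℝ) ^ ((m : ℝ) - δ') := by
  have hH1 : (1 : ℝ) ≤ H := by exact_mod_cast hH
  have hb : (0 : ℝ) < 2 * H + 1 := by positivity
  have h1 : (H : ℝ) ^ (-δ) ≤ (H : ℝ) ^ (-δ') := Real.rpow_le_rpow_of_exponent_le hH1 (by linarith)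
  have h2 : (H : ℝ) ^ (-δ') ≤ 3 ^ δ' * (2 * H + 1 : ℝ) ^ (-δ') := by
    rw [Real.rpow_neg (by linarith), Real.rpow_neg hb.le, ← div_eq_mul_inv,
      ← Real.div_rpow (by norm_num) hb.le, ← Real.inv_rpow (by linarith)]
    refine Real.rpow_le_rpow (by positivity) ?_ h0
    rw [inv_eq_one_div, div_le_div_iff₀ (by linarith) hb]
    linarith
  have h3 : (2 * H + 1 : ℝ) ^ ((m : ℝ) - δ') = (2 * H + 1 : ℝ) ^ (-δ') * (2 * H + 1 : ℝ) ^ m := by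
    rw [← Real.rpow_natCast _ m, ← Real.rpow_add hb]; congr 1; ring
  rw [h3, ← mul_assoc]
  exact mul_le_mul_of_nonneg_right (h1.trans h2) (by positivity)

end Pool.Agent.X123.ML
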