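import Mathlib

/-!
# Convergents are close (after `TH67.RP.Conv`)
-/

set_option autoImplicit false

namespace Pool.Agent.X123.ML

open Filter Topology

open GenContFract in
/-- the continuants are integers -/
theorem contsAux_int (v : ℝ) (n : ℕ) : ∃ a b : ℤ, ((GenContFract.of v).contsAux n).a = a ∧
    ((GenContFract.of v).contsAux n).b = b := by
  induction n using Nat.strong_induction_on with
  | _ n ih =>
    match n, ih with
    | 0, _ => exact ⟨1, 0, by simp [contsAux], by simp [contsAux]⟩
    | 1, _ => exact ⟨⌊v⌋, 1, by simp [contsAux, of_h_eq_floor], by simp [contsAux]⟩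
    | n + 2, ih =>
      obtain ⟨a0, b0, h0, h0'⟩ := ih n (by omega)
      obtain ⟨a1, b1, h1, h1'⟩ := ih (n + 1) (by omega)
      rcases hs : (GenContFract.of v).s.get? n with _ | gp
      · refine ⟨a1, b1, ?_, ?_⟩ <;> simp [contsAux, hs, h1, h1']
      · obtain ⟨e1, z, e2⟩ := of_partNum_eq_one_and_exists_int_partDen_eq hs
        refine ⟨z * a1 + a0, z * b1 + b0, ?_, ?_⟩
        · simp [contsAux, hs, nextConts, nextNum, e1, e2, h0, h1]
        · simp [contsAux, hs, nextConts, nextDen, e1, e2, h0', h1']

/-- a convergent is close -/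
theorem convergent_close (v : ℝ) (hv : Irrational v) (n : ℕ) :
    |v - (v.convergent n : ℝ)| ≤ 1 / ((v.convergent n).den : ℝ) ^ 2 := by
  have hterm : ∀ n, ¬ (GenContFract.of v).TerminatedAt n := by
    intro n h
    obtain ⟨q, hq⟩ := (GenContFract.terminates_iff_rat v).mp ⟨n, h⟩
    exact hv ⟨q, hq.symm⟩
  obtain ⟨a, b, ha, hb⟩ := contsAux_int v (n + 1)
  have h1 := GenContFract.abs_sub_convs_le (hterm n)
  have hden : (GenContFract.of v).dens n = b := hb
  have hnum : (GenContFract.of v).nums n = a := ha
  have hpos : (0 : ℝ) < b := by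
    rw [← hden]
    have h2 := GenContFract.succ_nth_fib_le_of_nth_den (v := v) (n := n) (Or.inr (hterm _))
    refine lt_of_lt_of_le ?_ h2
    exact_mod_cast Nat.fib_pos.mpr n.succ_pos
  have hmono : (b : ℝ) ≤ (GenContFract.of v).dens (n + 1) := by
    rw [← hden]; exact GenContFract.of_den_mono
  rw [hden] at h1
  have hc : (GenContFract.of v).convs n = (a : ℝ) / b := by
    have : (GenContFract.of v).convs n = (GenContFract.of v).nums n / (GenContFract.of v).dens n :=
      rfl
    rw [this, hden, hnum]
  have hr : v.convergent n = (a : ℚ) / b := by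
    have h3 := Real.convs_eq_convergent v n
    rw [hc] at h3
    have h4 : (((a : ℚ) / b : ℚ) : ℝ) = ((v.convergent n : ℚ) : ℝ) := by
      push_cast
      exact h3
    exact_mod_cast h4.symm
  have hbZ : 0 < b := by exact_mod_cast hpos
  have hle : ((v.convergent n).den : ℝ) ≤ b := by
    rw [hr]
    have h5 := Int.le_of_dvd hbZ (Rat.den_dvd a b)
    exact_mod_cast h5
  have hd0 : (0 : ℝ) < (v.convergent n).den := by exact_mod_cast (v.convergent n).den_pos
  rw [Real.convs_eq_convergent] at h1
  refine h1.trans ?_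
  apply one_div_le_one_div_of_le (by positivity)
  calc ((v.convergent n).den : ℝ) ^ 2 ≤ (b : ℝ) ^ 2 := pow_le_pow_left₀ hd0.le hle 2
    _ = b * b := sq _
    _ ≤ b * (GenContFract.of v).dens (n + 1) := mul_le_mul_of_nonneg_left hmono hpos.le

/-- a rational number has only finitely many different convergents -/
theorem convergent_rat_finite (x : ℚ) : (Set.range fun n => (x : ℝ).convergent n).Finite := by
  obtain ⟨N, hN⟩ := (GenContFract.terminates_iff_rat (x : ℝ)).2 ⟨x, rfl⟩
  refine ((Set.finite_le_nat N).image fun n => (x : ℝ).convergent n).subset ?_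
  rintro _ ⟨n, rfl⟩
  rcases le_total n N with h | h
  · exact ⟨n, h, rfl⟩
  · refine ⟨N, show N ≤ N from le_rfl, ?_⟩
    have h1 := Real.convs_eq_convergent (x : ℝ) n
    have h2 := Real.convs_eq_convergent (x : ℝ) N
    have h3 := GenContFract.convs_stable_of_terminated h hN
    rw [h1, h2] at h3
    exact_mod_cast h3.symm

end Pool.Agent.X123.ML
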