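import Pool.Agent.X123.ML.Low3

/-!
# The lower bound for the dimension inside an arbitrary open set
-/

set_option autoImplicit false

namespace Pool.Agent.X123.ML

open Filter Topology Finset
open scoped ENNReal NNReal

theorem lin_irr {ξ : ℝ} (hξ : Irrational ξ) {a b : ℤ} (h : (a, b) ≠ (0, 0)) :
    ξ * a - b ≠ 0 := by
  intro h1
  by_cases ha : a = 0
  · subst ha
    have h2 : (b : ℝ) = 0 := by
      push_cast at h1
      linarith
    exact h (by rw [show b = 0 by exact_mod_cast h2])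
  · apply hξ
    refine ⟨(b : ℚ) / a, ?_⟩
    have h3 : (a : ℝ) ≠ 0 := by exact_mod_cast ha
    push_cast
    rw [div_eq_iff h3]
    linarith

/-- the lower bound in an open set, for large `τ` -/
theorem lower_open {q : ℕ} (α : Fin q → ℤ × ℤ) (S : Finset ℕ) (h0 : ∀ i, α i ≠ 0) (i1 i2 : Fin q)
    (hΔ : (α i2).1 * (α i1).2 - (α i2).2 * (α i1).1 ≠ 0) (J : Set ℝ) (hJ : IsOpen J)
    (hJ2 : J.Nonempty) {κ c τ s : ℝ} (hκ0 : 0 ≤ κ)
    (hκ2 : κ < 2) (hτ : 2 - κ ≤ τ) (hs0 : 0 < s)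
    (hs : s * τ < 2 - κ) : ENNReal.ofReal s ≤ dimH (W α S κ c τ ∩ J) := by
  obtain ⟨ξ, hξ, hξJ⟩ := dense_irrational.exists_mem_open hJ hJ2
  have hξi : Irrational ξ := hξ
  set a := α i1 with ha
  set b := α i2 with hb
  have hΔR : (b.1 : ℝ) * a.2 - b.2 * a.1 ≠ 0 := by exact_mod_cast hΔ
  have h1 : ξ * a.2 - a.1 ≠ 0 := lin_irr hξi fun h => h0 i1 (Prod.ext
    (congrArg Prod.snd h) (congrArg Prod.fst h))
  have h2 : ξ * b.2 - b.1 ≠ 0 := lin_irr hξi fun h => h0 i2 (Prod.ext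
    (congrArg Prod.snd h) (congrArg Prod.fst h))
  -- the rational scaling
  obtain ⟨t0, ht0⟩ : ∃ t0 : ℝ, t0 = (ξ * a.2 - a.1) / (ξ * b.2 - b.1) := ⟨_, rfl⟩
  have ht00 : t0 ≠ 0 := by rw [ht0]; exact div_ne_zero h1 h2
  have hden : t0 * b.2 - a.2 = -((b.1 : ℝ) * a.2 - b.2 * a.1) * (-1) / (ξ * b.2 - b.1) := by
    rw [ht0]
    field_simp
    ring
  have hden0 : t0 * b.2 - a.2 ≠ 0 := by
    rw [hden]
    exact div_ne_zero (mul_ne_zero (neg_ne_zero.2 hΔR) (by norm_num)) h2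
  have hval : (t0 * b.1 - a.1) / (t0 * b.2 - a.2) = ξ := by
    rw [div_eq_iff hden0, ht0]
    field_simp
    ring
  have hopen1 : IsOpen {r : ℝ | r ≠ 0 ∧ r * (3 / 2) * b.2 - a.2 ≠ 0} := by
    refine isOpen_ne.inter ?_
    exact isOpen_ne.preimage (by fun_prop : Continuous fun r : ℝ => r * (3 / 2) * b.2 - a.2)
  have hcont : ContinuousOn (fun r : ℝ => (r * (3 / 2) * b.1 - a.1) / (r * (3 / 2) * b.2 - a.2))
      {r : ℝ | r ≠ 0 ∧ r * (3 / 2) * b.2 - a.2 ≠ 0} := by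
    apply ContinuousOn.div (by fun_prop) (by fun_prop)
    intro r hr
    exact hr.2
  have hopen2 := hcont.isOpen_inter_preimage hopen1 hJ
  obtain ⟨r, hr⟩ := Rat.denseRange_cast (𝕜 := ℝ) |>.exists_mem_open hopen2
    ⟨t0 / (3 / 2), ⟨⟨div_ne_zero ht00 (by norm_num), by
      show t0 / (3 / 2) * (3 / 2) * b.2 - a.2 ≠ 0
      rw [div_mul_cancel₀ _ (by norm_num)]; exact hden0⟩, by
      show (t0 / (3 / 2) * (3 / 2) * b.1 - a.1) / (t0 / (3 / 2) * (3 / 2) * b.2 - a.2) ∈ J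
      rw [div_mul_cancel₀ _ (by norm_num), hval]; exact hξJ⟩⟩
  obtain ⟨⟨hr0, hr1⟩, hr2⟩ := hr
  have hr2' : ((r : ℝ) * (3 / 2) * b.1 - a.1) / ((r : ℝ) * (3 / 2) * b.2 - a.2) ∈ J := hr2
  have hrq0 : r ≠ 0 := by
    rintro rfl
    exact hr0 (by simp)
  have hrnum : r.num ≠ 0 := Rat.num_ne_zero.2 hrq0
  have hrden : (r.den : ℝ) ≠ 0 := by exact_mod_cast r.den_ne_zero
  have hrcast : (r : ℝ) = r.num / r.den := by exact_mod_cast (Rat.num_div_den r).symm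
  -- the open set of parameters
  have hopen3 : IsOpen {y : ℝ | y * (r.num * b.2) - r.den * a.2 ≠ 0} :=
    isOpen_ne.preimage (by fun_prop : Continuous fun y : ℝ => y * (r.num * b.2) - r.den * a.2)
  have hcont2 : ContinuousOn (fun y : ℝ => (y * (r.num * b.1) - r.den * a.1) /
      (y * (r.num * b.2) - r.den * a.2)) {y : ℝ | y * (r.num * b.2) - r.den * a.2 ≠ 0} := by
    apply ContinuousOn.div (by fun_prop) (by fun_prop)
    intro y hy
    exact hy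
  have hopen4 := hcont2.isOpen_inter_preimage hopen3 hJ
  have e1 : (3 / 2 : ℝ) * (r.num * b.2) - r.den * a.2 =
      r.den * ((r : ℝ) * (3 / 2) * b.2 - a.2) := by
    rw [hrcast]
    field_simp
  have e2 : (3 / 2 : ℝ) * (r.num * b.1) - r.den * a.1 =
      r.den * ((r : ℝ) * (3 / 2) * b.1 - a.1) := by
    rw [hrcast]
    field_simp
  refine lower3 α S h0 i1 i2 hΔ r.num (r.den : ℤ) hrnum (by exact_mod_cast r.den_ne_zero) _ J
    hopen4 ⟨3 / 2, ⟨by norm_num, by norm_num⟩, ?_, ?_⟩ ?_ hκ0 hκ2 hτ hs0 hs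
  · show (3 / 2 : ℝ) * (r.num * b.2) - r.den * a.2 ≠ 0
    rw [e1]
    exact mul_ne_zero hrden hr1
  · show ((3 / 2 : ℝ) * (r.num * b.1) - r.den * a.1) /
      ((3 / 2 : ℝ) * (r.num * b.2) - r.den * a.2) ∈ J
    rw [e1, e2, mul_div_mul_left _ _ hrden]
    exact hr2'
  · rintro t ⟨_, ht⟩
    have ht' : (t * (r.num * b.1) - r.den * a.1) / (t * (r.num * b.2) - r.den * a.2) ∈ J := ht
    push_cast
    exact ht'

/-- the lower bound in an open set -/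
theorem lower_dim_open {q : ℕ} (hq : 2 ≤ q) (α : Fin q → ℤ × ℤ)
    (hcop : ∀ i, IsCoprime (α i).1 (α i).2)
    (hα : ∀ i j, i ≠ j → (α i).1 * (α j).2 ≠ (α j).1 * (α i).2) (S : Finset ℕ) (J : Set ℝ)
    (hJ : IsOpen J) (hJ2 : J.Nonempty) {κ τ : ℝ}
    (c : ℝ) (hκ0 : 0 ≤ κ) (hκ2 : κ < 2) (hτ : 0 < τ) :
    ENNReal.ofReal (min 1 ((2 - κ) / τ)) ≤ dimH (W α S κ c τ ∩ J) := by
  set τ' : ℝ := max τ (2 - κ) with hτ'
  have h0 : ∀ i, α i ≠ 0 := by
    intro i h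
    have h3 := hcop i
    rw [h] at h3
    exact not_isCoprime_zero_zero h3
  have hτ1 : 2 - κ ≤ τ' := le_max_right _ _
  have hτ'0 : 0 < τ' := lt_of_lt_of_le hτ (le_max_left _ _)
  have hsub : W α S κ c τ' ∩ J ⊆ W α S κ c τ ∩ J := by
    rintro ξ ⟨hξ, hξJ⟩
    refine ⟨Set.Infinite.mono ?_ hξ, hξJ⟩
    rintro x ⟨h1, h2, h3⟩
    refine ⟨h1, h2, h3.trans ?_⟩
    apply Real.rpow_le_rpow_of_exponent_le
    · exact_mod_cast H_pos x
    · have := le_max_left τ (2 - κ)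
      linarith
  refine le_trans ?_ (dimH_mono hsub)
  have hmin : min 1 ((2 - κ) / τ) ≤ (2 - κ) / τ' := by
    rw [le_div_iff₀ hτ'0, hτ']
    rcases max_cases τ (2 - κ) with ⟨h1, _⟩ | ⟨h1, _⟩
    · rw [h1]
      calc min 1 ((2 - κ) / τ) * τ ≤ ((2 - κ) / τ) * τ :=
            mul_le_mul_of_nonneg_right (min_le_right _ _) hτ.le
        _ = 2 - κ := div_mul_cancel₀ _ hτ.ne'
    · rw [h1]
      calc min 1 ((2 - κ) / τ) * (2 - κ) ≤ 1 * (2 - κ) :=
            mul_le_mul_of_nonneg_right (min_le_left _ _) (by linarith)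
        _ = _ := one_mul _
  have hmin0 : 0 < min 1 ((2 - κ) / τ) := lt_min one_pos (div_pos (by linarith) hτ)
  refine le_of_forall_lt fun d hd => ?_
  obtain ⟨r, hr1, hr2⟩ := ENNReal.lt_iff_exists_nnreal_btwn.1 hd
  refine hr1.trans_le ?_
  rcases eq_or_ne r 0 with h | h
  · rw [h]; simp
  have hr0 : (0 : ℝ) < r := by exact_mod_cast pos_iff_ne_zero.2 h
  have hr3 : (r : ℝ) < min 1 ((2 - κ) / τ) := by
    have h1 : ENNReal.ofReal (r : ℝ) < ENNReal.ofReal (min 1 ((2 - κ) / τ)) := by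
      rw [ENNReal.ofReal_coe_nnreal]; exact hr2
    exact (ENNReal.ofReal_lt_ofReal_iff_of_nonneg hr0.le).1 h1
  have hi1 : (⟨0, by omega⟩ : Fin q) ≠ ⟨1, by omega⟩ := by
    intro h
    have := congrArg Fin.val h
    simp at this
  have h2 := lower_open α S h0 ⟨0, by omega⟩ ⟨1, by omega⟩ (by
    have h4 := hα _ _ hi1
    intro h5
    apply h4
    linarith) J hJ hJ2 (κ := κ) (c := c) (τ := τ') (s := r) hκ0 hκ2 hτ1 hr0 (by
    have h5 : (r : ℝ) < (2 - κ) / τ' := hr3.trans_le hmin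
    rwa [lt_div_iff₀ hτ'0] at h5)
  rwa [ENNReal.ofReal_coe_nnreal] at h2

end Pool.Agent.X123.ML
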