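import Pool.Agent.X123.ML.Gen
import Pool.Agent.X123.ML.Loc
import Pool.Agent.X123.ML.Cv

/-!
# abc triples near a real number
-/

set_option autoImplicit false

namespace Pool.Agent.X123.ML.Abc

open Filter Topology Finset Pool.Agent.X123.ML
open scoped ENNReal NNReal

def R (m : ℕ) : ℕ := ∏ p ∈ m.primeFactors, p

def IsTriple (t : ℕ × ℕ × ℕ) : Prop :=
  0 < t.1 ∧ 0 < t.2.1 ∧ Nat.Coprime t.1 t.2.1 ∧ t.1 + t.2.1 = t.2.2

def Small (B lam : ℝ) (t : ℕ × ℕ × ℕ) : Prop :=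
  IsTriple t ∧ (R (t.1 * t.2.1 * t.2.2) : ℝ) ≤ B * (t.2.2 : ℝ) ^ lam

def Near (B lam τ : ℝ) : Set ℝ :=
  {ξ | {t : ℕ × ℕ × ℕ | Small B lam t ∧ |ξ - (t.1 : ℝ) / t.2.2| ≤ (t.2.2 : ℝ) ^ (-τ)}.Infinite}

def Conv (B lam : ℝ) : Set ℝ :=
  {ξ | {t : ℕ × ℕ × ℕ | Small B lam t ∧ ∃ n : ℕ, ξ.convergent n = (t.1 : ℚ) / t.2.2}.Infinite}

def φ (t : ℕ × ℕ × ℕ) : ℚ := (t.1 : ℚ) / t.2.2

theorem coprime_ac {t : ℕ × ℕ × ℕ} (ht : IsTriple t) : Nat.Coprime t.1 t.2.2 := by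
  obtain ⟨_, _, h3, h4⟩ := ht
  rw [← h4]
  exact (Nat.coprime_self_add_right).2 h3

theorem c_pos {t : ℕ × ℕ × ℕ} (ht : IsTriple t) : 0 < t.2.2 := by
  obtain ⟨h1, _, _, h4⟩ := ht
  omega

theorem num_φ {t : ℕ × ℕ × ℕ} (ht : IsTriple t) : (φ t).num = t.1 := by
  have h1 := Rat.num_div_eq_of_coprime (a := (t.1 : ℤ)) (b := (t.2.2 : ℤ))
    (by exact_mod_cast c_pos ht) (by simpa using coprime_ac ht)
  have h2 : φ t = ((t.1 : ℤ) : ℚ) / ((t.2.2 : ℤ) : ℚ) := by unfold φ; push_cast; rfl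
  rw [h2]
  exact h1

theorem den_φ {t : ℕ × ℕ × ℕ} (ht : IsTriple t) : (φ t).den = t.2.2 := by
  have h1 := Rat.den_div_eq_of_coprime (a := (t.1 : ℤ)) (b := (t.2.2 : ℤ))
    (by exact_mod_cast c_pos ht) (by simpa using coprime_ac ht)
  have h2 : φ t = ((t.1 : ℤ) : ℚ) / ((t.2.2 : ℤ) : ℚ) := by unfold φ; push_cast; rfl
  rw [h2]
  exact_mod_cast h1

theorem H_φ {t : ℕ × ℕ × ℕ} (ht : IsTriple t) : H (φ t) = t.2.2 := by
  unfold H
  rw [num_φ ht, den_φ ht]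
  obtain ⟨h1, h2, h3, h4⟩ := ht
  rw [Int.natAbs_natCast]
  omega

theorem φ_inj {t t' : ℕ × ℕ × ℕ} (ht : IsTriple t) (ht' : IsTriple t') (h : φ t = φ t') :
    t = t' := by
  have h1 : t.1 = t'.1 := by
    have := congrArg Rat.num h
    rw [num_φ ht, num_φ ht'] at this
    exact_mod_cast this
  have h2 : t.2.2 = t'.2.2 := by
    have := congrArg Rat.den h
    rwa [den_φ ht, den_φ ht'] at this
  have h3 := ht.2.2.2
  have h4 := ht'.2.2.2
  refine Prod.ext h1 (Prod.ext ?_ h2)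
  omega

theorem cast_φ (t : ℕ × ℕ × ℕ) : ((φ t : ℚ) : ℝ) = (t.1 : ℝ) / t.2.2 := by
  unfold φ
  push_cast
  rfl

theorem near_subset (B lam τ : ℝ) : Near B lam τ ⊆ Appr (φ '' {t | Small B lam t}) τ := by
  intro ξ hξ
  have hinj : Set.InjOn φ {t : ℕ × ℕ × ℕ | Small B lam t ∧
      |ξ - (t.1 : ℝ) / t.2.2| ≤ (t.2.2 : ℝ) ^ (-τ)} :=
    fun t ht t' ht' h => φ_inj ht.1.1 ht'.1.1 h
  have h1 := (Set.infinite_image_iff hinj).2 hξ
  refine Set.Infinite.mono ?_ h1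
  rintro _ ⟨t, ⟨h2, h3⟩, rfl⟩
  refine ⟨⟨t, h2, rfl⟩, ?_⟩
  rw [cast_φ, H_φ h2.1]
  exact h3

/-- the upper bound -/
theorem upper_near {F : ℝ → ℝ} (B lam τ : ℝ) (hτ : 0 < τ) (hF : 0 ≤ F lam)
    (hcount : ∀ δ : ℝ, 0 < δ → ∃ C : ℝ, ∀ X : ℕ, 1 ≤ X →
      {t : ℕ × ℕ × ℕ | Small B lam t ∧ t.2.2 ≤ X}.Finite ∧
      (({t : ℕ × ℕ × ℕ | Small B lam t ∧ t.2.2 ≤ X}.ncard : ℕ) : ℝ) ≤
        C * (X : ℝ) ^ (F lam + δ)) :
    dimH (Near B lam τ) ≤ ENNReal.ofReal (F lam / τ) := by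
  refine (dimH_mono (near_subset B lam τ)).trans (appr_dim _ hF hτ ?_)
  intro δ hδ
  obtain ⟨C, hC⟩ := hcount δ hδ
  refine ⟨C, fun X hX => ?_⟩
  obtain ⟨h1, h2⟩ := hC X hX
  have hsub : {x : ℚ | x ∈ φ '' {t | Small B lam t} ∧ H x ≤ X} ⊆
      φ '' {t : ℕ × ℕ × ℕ | Small B lam t ∧ t.2.2 ≤ X} := by
    rintro x ⟨⟨t, ht, rfl⟩, hx⟩
    rw [H_φ ht.1] at hx
    exact ⟨t, ⟨ht, hx⟩, rfl⟩
  refine ⟨(h1.image φ).subset hsub, le_trans ?_ h2⟩
  have h3 := Set.ncard_le_ncard hsub (h1.image φ)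
  have h4 := Set.ncard_image_le (f := φ) h1
  exact_mod_cast h3.trans h4

theorem conv_subset (B lam : ℝ) : Conv B lam ⊆ Near B lam 2 ∪ Set.range ((↑) : ℚ → ℝ) := by
  intro ξ hξ
  by_cases hrat : ξ ∈ Set.range ((↑) : ℚ → ℝ)
  · exact Or.inr hrat
  left
  refine Set.Infinite.mono ?_ hξ
  rintro t ⟨h1, n, hn⟩
  refine ⟨h1, ?_⟩
  have h2 := convergent_close ξ hrat n
  have h3 : ξ.convergent n = φ t := hn
  rw [h3, den_φ h1.1, cast_φ] at h2
  refine h2.trans (le_of_eq ?_)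
  rw [Real.rpow_neg (Nat.cast_nonneg _), one_div]
  congr 1
  exact_mod_cast rfl

/-- the points `0, ∞, 1` -/
def α3 : Fin 3 → ℤ × ℤ := ![(0, 1), (1, 0), (1, 1)]

theorem log_R (m : ℕ) : Real.log (R m) = ∑ p ∈ m.primeFactors, Real.log (p : ℝ) := by
  unfold R
  rw [Nat.cast_prod, Real.log_prod]
  intro p hp
  exact_mod_cast (Nat.prime_of_mem_primeFactors hp).ne_zero

theorem sum_union_le (s t : Finset ℕ) : ∑ p ∈ s ∪ t, Real.log (p : ℝ) ≤
    ∑ p ∈ s, Real.log (p : ℝ) + ∑ p ∈ t, Real.log (p : ℝ) := by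
  classical
  rw [← Finset.sum_union_inter]
  have : 0 ≤ ∑ p ∈ s ∩ t, Real.log (p : ℝ) := sum_nonneg fun p _ => Real.log_natCast_nonneg p
  linarith

/-- the triple of a rational number between `0` and `1` -/
def ψ (x : ℚ) : ℕ × ℕ × ℕ := (x.num.natAbs, x.den - x.num.natAbs, x.den)

theorem ψ_facts {x : ℚ} (h0 : 0 < x) (h1 : x < 1) : IsTriple (ψ x) ∧ φ (ψ x) = x ∧
    Real.log (R ((ψ x).1 * (ψ x).2.1 * (ψ x).2.2)) ≤ N1 α3 ∅ x := by
  have hn : 0 < x.num := Rat.num_pos.2 h0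
  have hlt : x.num < x.den := by
    have hd : (0 : ℚ) < x.den := by exact_mod_cast x.den_pos
    have h2 : (x.num : ℚ) / x.den < 1 := by rw [Rat.num_div_den]; exact h1
    rw [div_lt_one hd] at h2
    exact_mod_cast h2
  obtain ⟨a, ha⟩ : ∃ a : ℕ, x.num = a := ⟨x.num.natAbs, by omega⟩
  have haa : x.num.natAbs = a := by omega
  have ha0 : 0 < a := by omega
  have hac : a < x.den := by omega
  have hcop : Nat.Coprime a x.den := by rw [← haa]; exact x.reduced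
  have hψ : ψ x = (a, x.den - a, x.den) := by unfold ψ; rw [haa]
  rw [hψ]
  refine ⟨⟨ha0, by simp only; omega, ?_, by simp only; omega⟩, ?_, ?_⟩
  · simp only
    have h2 : Nat.Coprime a (a + (x.den - a)) := by
      rw [Nat.add_sub_cancel' hac.le]
      exact hcop
    exact (Nat.coprime_self_add_right).1 h2
  · unfold φ
    simp only
    have h2 : (x.num : ℚ) / x.den = x := Rat.num_div_den x
    rw [ha, Int.cast_natCast] at h2
    exact h2
  · simp only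
    rw [log_R]
    have hb0 : x.den - a ≠ 0 := by omega
    have hc0 : x.den ≠ 0 := x.den_ne_zero
    rw [Nat.primeFactors_mul (mul_ne_zero ha0.ne' hb0) hc0, Nat.primeFactors_mul ha0.ne' hb0]
    have e1 : N1 α3 ∅ x = ∑ p ∈ a.primeFactors, Real.log (p : ℝ) +
        ∑ p ∈ x.den.primeFactors, Real.log (p : ℝ) +
        ∑ p ∈ (x.den - a).primeFactors, Real.log (p : ℝ) := by
      unfold N1
      rw [Fin.sum_univ_three]
      have f0 : (form (α3 0) x).natAbs = a := by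
        simp only [form, α3, Matrix.cons_val_zero]
        omega
      have f1 : (form (α3 1) x).natAbs = x.den := by
        simp only [form, α3, Matrix.cons_val_one, Matrix.cons_val_zero]
        omega
      have f2 : (form (α3 2) x).natAbs = x.den - a := by
        have : α3 2 = (1, 1) := rfl
        rw [this]
        simp only [form]
        omega
      rw [f0, f1, f2]
      simp only [sdiff_empty]
    rw [e1]
    have h3 := sum_union_le (a.primeFactors ∪ (x.den - a).primeFactors) x.den.primeFactors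
    have h4 := sum_union_le a.primeFactors (x.den - a).primeFactors
    linarith

theorem w_subset {B lam τ : ℝ} (hB : 0 < B) (hτ : 0 < τ) (J : Set ℝ) :
    W α3 ∅ (3 - lam) (Real.log B) τ ∩ (J ∩ Set.Ioo 0 1) ⊆ Near B lam τ ∩ J := by
  rintro ξ ⟨hξ, hξJ, hξ0, hξ1⟩
  refine ⟨?_, hξJ⟩
  -- the rationals outside (0, 1)
  obtain ⟨d, hd⟩ : ∃ d, d = min ξ (1 - ξ) := ⟨_, rfl⟩
  have hd0 : 0 < d := by rw [hd]; exact lt_min hξ0 (by linarith)
  have hd1 : d ≤ ξ := by rw [hd]; exact min_le_left _ _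
  have hd2 : d ≤ 1 - ξ := by rw [hd]; exact min_le_right _ _
  have hfin : {x : ℚ | (¬ (0 < x ∧ x < 1)) ∧ |ξ - x| ≤ (H x : ℝ) ^ (-τ)}.Finite := by
    obtain ⟨n, hn⟩ := exists_nat_ge (d ^ (-1 / τ))
    have hfH : {x : ℚ | H x ≤ n}.Finite := by
      let f : ℚ → ℤ × ℤ := fun x => (x.num, (x.den : ℤ))
      have hinj : Function.Injective f := by
        intro x y hxy
        have h1 : x.num = y.num := congrArg Prod.fst hxy
        have h2 : (x.den : ℤ) = y.den := congrArg Prod.snd hxy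
        exact Rat.ext h1 (by exact_mod_cast h2)
      refine Set.Finite.of_finite_image (f := f) ?_ hinj.injOn
      refine ((Set.finite_Icc (-(n : ℤ)) n).prod (Set.finite_Icc (0 : ℤ) n)).subset ?_
      rintro _ ⟨x, hx, rfl⟩
      have hx' : max x.num.natAbs x.den ≤ n := hx
      have h1 : x.num.natAbs ≤ n := (le_max_left _ _).trans hx'
      have h2 : x.den ≤ n := (le_max_right _ _).trans hx'
      refine ⟨⟨?_, ?_⟩, ⟨?_, ?_⟩⟩ <;> simp only [f] <;> omega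
    refine hfH.subset ?_
    rintro x ⟨h1, h2⟩
    have h3 : d ≤ |ξ - x| := by
      by_cases h4 : 0 < x
      · have h5 : (1 : ℝ) ≤ x := by
          have : 1 ≤ x := by
            by_contra hcon
            push Not at hcon
            exact h1 ⟨h4, hcon⟩
          exact_mod_cast this
        rw [abs_sub_comm]
        exact le_trans (by linarith) (le_abs_self _)
      · push Not at h4
        have h5 : (x : ℝ) ≤ 0 := by exact_mod_cast h4
        exact le_trans (by linarith) (le_abs_self _)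
    have h6 := h3.trans h2
    have hHp : (0 : ℝ) < H x := by exact_mod_cast H_pos x
    have h7 : (H x : ℝ) ≤ d ^ (-1 / τ) := by
      have h8 := Real.rpow_le_rpow_of_nonpos hd0 h6 (by
        rw [neg_div]; exact (neg_neg_of_pos (by positivity)).le : -1 / τ ≤ 0)
      rw [← Real.rpow_mul hHp.le] at h8
      have h9 : -τ * (-1 / τ) = 1 := by field_simp
      rwa [h9, Real.rpow_one] at h8
    have h8 : (H x : ℝ) ≤ n := h7.trans hn
    exact_mod_cast h8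
  have hinf := Set.Infinite.sdiff hξ hfin
  -- the map to triples
  have hinj : Set.InjOn ψ ({x : ℚ | (∀ i, form (α3 i) x ≠ 0) ∧
      N1 α3 ∅ x < (((3 : ℕ) : ℝ) - (3 - lam)) * Real.log (H x) + Real.log B ∧
      |ξ - x| ≤ (H x : ℝ) ^ (-τ)} \ {x : ℚ | (¬ (0 < x ∧ x < 1)) ∧
        |ξ - x| ≤ (H x : ℝ) ^ (-τ)}) := by
    rintro x ⟨hx1, hx2⟩ y ⟨hy1, hy2⟩ hxy
    have hx : 0 < x ∧ x < 1 := by
      by_contra hcon
      exact hx2 ⟨hcon, hx1.2.2⟩
    have hy : 0 < y ∧ y < 1 := by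
      by_contra hcon
      exact hy2 ⟨hcon, hy1.2.2⟩
    rw [← (ψ_facts hx.1 hx.2).2.1, ← (ψ_facts hy.1 hy.2).2.1, hxy]
  have h1 := (Set.infinite_image_iff hinj).2 hinf
  refine Set.Infinite.mono ?_ h1
  rintro _ ⟨x, ⟨⟨hx1, hx2, hx3⟩, hx4⟩, rfl⟩
  have hx : 0 < x ∧ x < 1 := by
    by_contra hcon
    exact hx4 ⟨hcon, hx3⟩
  obtain ⟨hT, hφ, hR⟩ := ψ_facts hx.1 hx.2
  have hH : H x = (ψ x).2.2 := by rw [← H_φ hT, hφ]
  have hcR : (0 : ℝ) < (ψ x).2.2 := by exact_mod_cast c_pos hT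
  refine ⟨⟨hT, ?_⟩, ?_⟩
  · have hRpos : 0 < R ((ψ x).1 * (ψ x).2.1 * (ψ x).2.2) :=
      prod_pos fun p hp => (Nat.prime_of_mem_primeFactors hp).pos
    have hRR : (0 : ℝ) < R ((ψ x).1 * (ψ x).2.1 * (ψ x).2.2) := by exact_mod_cast hRpos
    rw [← Real.log_le_log_iff hRR (by positivity), Real.log_mul hB.ne' (by positivity),
      Real.log_rpow hcR]
    have e : ((3 : ℕ) : ℝ) - (3 - lam) = lam := by push_cast; ring
    rw [e, hH] at hx2
    linarith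
  · rw [← cast_φ, hφ, ← hH]
    exact hx3

theorem α3_cop : ∀ i, IsCoprime (α3 i).1 (α3 i).2 := by
  intro i
  fin_cases i
  · exact isCoprime_one_right
  · exact isCoprime_one_left
  · exact isCoprime_one_left

theorem α3_ne : ∀ i j, i ≠ j → (α3 i).1 * (α3 j).2 ≠ (α3 j).1 * (α3 i).2 := by
  decide

/-- the lower bound -/
theorem lower_near {B lam τ : ℝ} (hB : 0 < B) (h1 : 1 < lam) (h3 : lam ≤ 3) (hτ : 0 < τ)
    (J : Set ℝ) (hJ : IsOpen J) (hJ2 : (J ∩ Set.Ioo 0 1).Nonempty) :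
    ENNReal.ofReal (min 1 ((lam - 1) / τ)) ≤ dimH (Near B lam τ ∩ J) := by
  have h4 := lower_dim_open (q := 3) (by norm_num) α3 α3_cop α3_ne ∅ (J ∩ Set.Ioo 0 1)
    (hJ.inter isOpen_Ioo) hJ2 (κ := 3 - lam) (τ := τ) (Real.log B) (by linarith) (by linarith) hτ
  have e : 2 - (3 - lam) = lam - 1 := by ring
  rw [e] at h4
  exact h4.trans (dimH_mono (w_subset hB hτ J))

theorem near_conv {B lam τ : ℝ} (hτ : 2 < τ) : Near B lam τ ⊆ Conv B lam := by
  intro ξ hξ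
  have hfin : {t : ℕ × ℕ × ℕ | IsTriple t ∧ (t.2.2 : ℝ) ^ (τ - 2) ≤ 2}.Finite := by
    obtain ⟨n, hn⟩ := exists_nat_ge ((2 : ℝ) ^ (1 / (τ - 2)))
    refine Set.Finite.subset (Finset.finite_toSet
      ((range (n + 1)) ×ˢ (range (n + 1)) ×ˢ (range (n + 1)))) ?_
    rintro t ⟨ht, h1⟩
    have hc : (0 : ℝ) < t.2.2 := by exact_mod_cast c_pos ht
    have h2 : (t.2.2 : ℝ) ≤ (2 : ℝ) ^ (1 / (τ - 2)) := by
      have h3 := Real.rpow_le_rpow (by positivity) h1 (by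
        apply div_nonneg zero_le_one; linarith : (0 : ℝ) ≤ 1 / (τ - 2))
      rw [← Real.rpow_mul hc.le, mul_one_div_cancel (by linarith), Real.rpow_one] at h3
      exact h3
    have h4 : t.2.2 ≤ n := by
      have := h2.trans hn
      exact_mod_cast this
    obtain ⟨g1, g2, g3, g4⟩ := ht
    simp only [coe_product, Set.mem_prod, coe_range, Set.mem_Iio]
    omega
  refine Set.Infinite.mono ?_ (Set.Infinite.sdiff hξ hfin)
  rintro t ⟨⟨h1, h2⟩, h3⟩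
  refine ⟨h1, ?_⟩
  have hc : (0 : ℝ) < t.2.2 := by exact_mod_cast c_pos h1.1
  have h4 : 2 < (t.2.2 : ℝ) ^ (τ - 2) := by
    by_contra hcon
    push Not at hcon
    exact h3 ⟨h1.1, hcon⟩
  have h5 : |ξ - (φ t : ℚ)| < 1 / (2 * ((φ t).den : ℝ) ^ 2) := by
    rw [cast_φ, den_φ h1.1]
    refine lt_of_le_of_lt h2 ?_
    rw [lt_div_iff₀ (by positivity)]
    have e : (t.2.2 : ℝ) ^ (-τ) * (2 * (t.2.2 : ℝ) ^ 2) =
        2 * (t.2.2 : ℝ) ^ (-(τ - 2)) := by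
      rw [← Real.rpow_natCast (t.2.2 : ℝ) 2, mul_left_comm, ← Real.rpow_add hc]
      congr 2
      push_cast
      ring
    rw [e, Real.rpow_neg hc.le, ← div_eq_mul_inv, div_lt_one (by positivity)]
    exact h4
  obtain ⟨n, hn⟩ := Real.exists_rat_eq_convergent h5
  exact ⟨n, hn.symm⟩

theorem lower_conv {B lam : ℝ} (hB : 0 < B) (h1 : 1 < lam) (h3 : lam ≤ 3)
    (J : Set ℝ) (hJ : IsOpen J) (hJ2 : (J ∩ Set.Ioo 0 1).Nonempty) :
    ENNReal.ofReal ((lam - 1) / 2) ≤ dimH (Conv B lam ∩ J) := by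
  refine le_of_forall_lt fun d hd => ?_
  obtain ⟨r, hr1, hr2⟩ := ENNReal.lt_iff_exists_nnreal_btwn.1 hd
  rcases eq_or_ne r 0 with h | h
  · rw [h] at hr1
    simp at hr1
  have hr0 : (0 : ℝ) < r := by exact_mod_cast pos_iff_ne_zero.2 h
  have hr3 : (r : ℝ) < (lam - 1) / 2 := by
    have h1 : ENNReal.ofReal (r : ℝ) < ENNReal.ofReal ((lam - 1) / 2) := by
      rw [ENNReal.ofReal_coe_nnreal]; exact hr2
    exact (ENNReal.ofReal_lt_ofReal_iff_of_nonneg hr0.le).1 h1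
  obtain ⟨τ, hτ⟩ : ∃ τ, τ = (2 + (lam - 1) / r) / 2 := ⟨_, rfl⟩
  have h4 : 2 < (lam - 1) / r := by
    rw [lt_div_iff₀ hr0]
    linarith
  have hτ2 : 2 < τ := by linarith
  have hτr : τ < (lam - 1) / r := by linarith
  have h5 : (r : ℝ) ≤ min 1 ((lam - 1) / τ) := by
    apply le_min
    · linarith
    · rw [le_div_iff₀ (by linarith)]
      rw [lt_div_iff₀ hr0] at hτr
      linarith
  have h6 := lower_near (τ := τ) hB h1 h3 (by linarith) J hJ hJ2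
  have h7 : (r : ℝ≥0∞) ≤ ENNReal.ofReal (min 1 ((lam - 1) / τ)) := by
    rw [← ENNReal.ofReal_coe_nnreal]
    exact ENNReal.ofReal_le_ofReal h5
  exact hr1.trans_le (h7.trans (h6.trans (dimH_mono (Set.inter_subset_inter_left _
    (near_conv hτ2)))))

end Pool.Agent.X123.ML.Abc
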