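import Pool.Agent.X123.ML.Up

/-!
# The inequality for almost all real numbers
-/

set_option autoImplicit false

namespace Pool.Agent.X123.ML

open Filter Topology Finset MeasureTheory
open scoped ENNReal NNReal

theorem volume_zero {E : Set ℝ} (h : dimH E < 1) : volume E = 0 := by
  rw [← hausdorffMeasure_real]
  have := hausdorffMeasure_of_dimH_lt (s := E) (d := 1) (by exact_mod_cast h)
  simpa using this

theorem finite_H (n : ℕ) : {x : ℚ | H x ≤ n}.Finite := by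
  have h1 := NumberField.finite_setOfPred_mulHeight₁_le (K := ℚ) (n : ℝ)
  refine h1.subset fun x hx => ?_
  have hx' : H x ≤ n := hx
  show Height.mulHeight₁ x ≤ n
  rw [Rat.mulHeight₁_eq_max]
  exact_mod_cast hx'

theorem N1_lt {q : ℕ} (α : Fin q → ℤ × ℤ) (S : Finset ℕ) {x : ℚ}
    (hx : ∀ i, form (α i) x ≠ 0) : N1 α S x < q * Real.log (H x) + (cst α + 1) := by
  have key : ∀ i, ∑ p ∈ (form (α i) x).natAbs.primeFactors \ S, Real.log (p : ℝ) ≤
      Real.log (H x) + Real.log (((α i).1.natAbs + (α i).2.natAbs : ℕ) : ℝ) := by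
    intro i
    have h3 := log_form_le (hx i)
    have h5 := sum_log_le (Int.natAbs_ne_zero.2 (hx i)) S
    linarith
  have h1 : N1 α S x ≤ q * Real.log (H x) + cst α := by
    unfold N1 cst
    refine (sum_le_sum fun i _ => key i).trans (le_of_eq ?_)
    rw [sum_add_distrib, sum_const, card_univ, Fintype.card_fin, nsmul_eq_mul]
  linarith

theorem ae_part {q : ℕ} (hq : 2 ≤ q) (α : Fin q → ℤ × ℤ)
    (hcop : ∀ i, IsCoprime (α i).1 (α i).2)
    (hα : ∀ i j, i ≠ j → (α i).1 * (α j).2 ≠ (α j).1 * (α i).2) (S : Finset ℕ) {τ0 : ℝ}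
    (hτ0 : 0 < τ0) (hτ2 : τ0 ≤ 2)
    (hsel : ∀ κ : ℝ, κ ≤ 2 - τ0 → Pool.Agent.H691R3.Sel.{0} q κ (2 - κ)) {ε : ℝ} (hε : 0 < ε) :
    ∀ᵐ ξ : ℝ, ∃ C : ℝ, ∀ x : ℚ, (∀ i, form (α i) x ≠ 0) →
      |ξ - x| ≤ (H x : ℝ) ^ (-(τ0 + ε)) →
      (q - 2 - ε) * Real.log (H x) + Real.log (1 / |ξ - x|) ≤ N1 α S x + C := by
  obtain ⟨σ, hσ⟩ : ∃ σ : ℕ → ℝ, ∀ j, σ j = τ0 + ε + j * (ε / 2) := ⟨_, fun _ => rfl⟩
  obtain ⟨κ, hκ⟩ : ∃ κ : ℕ → ℝ, ∀ j, κ j = 2 - σ j + ε / 2 := ⟨_, fun _ => rfl⟩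
  have hj0 : ∀ j : ℕ, (0 : ℝ) ≤ j * (ε / 2) := fun j => by positivity
  have h1 : ∀ᵐ ξ : ℝ, ∀ j, 0 ≤ κ j → ξ ∉ W α S (κ j) 0 (σ j) := by
    rw [ae_all_iff]
    intro j
    by_cases hκj : 0 ≤ κ j
    · have hκj2 : κ j ≤ 2 - τ0 := by
        have := hj0 j
        rw [hκ, hσ]
        linarith
      have hσj : 0 < σ j := by
        have := hj0 j
        rw [hσ]
        linarith
      have h2 := upper_dim hq α hcop hα S 0 hκj (by linarith : 0 ≤ 2 - κ j) hσj
        (hsel (κ j) hκj2)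
      have h3 : dimH (W α S (κ j) 0 (σ j)) < 1 := by
        refine h2.trans_lt ?_
        rw [← ENNReal.ofReal_one, ENNReal.ofReal_lt_ofReal_iff one_pos, div_lt_one hσj, hκ]
        linarith
      have h4 := volume_zero h3
      rw [← compl_compl (W α S (κ j) 0 (σ j)), ← mem_ae_iff] at h4
      filter_upwards [h4] with ξ hξ _ using hξ
    · exact Eventually.of_forall fun ξ h => absurd h hκj
  have h2 : ∀ᵐ ξ : ℝ, ξ ∉ W α S 0 (cst α + 1) (2 + ε / 4) := by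
    have h2 := upper_dim hq α hcop hα S (cst α + 1) le_rfl (by norm_num : (0 : ℝ) ≤ 2 - 0)
      (by linarith : 0 < 2 + ε / 4) (hsel 0 (by linarith))
    have h3 : dimH (W α S 0 (cst α + 1) (2 + ε / 4)) < 1 := by
      refine h2.trans_lt ?_
      rw [← ENNReal.ofReal_one, ENNReal.ofReal_lt_ofReal_iff one_pos,
        div_lt_one (by linarith : 0 < 2 + ε / 4)]
      linarith
    have h4 := volume_zero h3
    rw [← compl_compl (W α S 0 (cst α + 1) (2 + ε / 4)), ← mem_ae_iff] at h4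
    filter_upwards [h4] with ξ hξ using hξ
  have h3 : ∀ᵐ ξ : ℝ, ξ ∉ Set.range ((↑) : ℚ → ℝ) := by
    have h4 : volume (Set.range ((↑) : ℚ → ℝ)) = 0 := (Set.countable_range _).measure_zero _
    rw [← compl_compl (Set.range ((↑) : ℚ → ℝ)), ← mem_ae_iff] at h4
    filter_upwards [h4] with ξ hξ using hξ
  filter_upwards [h1, h2, h3] with ξ h1 h2 h3
  have hne : ∀ x : ℚ, 0 < |ξ - x| := fun x => abs_pos.2 (sub_ne_zero.2 fun h => h3 ⟨x, h.symm⟩)
  obtain ⟨J, hJ⟩ := exists_nat_gt ((2 + ε / 4) / (ε / 2))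
  rw [div_lt_iff₀ (by positivity)] at hJ
  -- the finite sets
  have hA : ∀ j, 0 ≤ κ j → {x : ℚ | (∀ i, form (α i) x ≠ 0) ∧
      N1 α S x < (q - κ j) * Real.log (H x) + 0 ∧ |ξ - x| ≤ (H x : ℝ) ^ (-(σ j))}.Finite :=
    fun j hj => Set.not_infinite.1 (h1 j hj)
  have hA' : {x : ℚ | (∀ i, form (α i) x ≠ 0) ∧
      N1 α S x < (q - 0) * Real.log (H x) + (cst α + 1) ∧
        |ξ - x| ≤ (H x : ℝ) ^ (-(2 + ε / 4))}.Finite := Set.not_infinite.1 h2
  obtain ⟨E, hE⟩ : ∃ E : Set ℚ, E = {x : ℚ | (∀ i, form (α i) x ≠ 0) ∧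
      |ξ - x| ≤ (H x : ℝ) ^ (-(τ0 + ε)) ∧
      N1 α S x < (q - 2 - ε) * Real.log (H x) + Real.log (1 / |ξ - x|)} := ⟨_, rfl⟩
  have hEfin : E.Finite := by
    have hU : ({x : ℚ | H x ≤ 1} ∪ {x : ℚ | (∀ i, form (α i) x ≠ 0) ∧
        N1 α S x < (q - 0) * Real.log (H x) + (cst α + 1) ∧
        |ξ - x| ≤ (H x : ℝ) ^ (-(2 + ε / 4))} ∪ ⋃ j ∈ {j : ℕ | j < J ∧ 0 ≤ κ j},
        {x : ℚ | (∀ i, form (α i) x ≠ 0) ∧
          N1 α S x < (q - κ j) * Real.log (H x) + 0 ∧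
            |ξ - x| ≤ (H x : ℝ) ^ (-(σ j))}).Finite := by
      refine ((finite_H 1).union hA').union ?_
      refine Set.Finite.biUnion ((Set.finite_lt_nat J).subset fun j hj => hj.1) ?_
      intro j hj
      exact hA j hj.2
    refine hU.subset ?_
    intro x hx
    rw [hE] at hx
    obtain ⟨hx1, hx2, hx3⟩ := hx
    by_cases hH : H x ≤ 1
    · exact Or.inl (Or.inl hH)
    push Not at hH
    have hHR : (1 : ℝ) < H x := by exact_mod_cast hH
    have hHp : (0 : ℝ) < H x := by linarith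
    have hh : 0 < Real.log (H x) := Real.log_pos hHR
    obtain ⟨D, hD⟩ : ∃ D, D = Real.log (1 / |ξ - x|) := ⟨_, rfl⟩
    have hD' : D = -Real.log |ξ - x| := by rw [hD, one_div, Real.log_inv]
    have hiff : ∀ t : ℝ, |ξ - x| ≤ (H x : ℝ) ^ (-t) ↔ t * Real.log (H x) ≤ D := by
      intro t
      rw [← Real.log_le_log_iff (hne x) (by positivity), Real.log_rpow hHp, hD']
      constructor <;> intro h <;> linarith
    rw [hiff] at hx2
    rw [← hD] at hx3
    by_cases hbig : (2 + ε / 4) * Real.log (H x) ≤ D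
    · refine Or.inl (Or.inr ⟨hx1, ?_, (hiff _).2 hbig⟩)
      rw [sub_zero]
      exact N1_lt α S hx1
    push Not at hbig
    right
    obtain ⟨j, hj⟩ : ∃ j : ℕ, j = ⌊(D / Real.log (H x) - (τ0 + ε)) / (ε / 2)⌋₊ := ⟨_, rfl⟩
    have hr0 : 0 ≤ (D / Real.log (H x) - (τ0 + ε)) / (ε / 2) := by
      apply div_nonneg _ (by positivity)
      rw [sub_nonneg, le_div_iff₀ hh]
      exact hx2
    have hj1 : (j : ℝ) ≤ (D / Real.log (H x) - (τ0 + ε)) / (ε / 2) := by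
      rw [hj]; exact Nat.floor_le hr0
    have hj2 : (D / Real.log (H x) - (τ0 + ε)) / (ε / 2) < j + 1 := by
      rw [hj]; exact Nat.lt_floor_add_one _
    rw [le_div_iff₀ (by positivity)] at hj1
    rw [div_lt_iff₀ (by positivity)] at hj2
    have hs1 : σ j * Real.log (H x) ≤ D := by
      rw [← le_div_iff₀ hh, hσ]
      linarith
    have hs2 : D < (σ j + ε / 2) * Real.log (H x) := by
      rw [← div_lt_iff₀ hh, hσ]
      linarith
    have hs3 : σ j < 2 + ε / 4 := by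
      by_contra hcon
      push Not at hcon
      have : (2 + ε / 4) * Real.log (H x) ≤ σ j * Real.log (H x) :=
        mul_le_mul_of_nonneg_right hcon hh.le
      linarith
    have hκj : 0 ≤ κ j := by rw [hκ]; linarith
    have hjJ : j < J := by
      rw [hσ] at hs3
      have h5 : (j : ℝ) * (ε / 2) < J * (ε / 2) := by linarith
      have h6 : (j : ℝ) < J := lt_of_mul_lt_mul_right h5 (by positivity)
      exact_mod_cast h6
    refine Set.mem_biUnion (show j ∈ {j : ℕ | j < J ∧ 0 ≤ κ j} from ⟨hjJ, hκj⟩) ?_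
    refine ⟨hx1, ?_, (hiff _).2 hs1⟩
    rw [add_zero]
    calc N1 α S x < (q - 2 - ε) * Real.log (H x) + D := hx3
      _ < (q - 2 - ε) * Real.log (H x) + (σ j + ε / 2) * Real.log (H x) := by linarith
      _ = (q - κ j) * Real.log (H x) := by rw [hκ]; ring
  obtain ⟨C, hC⟩ := (hEfin.image fun x : ℚ => (q - 2 - ε) * Real.log (H x) +
    Real.log (1 / |ξ - x|) - N1 α S x).bddAbove
  refine ⟨max C 0, fun x hx1 hx2 => ?_⟩
  by_cases hx3 : N1 α S x < (q - 2 - ε) * Real.log (H x) + Real.log (1 / |ξ - x|)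
  · have hxE : x ∈ E := by rw [hE]; exact ⟨hx1, hx2, hx3⟩
    have h5 := hC (Set.mem_image_of_mem _ hxE)
    have h6 := le_max_left C 0
    linarith
  · push Not at hx3
    have h6 := le_max_right C 0
    linarith

end Pool.Agent.X123.ML
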