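import Pool.Agent.X123.ML.Viol
import Pool.Agent.W221.ExcUp
import Pool.Agent.TH876.TM.Pairs

/-!
# Comparison of the two normalisations over the rationals
-/

set_option autoImplicit false

namespace Pool.Agent.X123.ML

open NumberField IsDedekindDomain Finset
open Pool.Agent.H691R3 Pool.Agent.TH876.Loc Pool.Agent.TH876.TM

theorem fv_max (v : Pr ℚ) {a b : ℤ} (h : IsCoprime a b) :
    max (fv v (a : ℚ)) (fv v (b : ℚ)) = 1 := by
  refine le_antisymm (max_le (Pairs_int_le v a) (Pairs_int_le v b)) ?_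
  by_cases ha : pv v ∣ a.natAbs
  · refine le_max_of_le_right (Pairs_eq_one v b fun hb => ?_).ge
    have h1 := Nat.dvd_gcd ha hb
    rw [Int.isCoprime_iff_nat_coprime] at h
    rw [h] at h1
    exact (pv_prime v).one_lt.ne' (Nat.dvd_one.1 h1)
  · exact le_max_of_le_left (Pairs_eq_one v a ha).ge

/-- the local height -/
theorem lam_eq (v : Pr ℚ) {a : ℤ × ℤ} (ha : IsCoprime a.1 a.2) (x : ℚ) :
    lamA (fv v) (aff x) ((a.1 : ℚ), (a.2 : ℚ)) = -Real.log (fv v (form a x : ℚ)) := by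
  have hd : fv v (x.den : ℚ) ≠ 0 := by
    rw [Ne, map_eq_zero]
    exact_mod_cast x.den_ne_zero
  have hdpos : 0 < fv v (x.den : ℚ) := lt_of_le_of_ne ((fv v).nonneg _) hd.symm
  have hx : x = x.num / x.den := (Rat.num_div_den x).symm
  have h1 : max (fv v x) (fv v 1) = 1 / fv v (x.den : ℚ) := by
    have h2 : IsCoprime x.num (x.den : ℤ) := x.isCoprime_num_den
    have h3 := fv_max v h2
    rw [Int.cast_natCast] at h3
    rw [eq_div_iff hd, max_mul_of_nonneg _ _ hdpos.le, map_one, one_mul, ← map_mul]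
    have e : x * x.den = x.num := by exact_mod_cast Rat.mul_den_eq_num x
    rw [e, h3]
  have h4 : x * (a.2 : ℚ) - 1 * (a.1 : ℚ) = (form a x : ℚ) / x.den := by
    have hdq : (x.den : ℚ) ≠ 0 := by exact_mod_cast x.den_ne_zero
    rw [eq_div_iff hdq]
    unfold form
    push_cast
    have e : x * x.den = x.num := by exact_mod_cast Rat.mul_den_eq_num x
    linear_combination (a.2 : ℚ) * e
  have h5 : fv v (x * (a.2 : ℚ) - 1 * (a.1 : ℚ)) = fv v (form a x : ℚ) / fv v (x.den : ℚ) := by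
    rw [h4, map_div₀]
  unfold lamA aff
  simp only
  rw [h1, fv_max v ha, h5, mul_one]
  rw [show 1 / fv v (x.den : ℚ) / (fv v (form a x : ℚ) / fv v (x.den : ℚ)) =
    (fv v (form a x : ℚ))⁻¹ by
      field_simp]
  rw [Real.log_inv]

theorem min_le' (v : Pr ℚ) {a : ℤ × ℤ} (ha : IsCoprime a.1 a.2) (x : ℚ) :
    min (lamA (fv v) (aff x) ((a.1 : ℚ), (a.2 : ℚ))) (Real.log (Nv v)) ≤
      if pv v ∣ (form a x).natAbs then Real.log (pv v) else 0 := by
  split_ifs with h
  · refine (min_le_right _ _).trans (Real.log_le_log ?_ (Pairs_norm v))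
    linarith [two_le_Nv v]
  · refine (min_le_left _ _).trans ?_
    rw [lam_eq v ha, Pairs_eq_one v _ h]
    simp

theorem min_eq_zero (v : Pr ℚ) {a : ℤ × ℤ} (ha : IsCoprime a.1 a.2) (x : ℚ)
    (h : ¬ pv v ∣ (form a x).natAbs) :
    min (lamA (fv v) (aff x) ((a.1 : ℚ), (a.2 : ℚ))) (Real.log (Nv v)) = 0 := by
  rw [lam_eq v ha, Pairs_eq_one v _ h, Real.log_one, neg_zero]
  exact min_eq_left (log_Nv_pos v).le

theorem counting_le {q : ℕ} (α : Fin q → ℤ × ℤ) (hα : ∀ i, IsCoprime (α i).1 (α i).2)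
    (S : Finset ℕ) {x : ℚ} (hx : ∀ i, form (α i) x ≠ 0) :
    Pool.Agent.W221.Exc.counting (∅ : Set (Pr ℚ)) (fun i => (((α i).1 : ℚ), ((α i).2 : ℚ))) x ≤
      N1 α S x + q * ∑ p ∈ S, Real.log (p : ℝ) := by
  classical
  have h1 := Pool.Agent.W221.Exc.counting_mul (∅ : Set (Pr ℚ))
    (fun i => (((α i).1 : ℚ), ((α i).2 : ℚ))) x
  rw [Module.finrank_self, Nat.cast_one, one_mul] at h1
  rw [h1]
  unfold NTc
  set F : Finset ℕ := univ.biUnion fun i => (form (α i) x).natAbs.primeFactors with hF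
  have hinj : Set.InjOn (pv : Pr ℚ → ℕ) (pv ⁻¹' (F : Set ℕ)) := fun v _ w _ h => Pairs_inj h
  set s : Finset (Pr ℚ) := F.preimage pv hinj with hs
  have hsupp : ∀ v : Pr ℚ, v ∉ s → ∀ i, ¬ pv v ∣ (form (α i) x).natAbs := by
    intro v hv i hdiv
    apply hv
    rw [hs, Finset.mem_preimage, hF, Finset.mem_biUnion]
    exact ⟨i, mem_univ _, Nat.mem_primeFactors.2 ⟨pv_prime v, hdiv,
      Int.natAbs_ne_zero.2 (hx i)⟩⟩
  have h2 : (∑ᶠ (v : Pr ℚ) (_ : v ∉ (∅ : Set (Pr ℚ))), ∑ l : Fin q,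
      min (lamA (fv v) (aff x) (((α l).1 : ℚ), ((α l).2 : ℚ))) (Real.log (Nv v))) =
      ∑ v ∈ s, ∑ l : Fin q,
        min (lamA (fv v) (aff x) (((α l).1 : ℚ), ((α l).2 : ℚ))) (Real.log (Nv v)) := by
    simp only [Set.mem_empty_iff_false, not_false_eq_true, finsum_true]
    refine finsum_eq_sum_of_support_subset _ fun v hv => ?_
    rw [Function.mem_support] at hv
    by_contra hvs
    apply hv
    exact sum_eq_zero fun l _ => min_eq_zero v (hα l) x (hsupp v (by simpa using hvs) l)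
  rw [h2]
  have h3 : ∀ l : Fin q, ∑ v ∈ s,
      min (lamA (fv v) (aff x) (((α l).1 : ℚ), ((α l).2 : ℚ))) (Real.log (Nv v)) ≤
      ∑ p ∈ (form (α l) x).natAbs.primeFactors \ S, Real.log (p : ℝ) +
        ∑ p ∈ S, Real.log (p : ℝ) := by
    intro l
    calc ∑ v ∈ s, min (lamA (fv v) (aff x) (((α l).1 : ℚ), ((α l).2 : ℚ))) (Real.log (Nv v)) ≤
        ∑ v ∈ s, (if pv v ∣ (form (α l) x).natAbs then Real.log (pv v) else 0) :=
          sum_le_sum fun v _ => min_le' v (hα l) x
      _ = ∑ v ∈ s.filter (fun v => pv v ∣ (form (α l) x).natAbs), Real.log (pv v : ℝ) := by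
          rw [sum_filter]
      _ = ∑ p ∈ (s.filter (fun v => pv v ∣ (form (α l) x).natAbs)).image pv,
            Real.log (p : ℝ) := by
          rw [sum_image fun v _ w _ h => Pairs_inj h]
      _ ≤ ∑ p ∈ (form (α l) x).natAbs.primeFactors, Real.log (p : ℝ) := by
          apply sum_le_sum_of_subset_of_nonneg
          · intro p hp
            obtain ⟨v, hv, rfl⟩ := mem_image.1 hp
            exact Nat.mem_primeFactors.2 ⟨pv_prime v, (mem_filter.1 hv).2,
              Int.natAbs_ne_zero.2 (hx l)⟩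
          · intro p _ _
            exact Real.log_natCast_nonneg p
      _ ≤ ∑ p ∈ ((form (α l) x).natAbs.primeFactors \ S) ∪ S, Real.log (p : ℝ) := by
          apply sum_le_sum_of_subset_of_nonneg
          · intro p hp
            by_cases h : p ∈ S
            · exact mem_union_right _ h
            · exact mem_union_left _ (mem_sdiff.2 ⟨hp, h⟩)
          · intro p _ _
            exact Real.log_natCast_nonneg p
      _ = _ := sum_union sdiff_disjoint
  rw [sum_comm]
  refine (sum_le_sum fun l _ => h3 l).trans (le_of_eq ?_)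
  rw [sum_add_distrib, sum_const, card_univ, Fintype.card_fin, nsmul_eq_mul]
  rfl

theorem height_eq (x : ℚ) : Pool.Agent.W221.Exc.height x = Real.log (H x) := by
  have h1 := Pool.Agent.W221.Exc.height_mul x
  rw [Module.finrank_self, Nat.cast_one, one_mul] at h1
  rw [h1, Pool.Agent.W221.Exc.hr_aff_eq, Rat.mulHeight₁_eq_max]
  rfl

end Pool.Agent.X123.ML
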