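import Mathlib

/-!
# A Cantor scheme on the real line and its Hausdorff dimension
-/

set_option autoImplicit false

namespace Pool.Agent.X123.ML

open Filter Topology Set
open scoped NNReal ENNReal

/-- the remainders of the expansion of `y` in the bases `m 0, m 1, …` -/
noncomputable def rem (m : ℕ → ℕ) (y : ℝ) : ℕ → ℝ
  | 0 => y
  | n + 1 => Int.fract (m n * rem m y n)

/-- the digits -/
noncomputable def dig (m : ℕ → ℕ) (y : ℝ) (n : ℕ) : ℕ := ⌊m n * rem m y n⌋₊

theorem rem_nonneg (m : ℕ → ℕ) {y : ℝ} (hy : y ∈ Ico (0 : ℝ) 1) (n : ℕ) : 0 ≤ rem m y n := by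
  cases n with
  | zero => exact hy.1
  | succ n => exact Int.fract_nonneg _

theorem rem_lt (m : ℕ → ℕ) {y : ℝ} (hy : y ∈ Ico (0 : ℝ) 1) (n : ℕ) : rem m y n < 1 := by
  cases n with
  | zero => exact hy.2
  | succ n => exact Int.fract_lt_one _

theorem dig_lt {m : ℕ → ℕ} (hm : ∀ n, 1 ≤ m n) {y : ℝ} (hy : y ∈ Ico (0 : ℝ) 1) (n : ℕ) :
    dig m y n < m n := by
  have h0 : (0 : ℝ) < m n := by exact_mod_cast hm n
  rw [dig, Nat.floor_lt (mul_nonneg h0.le (rem_nonneg m hy n))]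
  have := rem_lt m hy n
  nlinarith

theorem rem_succ (m : ℕ → ℕ) {y : ℝ} (hy : y ∈ Ico (0 : ℝ) 1) (n : ℕ) :
    rem m y (n + 1) = m n * rem m y n - dig m y n := by
  have h1 : (0 : ℝ) ≤ m n * rem m y n := mul_nonneg (Nat.cast_nonneg _) (rem_nonneg m hy n)
  rw [rem, Int.fract, dig, natCast_floor_eq_intCast_floor h1]

/-- if the first `n` digits agree, then the difference of the remainders is known -/
theorem rem_sub {m : ℕ → ℕ} {y z : ℝ} (hy : y ∈ Ico (0 : ℝ) 1)
    (hz : z ∈ Ico (0 : ℝ) 1) (n : ℕ) (h : ∀ i < n, dig m y i = dig m z i) :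
    rem m y n - rem m z n = (∏ i ∈ Finset.range n, (m i : ℝ)) * (y - z) := by
  induction n with
  | zero => simp [rem]
  | succ n ih =>
    rw [rem_succ m hy, rem_succ m hz, h n (Nat.lt_succ_self n), Finset.prod_range_succ]
    have := ih fun i hi => h i (hi.trans (Nat.lt_succ_self n))
    linear_combination (m n : ℝ) * this

/-- **A Cantor scheme.** -/
theorem cantor (m : ℕ → ℕ) (hm : ∀ n, 1 ≤ m n) (e l : ℕ → ℝ) (he : ∀ n, 0 < e n)
    (hle : ∀ n, l (n + 1) ≤ e n / 2) (hl0 : ∀ n, 0 < l n)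
    (I : ℕ → Set ℝ) (hI0 : (I 0).Nonempty)
    (hI : ∀ n, ∀ a ∈ I n, ∃ f : ℕ → ℝ,
      (∀ i < m n, f i ∈ I (n + 1) ∧ a ≤ f i ∧ f i + l (n + 1) ≤ a + l n) ∧
      ∀ i j, i < j → j < m n → e n * ((j : ℝ) - i) ≤ f j - f i)
    (s C : ℝ) (hs0 : 0 < s) (hs1 : s ≤ 1)
    (hC : ∀ n, (∏ i ∈ Finset.range n, (m i : ℝ))⁻¹ ≤ C * (m n * e n) ^ s)
    (hP : ∀ y : ℝ, 0 < y → ∃ n, (∏ i ∈ Finset.range n, (m i : ℝ))⁻¹ < y) :
    ENNReal.ofReal s ≤ dimH {ξ : ℝ | ∀ n, ∃ c ∈ I n, c ≤ ξ ∧ ξ ≤ c + l n} := by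
  classical
  obtain ⟨a0, ha0⟩ := hI0
  choose! F hF1 hF2 using hI
  -- left endpoints
  let A : ℝ → ℕ → ℝ := fun y n => Nat.rec a0 (fun n a => F n a (dig m y n)) n
  have A0 : ∀ y, A y 0 = a0 := fun y => rfl
  have AS : ∀ y n, A y (n + 1) = F n (A y n) (dig m y n) := fun y n => rfl
  have Amem : ∀ y ∈ Ico (0 : ℝ) 1, ∀ n, A y n ∈ I n := by
    intro y hy n
    induction n with
    | zero => exact ha0
    | succ n ih =>
      rw [AS]
      exact (hF1 n _ ih _ (dig_lt hm hy n)).1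
  have Amono : ∀ y ∈ Ico (0 : ℝ) 1, Monotone (A y) := by
    intro y hy
    refine monotone_nat_of_le_succ fun n => ?_
    rw [AS]
    exact (hF1 n _ (Amem y hy n) _ (dig_lt hm hy n)).2.1
  have Aanti : ∀ y ∈ Ico (0 : ℝ) 1, Antitone (fun n => A y n + l n) := by
    intro y hy
    refine antitone_nat_of_succ_le fun n => ?_
    rw [AS]
    exact (hF1 n _ (Amem y hy n) _ (dig_lt hm hy n)).2.2
  have hcross : ∀ y ∈ Ico (0 : ℝ) 1, ∀ n k, A y k ≤ A y n + l n := by
    intro y hy n k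
    have h1 := Amono y hy (le_max_left k n)
    have h2 := Aanti y hy (le_max_right k n)
    simp only at h2
    have h3 := hl0 (max k n)
    linarith
  let φ : ℝ → ℝ := fun y => ⨆ n, A y n
  have hbdd : ∀ y ∈ Ico (0 : ℝ) 1, BddAbove (range (A y)) := by
    intro y hy
    exact ⟨A y 0 + l 0, by rintro _ ⟨k, rfl⟩; exact hcross y hy 0 k⟩
  have φ1 : ∀ y ∈ Ico (0 : ℝ) 1, ∀ n, A y n ≤ φ y := fun y hy n => le_ciSup (hbdd y hy) n
  have φ2 : ∀ y ∈ Ico (0 : ℝ) 1, ∀ n, φ y ≤ A y n + l n := fun y hy n =>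
    ciSup_le fun k => hcross y hy n k
  -- separation
  have hC0 : 0 ≤ C := by
    have h1 := hC 0
    have h2 : (0 : ℝ) < (m 0 * e 0) ^ s := by
      apply Real.rpow_pos_of_pos
      have : (0 : ℝ) < m 0 := by exact_mod_cast hm 0
      have := he 0
      positivity
    simp only [Finset.range_zero, Finset.prod_empty, inv_one] at h1
    by_contra hneg
    push Not at hneg
    nlinarith
  have key : ∀ y ∈ Ico (0 : ℝ) 1, ∀ z ∈ Ico (0 : ℝ) 1, y < z →
      |y - z| ≤ (2 * C * 2 ^ s) * |φ y - φ z| ^ s := by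
    intro y hy z hz hyz
    -- the first index where the digits differ
    have hex : ∃ n, dig m y n ≠ dig m z n := by
      by_contra hcon
      push Not at hcon
      obtain ⟨n, hn⟩ := hP (z - y) (by linarith)
      have h1 := rem_sub hy hz n fun i _ => hcon i
      have h2 : (0 : ℝ) < ∏ i ∈ Finset.range n, (m i : ℝ) :=
        Finset.prod_pos fun i _ => by exact_mod_cast hm i
      have h3 := rem_nonneg m hy n
      have h4 := rem_lt m hz n
      rw [inv_lt_iff_one_lt_mul₀ h2] at hn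
      nlinarith
    have hn1 := Nat.find_spec hex
    have hn2 : ∀ i < Nat.find hex, dig m y i = dig m z i := fun i hi => by
      have := Nat.find_min hex hi
      push Not at this
      exact this
    set n := Nat.find hex with hn
    clear_value n
    have hAA : ∀ k, k ≤ n → A y k = A z k := by
      intro k
      induction k with
      | zero => intro _; rfl
      | succ k ih =>
        intro hk
        rw [AS, AS, ih (by omega), hn2 k (by omega)]
    have hP0 : (0 : ℝ) < ∏ i ∈ Finset.range n, (m i : ℝ) :=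
      Finset.prod_pos fun i _ => by exact_mod_cast hm i
    have hsub := rem_sub hy hz n hn2
    have hm0 : (0 : ℝ) < m n := by exact_mod_cast hm n
    have hy1 := rem_nonneg m hy (n + 1)
    have hy2 := rem_lt m hy (n + 1)
    have hz1 := rem_nonneg m hz (n + 1)
    have hz2 := rem_lt m hz (n + 1)
    rw [rem_succ m hy] at hy1 hy2
    rw [rem_succ m hz] at hz1 hz2
    set i := dig m y n with hi
    set j := dig m z n with hj
    have hremlt : rem m y n < rem m z n := by nlinarith [mul_pos hP0 (by linarith : 0 < z - y)]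
    have hij : i < j := by
      rcases lt_trichotomy i j with h | h | h
      · exact h
      · exact absurd h hn1
      · exfalso
        have h5 : (j : ℝ) + 1 ≤ i := by exact_mod_cast h
        nlinarith
    have hjm : j < m n := dig_lt hm hz n
    have him : i < m n := hij.trans hjm
    have hd1 : (1 : ℝ) ≤ (j : ℝ) - i := by
      have : (i : ℝ) + 1 ≤ j := by exact_mod_cast hij
      linarith
    have hdm : (j : ℝ) - i ≤ m n := by
      have h1 : (j : ℝ) ≤ m n := by exact_mod_cast hjm.le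
      have h2 : (0 : ℝ) ≤ i := Nat.cast_nonneg _
      linarith
    have hφ : e n * ((j : ℝ) - i) / 2 ≤ |φ y - φ z| := by
      have h1 := φ2 y hy (n + 1)
      have h2 := φ1 z hz (n + 1)
      rw [AS, ← hi] at h1
      rw [AS, ← hj, ← hAA n le_rfl] at h2
      have h3 := hF2 n _ (Amem y hy n) i j hij hjm
      have h4 := hle n
      have h5 := he n
      rw [abs_sub_comm]
      refine le_trans ?_ (le_abs_self _)
      nlinarith
    set d : ℝ := (j : ℝ) - i with hd
    have hd0 : 0 < d := by linarith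
    have he0 := he n
    have h1 : |y - z| ≤ 2 * d / m n * (∏ i ∈ Finset.range n, (m i : ℝ))⁻¹ := by
      rw [abs_sub_comm, abs_of_pos (by linarith), ← div_eq_mul_inv, le_div_iff₀ hP0,
        le_div_iff₀ hm0]
      nlinarith
    refine h1.trans ?_
    have h2 : 2 * d / m n * (∏ i ∈ Finset.range n, (m i : ℝ))⁻¹ ≤
        2 * d / m n * (C * (m n * e n) ^ s) :=
      mul_le_mul_of_nonneg_left (hC n) (by positivity)
    refine h2.trans ?_
    have h3 : d / m n ≤ (d / m n) ^ s := by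
      conv_lhs => rw [← Real.rpow_one (d / m n)]
      refine Real.rpow_le_rpow_of_exponent_ge (by positivity) ?_ hs1
      rw [div_le_one hm0]
      exact hdm
    have h4 : (d / m n) ^ s * (m n * e n) ^ s = 2 ^ s * (e n * d / 2) ^ s := by
      rw [← Real.mul_rpow (by positivity) (by positivity),
        ← Real.mul_rpow (by positivity) (by positivity)]
      congr 1
      field_simp
    have h5 : (e n * d / 2) ^ s ≤ |φ y - φ z| ^ s :=
      Real.rpow_le_rpow (by positivity) hφ hs0.le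
    calc 2 * d / m n * (C * (m n * e n) ^ s) = 2 * C * ((d / m n) * (m n * e n) ^ s) := by ring
      _ ≤ 2 * C * ((d / m n) ^ s * (m n * e n) ^ s) := by gcongr
      _ = 2 * C * 2 ^ s * (e n * d / 2) ^ s := by rw [h4]; ring
      _ ≤ _ := by gcongr
  have hC2 : ∀ y ∈ Ico (0 : ℝ) 1, ∀ z ∈ Ico (0 : ℝ) 1,
      |y - z| ≤ (2 * C * 2 ^ s) * |φ y - φ z| ^ s := by
    intro y hy z hz
    rcases lt_trichotomy y z with h | h | h
    · exact key y hy z hz h
    · rw [h]; simp only [sub_self, abs_zero]; positivity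
    · rw [abs_sub_comm, abs_sub_comm (φ y)]
      exact key z hz y hy h
  set D : ℝ := 2 * C * 2 ^ s with hD
  have hD0 : 0 ≤ D := by positivity
  set S : Set ℝ := φ '' Ico (0 : ℝ) 1 with hS
  have hS1 : S ⊆ {ξ : ℝ | ∀ n, ∃ c ∈ I n, c ≤ ξ ∧ ξ ≤ c + l n} := by
    rintro _ ⟨y, hy, rfl⟩ n
    exact ⟨A y n, Amem y hy n, φ1 y hy n, φ2 y hy n⟩
  have hinj : InjOn φ (Ico (0 : ℝ) 1) := by
    intro x hx x' hx' h
    have := hC2 x hx x' hx'
    rw [h, sub_self, abs_zero, Real.zero_rpow hs0.ne', mul_zero] at this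
    exact sub_eq_zero.1 (abs_eq_zero.1 (le_antisymm this (abs_nonneg _)))
  let g : ℝ → ℝ := Function.invFunOn φ (Ico (0 : ℝ) 1)
  have hg1 : ∀ a ∈ S, g a ∈ Ico (0 : ℝ) 1 ∧ φ (g a) = a := fun a ha =>
    ⟨Function.invFunOn_mem ha, Function.invFunOn_eq ha⟩
  have hg2 : Ico (0 : ℝ) 1 ⊆ g '' S := by
    intro x hx
    refine ⟨φ x, ⟨x, hx, rfl⟩, ?_⟩
    obtain ⟨h1, h2⟩ := hg1 (φ x) ⟨x, hx, rfl⟩
    exact hinj h1 hx h2
  set r : ℝ≥0 := s.toNNReal with hr
  have hr0 : 0 < r := Real.toNNReal_pos.2 hs0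
  have hrs : (r : ℝ) = s := Real.coe_toNNReal _ hs0.le
  have hH : HolderOnWith D.toNNReal r g S := by
    intro a ha b hb
    obtain ⟨h1, h2⟩ := hg1 a ha
    obtain ⟨h3, h4⟩ := hg1 b hb
    have h5 := hC2 _ h1 _ h3
    rw [h2, h4] at h5
    rw [edist_dist, edist_dist, Real.dist_eq, Real.dist_eq]
    have e : ((D.toNNReal : ℝ≥0) : ℝ≥0∞) = ENNReal.ofReal D := rfl
    rw [e, hrs, ENNReal.ofReal_rpow_of_nonneg (abs_nonneg _) (by positivity),
      ← ENNReal.ofReal_mul hD0]
    exact ENNReal.ofReal_le_ofReal h5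
  have h1 := hH.dimH_image_le hr0
  have h2 : dimH (Ico (0 : ℝ) 1) = 1 := by
    have h3 : (interior (Ico (0 : ℝ) 1)).Nonempty := by
      rw [interior_Ico]
      exact ⟨1 / 2, by norm_num, by norm_num⟩
    rw [Real.dimH_of_nonempty_interior h3]
    simp
  have h3 : (1 : ℝ≥0∞) ≤ dimH S / r := by
    rw [← h2]
    exact (dimH_mono hg2).trans h1
  have h4 : (r : ℝ≥0∞) ≤ dimH S := by
    rw [ENNReal.le_div_iff_mul_le (Or.inl (by exact_mod_cast hr0.ne')) (Or.inl ENNReal.coe_ne_top),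
      one_mul] at h3
    exact h3
  exact (show ENNReal.ofReal s = (r : ℝ≥0∞) from rfl) ▸ h4.trans (dimH_mono hS1)

end Pool.Agent.X123.ML
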