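import Pool.Agent.X123.ML.Viol
import Pool.Agent.Y314.FD.DimUp

/-!
# The upper bound for the dimension of the numbers which are well approximable by a thin set
-/

set_option autoImplicit false

namespace Pool.Agent.X123.ML

open Filter Topology Finset
open scoped ENNReal NNReal

/-- the reals with infinitely many approximations `|ξ - x| ≤ H(x) ^ (-τ)`, `x ∈ V` -/
def Appr (V : Set ℚ) (τ : ℝ) : Set ℝ := {ξ | {x : ℚ | x ∈ V ∧ |ξ - x| ≤ (H x : ℝ) ^ (-τ)}.Infinite}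

theorem appr_dim (V : Set ℚ) {e τ : ℝ} (he : 0 ≤ e) (hτ : 0 < τ)
    (hV : ∀ δ : ℝ, 0 < δ → ∃ C : ℝ, ∀ B : ℕ, 1 ≤ B → {x : ℚ | x ∈ V ∧ H x ≤ B}.Finite ∧
      (({x : ℚ | x ∈ V ∧ H x ≤ B}.ncard : ℕ) : ℝ) ≤ C * (B : ℝ) ^ (e + δ)) :
    dimH (Appr V τ) ≤ ENNReal.ofReal (e / τ) := by
  classical
  by_contra hcon
  push Not at hcon
  obtain ⟨r, hr1, hr2⟩ := ENNReal.lt_iff_exists_nnreal_btwn.1 hcon
  have hr3 : e / τ < r := by
    have h1 : ENNReal.ofReal (e / τ) < ENNReal.ofReal (r : ℝ) := by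
      rw [ENNReal.ofReal_coe_nnreal]; exact hr1
    exact (ENNReal.ofReal_lt_ofReal_iff_of_nonneg (by positivity)).1 h1
  apply absurd hr2
  rw [not_lt]
  obtain ⟨s, hs⟩ : ∃ s : ℝ, s = (r : ℝ) := ⟨_, rfl⟩
  rw [← hs] at hr3
  have hsτ : e < s * τ := by rwa [div_lt_iff₀ hτ] at hr3
  have hs0 : 0 < s := lt_of_le_of_lt (by positivity) hr3
  obtain ⟨δ, hδ⟩ : ∃ δ : ℝ, δ = (s * τ - e) / 2 := ⟨_, rfl⟩
  have hδ0 : 0 < δ := by linarith
  obtain ⟨C, hC⟩ := hV δ hδ0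
  set b : ℝ := (2 : ℝ) ^ (-τ) with hb
  have hb0 : 0 < b := by positivity
  have hb1 : b < 1 := Real.rpow_lt_one_of_one_lt_of_neg (by norm_num) (by linarith)
  have hbv : ∀ v : ℕ, b ^ v = ((2 : ℝ) ^ v) ^ (-τ) := by
    intro v
    rw [hb, ← Real.rpow_natCast, ← Real.rpow_mul (by norm_num), ← Real.rpow_natCast,
      ← Real.rpow_mul (by norm_num)]
    congr 1
    ring
  have hB : ∀ v : ℕ, 1 ≤ 2 ^ (v + 1) := fun v => Nat.one_le_two_pow
  let F : ℕ → Finset ℝ := fun v => ((hC _ (hB v)).1.toFinset).image ((↑) : ℚ → ℝ)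
  -- the threshold
  have hev : ∀ᶠ v : ℕ in atTop, C * 2 ^ (e + δ) ≤ ((2 : ℝ) ^ v) ^ δ :=
    ((tendsto_rpow_atTop hδ0).comp
      (tendsto_pow_atTop_atTop_of_one_lt (by norm_num : (1 : ℝ) < 2))).eventually_ge_atTop _
  obtain ⟨v0, hv0⟩ := eventually_atTop.1 hev
  have hmain := Pool.Agent.Y314.FD.dimH_le_of_balls (Appr V τ) F hb0 hb1 hs0.le (v0 := v0)
    (fun v hv => ?_) (fun ξ hξ => ?_)
  · rwa [hs, ENNReal.ofReal_coe_nnreal] at hmain
  · have h1 : ((F v).card : ℝ) ≤ C * ((2 : ℝ) ^ (v + 1)) ^ (e + δ) := by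
      have h0 := (hC _ (hB v)).2
      push_cast at h0
      refine le_trans ?_ h0
      have h9 : (F v).card ≤ ((hC _ (hB v)).1.toFinset).card := Finset.card_image_le
      have h10 := Set.ncard_eq_toFinset_card _ (hC _ (hB v)).1
      rw [← h10] at h9
      exact_mod_cast h9
    refine h1.trans ?_
    have h2 : ((2 : ℝ) ^ (v + 1)) ^ (e + δ) = ((2 : ℝ) ^ v) ^ (e + δ) * 2 ^ (e + δ) := by
      rw [pow_succ, Real.mul_rpow (by positivity) (by norm_num)]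
    have h3 : b ^ (-(s * v)) = ((2 : ℝ) ^ v) ^ (e + δ) * ((2 : ℝ) ^ v) ^ δ := by
      rw [← Real.rpow_add (by positivity), hb, ← Real.rpow_mul (by norm_num),
        ← Real.rpow_natCast, ← Real.rpow_mul (by norm_num)]
      congr 1
      rw [hδ]
      ring
    rw [h2, h3]
    calc C * (((2 : ℝ) ^ v) ^ (e + δ) * 2 ^ (e + δ)) =
        ((2 : ℝ) ^ v) ^ (e + δ) * (C * 2 ^ (e + δ)) := by ring
      _ ≤ _ := mul_le_mul_of_nonneg_left (hv0 v hv) (by positivity)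
  · rw [frequently_atTop]
    intro v1
    have hfin := (hC _ (hB v1)).1
    have hinf : {x : ℚ | x ∈ V ∧ |ξ - x| ≤ (H x : ℝ) ^ (-τ)}.Infinite := hξ
    obtain ⟨x, ⟨hx1, hx3⟩, hx4⟩ := (hinf.sdiff hfin).nonempty
    have hHx : 2 ^ (v1 + 1) < H x := by
      by_contra hcon
      push Not at hcon
      exact hx4 ⟨hx1, hcon⟩
    have hH0 : H x ≠ 0 := by have := H_pos x; omega
    set v : ℕ := Nat.log 2 (H x) with hv
    have hv1 : 2 ^ v ≤ H x := Nat.pow_log_le_self 2 hH0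
    have hv2 : H x < 2 ^ (v + 1) := Nat.lt_pow_succ_log_self (by norm_num) _
    have hv3 : v1 ≤ v := by
      have := (Nat.pow_lt_pow_iff_right (by norm_num : 1 < 2)).1 (hHx.trans hv2)
      omega
    refine ⟨v, hv3, (x : ℝ), ?_, ?_⟩
    · simp only [F, Finset.mem_image, Set.Finite.mem_toFinset]
      exact ⟨x, ⟨hx1, hv2.le⟩, rfl⟩
    · rw [Real.dist_eq, hbv]
      refine hx3.trans ?_
      apply Real.rpow_le_rpow_of_nonpos (by positivity) _ (by linarith)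
      exact_mod_cast hv1

end Pool.Agent.X123.ML
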