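import Pool.Agent.X123.ML.Pts

/-!
# The numerical conditions at one level of the Cantor scheme
-/

set_option autoImplicit false

namespace Pool.Agent.X123.ML

open Filter Topology Finset

theorem level {β η δ : ℝ} (hβ0 : 0 < β) (hβ1 : β < 1) (hη0 : 0 < η) (hη : η ≤ 1 / 16)
    (hδ : δ ≤ 1 / 8) :
    ∀ᶠ N : ℕ in atTop, ∃ k : ℕ, k ≤ N ∧ β * N ≤ k ∧ 1 ≤ k ∧
      ((2 : ℝ) ^ N) ^ (β - 2) ≤ (2 : ℝ) ^ k / ((2 : ℝ) ^ N) ^ 2 ∧
      ∀ l : ℝ, ((2 : ℝ) ^ N) ^ (-δ) ≤ l →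
        ∃ (𝒰 : Finset ℕ) (V : ℝ) (M : ℕ), (∀ u ∈ 𝒰, u.Prime) ∧ (∀ u ∈ 𝒰, V ≤ (u : ℝ)) ∧
          (∀ u ∈ 𝒰, u ≤ 2 ^ (N - k)) ∧ 2 ≤ 𝒰.card * M ∧
          16 * ((2 : ℕ) : ℝ) * (M + 3) ≤ 2 ^ k * V * (l / 2) ∧
          ((2 : ℝ) ^ N) ^ (2 - β - 3 * η) * l ≤ ((𝒰.card * M : ℕ) : ℝ) ∧
          ((2 : ℝ) ^ N) ^ (-(3 * η)) * l ≤ ((𝒰.card * M : ℕ) : ℝ) *
            ((2 : ℝ) ^ k / ((2 : ℝ) ^ N) ^ 2) := by
  classical
  obtain ⟨U0, hU0⟩ := primes_many (η := η) hη0 (by linarith)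
  have hQ : Tendsto (fun N : ℕ => (2 : ℝ) ^ N) atTop atTop :=
    tendsto_pow_atTop_atTop_of_one_lt (by norm_num)
  have hpow : ∀ t : ℝ, 0 < t → ∀ B : ℝ, ∀ᶠ N : ℕ in atTop, B ≤ ((2 : ℝ) ^ N) ^ t := fun t ht B =>
    ((tendsto_rpow_atTop ht).comp hQ).eventually_ge_atTop B
  filter_upwards [hpow (1 - β) (by linarith) (2 * (U0 + 2)), hpow (1 - η - 1 / 8) (by linarith) 384,
    hpow η hη0 512, eventually_ge_atTop 1, hpow (1 - β) (by linarith) 2] with N h1 h2 h3 h4 h4'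
  have hNR : (1 : ℝ) ≤ N := by exact_mod_cast h4
  set Q : ℝ := (2 : ℝ) ^ N with hQdef
  have hQ1 : 1 ≤ Q := one_le_pow₀ (by norm_num)
  have hQ0 : 0 < Q := by linarith
  have hQr : ∀ t : ℝ, Q ^ t = (2 : ℝ) ^ (N * t) := by
    intro t
    rw [hQdef, ← Real.rpow_natCast, ← Real.rpow_mul (by norm_num)]
  set k : ℕ := ⌈β * N⌉₊ with hk
  have hk1 : β * N ≤ k := Nat.le_ceil _
  have hk2 : (k : ℝ) < β * N + 1 := Nat.ceil_lt_add_one (by positivity)
  have hkN : k ≤ N := by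
    rw [hk, Nat.ceil_le]
    nlinarith
  have hk0 : 1 ≤ k := by
    rw [hk, Nat.one_le_ceil_iff]
    positivity
  set P : ℝ := (2 : ℝ) ^ k with hP
  have hP0 : 0 < P := by positivity
  have hP1 : Q ^ β ≤ P := by
    rw [hQr, hP, ← Real.rpow_natCast]
    apply Real.rpow_le_rpow_of_exponent_le (by norm_num)
    linarith
  have hP2 : P ≤ 2 * Q ^ β := by
    have e1 : 2 * Q ^ β = (2 : ℝ) ^ (N * β + 1) := by
      rw [hQr, Real.rpow_add (by norm_num), Real.rpow_one]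
      ring
    rw [e1, hP, ← Real.rpow_natCast]
    apply Real.rpow_le_rpow_of_exponent_le (by norm_num)
    linarith
  set U : ℝ := ((2 ^ (N - k) : ℕ) : ℝ) with hU
  have hPU : P * U = Q := by
    rw [hP, hU, hQdef]
    push_cast
    rw [← pow_add]
    congr 1
    omega
  have hU1 : 1 ≤ U := by
    rw [hU]
    exact_mod_cast Nat.one_le_two_pow
  have hU2 : 0 < U := by linarith
  have hUQ : U ≤ Q := by
    rw [← hPU]
    have : 1 ≤ P := one_le_pow₀ (by norm_num)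
    nlinarith
  have hUlow : Q ^ (1 - β) / 2 ≤ U := by
    have e1 : Q ^ (1 - β) * Q ^ β = Q := by rw [← Real.rpow_add hQ0]; simp
    have e2 : Q ^ (1 - β) * P ≤ 2 * (P * U) := by
      rw [hPU]
      calc Q ^ (1 - β) * P ≤ Q ^ (1 - β) * (2 * Q ^ β) := by gcongr
        _ = 2 * (Q ^ (1 - β) * Q ^ β) := by ring
        _ = _ := by rw [e1]
    have e3 : P * (Q ^ (1 - β) / 2) ≤ P * U := by linarith
    exact le_of_mul_le_mul_left e3 hP0
  have hUU0 : U0 ≤ 2 ^ (N - k) := by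
    have h9 : (U0 : ℝ) ≤ U := by linarith
    rw [hU] at h9
    exact_mod_cast h9
  have hpr := hU0 _ hUU0
  rw [← hU] at hpr
  set V : ℝ := U ^ (1 - η) with hV
  set 𝒰 : Finset ℕ := (Finset.Icc 1 (2 ^ (N - k))).filter fun u : ℕ => u.Prime ∧ V ≤ (u : ℝ) with h𝒰
  have hV1 : 1 ≤ V := Real.one_le_rpow hU1 (by linarith)
  have hV0 : 0 < V := by linarith
  have hVU : V * U ^ η = U := by
    rw [hV, ← Real.rpow_add hU2]
    simp
  have hUη : U ^ η ≤ Q ^ η := Real.rpow_le_rpow hU2.le hUQ hη0.le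
  have hQη : Q ^ (1 - η) * Q ^ η = Q := by rw [← Real.rpow_add hQ0]; simp
  have hPV : Q ^ (1 - η) ≤ P * V := by
    have e1 : Q ^ (1 - η) * Q ^ η ≤ P * V * Q ^ η := by
      rw [hQη]
      calc Q = P * (V * U ^ η) := by rw [hVU, hPU]
        _ ≤ P * (V * Q ^ η) := by gcongr
        _ = _ := by ring
    exact le_of_mul_le_mul_right e1 (by positivity)
  refine ⟨k, hkN, hk1, hk0, ?_, ?_⟩
  · rw [le_div_iff₀ (by positivity)]
    calc Q ^ (β - 2) * Q ^ 2 = Q ^ β := by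
          rw [← Real.rpow_natCast, ← Real.rpow_add hQ0]
          congr 1
          push_cast
          ring
      _ ≤ P := hP1
  intro l hl
  have hl0 : 0 < l := lt_of_lt_of_le (by positivity) hl
  have hPVl : 384 ≤ P * V * l := by
    refine h2.trans ?_
    calc Q ^ (1 - η - 1 / 8) ≤ Q ^ (1 - η + -δ) :=
          Real.rpow_le_rpow_of_exponent_le hQ1 (by linarith)
      _ = Q ^ (1 - η) * Q ^ (-δ) := Real.rpow_add hQ0 _ _
      _ ≤ P * V * l := by gcongr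
  set M : ℕ := ⌊P * V * l / 128⌋₊ with hM
  have hM1 : (M : ℝ) ≤ P * V * l / 128 := Nat.floor_le (by positivity)
  have hM2 : P * V * l / 128 < M + 1 := Nat.lt_floor_add_one _
  have hM3 : P * V * l / 256 ≤ M := by linarith
  have hM4 : 3 ≤ M := Nat.le_floor (by push_cast; linarith)
  have hcard1 : 1 ≤ 𝒰.card := by
    have : (1 : ℝ) ≤ 𝒰.card := hV1.trans hpr
    exact_mod_cast this
  have hprod : V * (P * V * l / 256) ≤ ((𝒰.card * M : ℕ) : ℝ) := by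
    push_cast
    gcongr
  refine ⟨𝒰, V, M, fun u hu => (Finset.mem_filter.1 hu).2.1, fun u hu => (Finset.mem_filter.1 hu).2.2,
    fun u hu => (Finset.mem_Icc.1 (Finset.mem_filter.1 hu).1).2, by nlinarith, ?_, ?_, ?_⟩
  · push_cast
    linarith
  · refine le_trans ?_ hprod
    have e1 : Q ^ (2 - β - 2 * η) / 2 ≤ P * V ^ 2 := by
      have e2 : Q ^ (2 - β) / 2 ≤ P * U ^ 2 := by
        calc Q ^ (2 - β) / 2 = Q * (Q ^ (1 - β) / 2) := by
              rw [show (2 : ℝ) - β = 1 + (1 - β) by ring, Real.rpow_add hQ0, Real.rpow_one]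
              ring
          _ ≤ Q * U := by gcongr
          _ = (P * U) * U := by rw [hPU]
          _ = _ := by ring
      have e3 : P * U ^ 2 = P * V ^ 2 * (U ^ η) ^ 2 := by
        conv_lhs => rw [← hVU]
        ring
      have e4 : Q ^ (2 - β - 2 * η) / 2 * (Q ^ η) ^ 2 = Q ^ (2 - β) / 2 := by
        rw [div_mul_eq_mul_div, ← Real.rpow_natCast, ← Real.rpow_mul hQ0.le, ← Real.rpow_add hQ0]
        congr 2
        push_cast
        ring
      have e5 : Q ^ (2 - β - 2 * η) / 2 * (Q ^ η) ^ 2 ≤ P * V ^ 2 * (Q ^ η) ^ 2 := by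
        rw [e4]
        refine e2.trans ?_
        rw [e3]
        gcongr
      exact le_of_mul_le_mul_right e5 (by positivity)
    have e6 : Q ^ (2 - β - 3 * η) * 512 ≤ Q ^ (2 - β - 2 * η) := by
      calc Q ^ (2 - β - 3 * η) * 512 ≤ Q ^ (2 - β - 3 * η) * Q ^ η := by gcongr
        _ = _ := by rw [← Real.rpow_add hQ0]; congr 1; ring
    calc Q ^ (2 - β - 3 * η) * l ≤ (Q ^ (2 - β - 2 * η) / 512) * l := by
          apply mul_le_mul_of_nonneg_right _ hl0.le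
          linarith
      _ = (Q ^ (2 - β - 2 * η) / 2) * l / 256 := by ring
      _ ≤ (P * V ^ 2) * l / 256 := by gcongr
      _ = _ := by ring
  · have e0 : Q ^ (-(3 * η)) * 512 ≤ Q ^ (-(2 * η)) := by
      calc Q ^ (-(3 * η)) * 512 ≤ Q ^ (-(3 * η)) * Q ^ η := by gcongr
        _ = _ := by rw [← Real.rpow_add hQ0]; congr 1; ring
    have e1 : Q ^ (-(2 * η)) * Q ^ 2 = (Q ^ (1 - η)) ^ 2 := by
      rw [← Real.rpow_natCast, ← Real.rpow_natCast, ← Real.rpow_mul hQ0.le, ← Real.rpow_add hQ0]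
      congr 1
      push_cast
      ring
    have e2 : Q ^ (-(2 * η)) ≤ (P * V) ^ 2 / Q ^ 2 := by
      rw [le_div_iff₀ (by positivity), e1]
      gcongr
    calc Q ^ (-(3 * η)) * l ≤ Q ^ (-(2 * η)) / 256 * l := by
          apply mul_le_mul_of_nonneg_right _ hl0.le
          have : 0 < Q ^ (-(3 * η)) := by positivity
          linarith
      _ ≤ ((P * V) ^ 2 / Q ^ 2) / 256 * l := by gcongr
      _ = V * (P * V * l / 256) * (P / Q ^ 2) := by ring
      _ ≤ _ := by gcongr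

end Pool.Agent.X123.ML
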