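import Pool.Agent.X123.ML.Pts

/-!
# The numerical conditions at one level of the Cantor scheme (two moduli)
-/

set_option autoImplicit false

namespace Pool.Agent.X123.ML

open Filter Topology Finset

theorem level2 {ω η δ : ℝ} (hω1 : ω < 1) (hη0 : 0 < η) (hη : η ≤ 1 / 16)
    (hδ0 : 0 ≤ δ) (hδ : η + δ < ω) :
    ∀ᶠ N : ℕ in atTop, ∃ k j : ℕ, k ≤ N ∧ (1 - ω) * N ≤ k ∧ 1 ≤ k ∧ 1 ≤ j ∧
      (3 : ℝ) ^ j ≤ 2 ^ k ∧ (2 : ℝ) ^ k ≤ 3 * 3 ^ j ∧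
      ((2 : ℝ) ^ N) ^ (-(2 * ω)) / 3 ≤
        ((2 : ℝ) ^ k / 3 ^ j) / ((2 : ℝ) ^ k / 3 ^ j * 2 ^ (N - k)) ^ 2 ∧
      ∀ l : ℝ, ((2 : ℝ) ^ N) ^ (-δ) ≤ l →
        ∃ (𝒰 : Finset ℕ) (V : ℝ) (M : ℕ), (∀ u ∈ 𝒰, u.Prime) ∧ (∀ u ∈ 𝒰, V ≤ (u : ℝ)) ∧
          3 < V ∧ (∀ u ∈ 𝒰, u ≤ 2 ^ (N - k)) ∧ 2 ≤ 𝒰.card * M ∧
          16 * ((2 : ℕ) : ℝ) * (M + 3) ≤ (2 : ℝ) ^ k / 3 ^ j * V * (l / 2) ∧
          ((2 : ℝ) ^ N) ^ (2 * ω - 3 * η) * l ≤ ((𝒰.card * M : ℕ) : ℝ) ∧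
          ((2 : ℝ) ^ N) ^ (-(3 * η)) * l ≤ ((𝒰.card * M : ℕ) : ℝ) *
            (((2 : ℝ) ^ k / 3 ^ j) / ((2 : ℝ) ^ k / 3 ^ j * 2 ^ (N - k)) ^ 2) := by
  classical
  obtain ⟨U0, hU0⟩ := primes_many (η := η) hη0 (by linarith)
  have hω0 : 0 < ω := by linarith
  have hQ : Tendsto (fun N : ℕ => (2 : ℝ) ^ N) atTop atTop :=
    tendsto_pow_atTop_atTop_of_one_lt (by norm_num)
  have hpow : ∀ t : ℝ, 0 < t → ∀ B : ℝ, ∀ᶠ N : ℕ in atTop, B ≤ ((2 : ℝ) ^ N) ^ t := fun t ht B =>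
    ((tendsto_rpow_atTop ht).comp hQ).eventually_ge_atTop B
  have hlin : ∀ᶠ N : ℕ in atTop, 2 ≤ (1 - ω) * (N : ℝ) := by
    have h1 : Tendsto (fun N : ℕ => (1 - ω) * (N : ℝ)) atTop atTop :=
      tendsto_natCast_atTop_atTop.const_mul_atTop (by linarith)
    exact h1.eventually_ge_atTop 2
  filter_upwards [hpow ω hω0 (2 * (U0 + 2)), hpow (ω - η - δ) (by linarith) 768,
    hpow η hη0 1024, hpow ω hω0 2, hlin] with N h1 h2 h3 h4' hlinN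
  set Q : ℝ := (2 : ℝ) ^ N with hQdef
  have hQ1 : 1 ≤ Q := one_le_pow₀ (by norm_num)
  have hQ0 : 0 < Q := by linarith
  have hQr : ∀ t : ℝ, Q ^ t = (2 : ℝ) ^ (N * t) := by
    intro t
    rw [hQdef, ← Real.rpow_natCast, ← Real.rpow_mul (by norm_num)]
  set k : ℕ := ⌈(1 - ω) * N⌉₊ with hk
  have hN0 : (0 : ℝ) ≤ N := Nat.cast_nonneg N
  have hk1 : (1 - ω) * N ≤ k := Nat.le_ceil _
  have hk2 : (k : ℝ) < (1 - ω) * N + 1 := Nat.ceil_lt_add_one (by linarith)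
  have hkN : k ≤ N := by
    rw [hk, Nat.ceil_le]
    nlinarith
  have hk0 : 2 ≤ k := by
    have : (2 : ℝ) ≤ k := hlinN.trans hk1
    exact_mod_cast this
  set j : ℕ := Nat.log 3 (2 ^ k) with hj
  have hj1 : 3 ^ j ≤ 2 ^ k := Nat.pow_log_le_self 3 (by positivity)
  have hj2 : 2 ^ k < 3 ^ (j + 1) := Nat.lt_pow_succ_log_self (by norm_num) _
  have hj0 : 1 ≤ j := by
    have h5 : 3 ≤ 2 ^ k := by
      calc 3 ≤ 2 ^ 2 := by norm_num
        _ ≤ 2 ^ k := Nat.pow_le_pow_right (by norm_num) hk0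
    exact Nat.log_pos (by norm_num) h5
  have hj1R : (3 : ℝ) ^ j ≤ 2 ^ k := by exact_mod_cast hj1
  have hj2R : (2 : ℝ) ^ k ≤ 3 * 3 ^ j := by
    have : (2 : ℝ) ^ k ≤ 3 ^ (j + 1) := by exact_mod_cast hj2.le
    rw [pow_succ] at this
    linarith
  obtain ⟨P, hP⟩ : ∃ P : ℝ, P = (2 : ℝ) ^ k / 3 ^ j := ⟨_, rfl⟩
  have hP1 : 1 ≤ P := by
    rw [hP, le_div_iff₀ (by positivity)]
    linarith
  have hP2 : P ≤ 3 := by
    rw [hP, div_le_iff₀ (by positivity)]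
    exact hj2R
  have hP0 : 0 < P := by linarith
  set U : ℝ := ((2 ^ (N - k) : ℕ) : ℝ) with hU
  have hUr : (2 : ℝ) ^ (N - k) = U := by rw [hU]; push_cast; rfl
  have hcastNk : ((N - k : ℕ) : ℝ) = N - k := by
    rw [Nat.cast_sub hkN]
  have hU1 : 1 ≤ U := by
    rw [hU]
    exact_mod_cast Nat.one_le_two_pow
  have hU2 : 0 < U := by linarith
  have hUpow : U ≤ Q ^ ω := by
    rw [← hUr, hQr, ← Real.rpow_natCast]
    apply Real.rpow_le_rpow_of_exponent_le (by norm_num)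
    rw [hcastNk]
    linarith
  have hUQ : U ≤ Q := by
    refine hUpow.trans ?_
    conv_rhs => rw [← Real.rpow_one Q]
    exact Real.rpow_le_rpow_of_exponent_le hQ1 hω1.le
  have hUlow : Q ^ ω / 2 ≤ U := by
    have e1 : Q ^ ω / 2 = (2 : ℝ) ^ (N * ω - 1) := by
      rw [hQr, Real.rpow_sub (by norm_num), Real.rpow_one]
    rw [e1, ← hUr, ← Real.rpow_natCast]
    apply Real.rpow_le_rpow_of_exponent_le (by norm_num)
    rw [hcastNk]
    linarith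
  have hUU0 : U0 ≤ 2 ^ (N - k) := by
    have h9 : (U0 : ℝ) ≤ U := by linarith
    rw [hU] at h9
    exact_mod_cast h9
  have hpr := hU0 _ hUU0
  rw [← hU] at hpr
  set V : ℝ := U ^ (1 - η) with hV
  set 𝒰 : Finset ℕ := (Finset.Icc 1 (2 ^ (N - k))).filter fun u : ℕ => u.Prime ∧ V ≤ (u : ℝ) with h𝒰
  have hV1 : 1 ≤ V := Real.one_le_rpow hU1 (by linarith)
  have hV0 : 0 < V := by linarith
  have hVU : V * U ^ η = U := by
    rw [hV, ← Real.rpow_add hU2]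
    simp
  have hUη : U ^ η ≤ Q ^ η := Real.rpow_le_rpow hU2.le hUQ hη0.le
  have hVQ : U ≤ V * Q ^ η := by
    calc U = V * U ^ η := hVU.symm
      _ ≤ _ := by gcongr
  have hVlow : Q ^ (ω - η) / 2 ≤ V := by
    have e1 : Q ^ (ω - η) / 2 * Q ^ η ≤ V * Q ^ η := by
      refine le_trans (le_of_eq ?_) (hUlow.trans hVQ)
      rw [div_mul_eq_mul_div, ← Real.rpow_add hQ0]
      congr 2
      ring
    exact le_of_mul_le_mul_right e1 (by positivity)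
  have hsep : Q ^ (-(2 * ω)) / 3 ≤ P / (P * U) ^ 2 := by
    have e1 : P / (P * U) ^ 2 = 1 / (P * U ^ 2) := by field_simp
    rw [e1, le_div_iff₀ (by positivity)]
    have e2 : Q ^ (-(2 * ω)) * (Q ^ ω) ^ 2 = 1 := by
      rw [← Real.rpow_natCast, ← Real.rpow_mul hQ0.le, ← Real.rpow_add hQ0]
      rw [show -(2 * ω) + ω * ((2 : ℕ) : ℝ) = 0 by push_cast; ring, Real.rpow_zero]
    calc Q ^ (-(2 * ω)) / 3 * (P * U ^ 2) ≤ Q ^ (-(2 * ω)) / 3 * (3 * (Q ^ ω) ^ 2) := by gcongr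
      _ = Q ^ (-(2 * ω)) * (Q ^ ω) ^ 2 := by ring
      _ = 1 := e2
  refine ⟨k, j, hkN, hk1, by omega, hj0, hj1R, hj2R, ?_, ?_⟩
  · rw [← hP, hUr]
    exact hsep
  rw [← hP, hUr]
  intro l hl
  have hl0 : 0 < l := lt_of_lt_of_le (by positivity) hl
  have hVl : 384 ≤ V * l := by
    have e1 : Q ^ (ω - η - δ) / 2 ≤ V * l := by
      calc Q ^ (ω - η - δ) / 2 = Q ^ (ω - η) / 2 * Q ^ (-δ) := by
            rw [div_mul_eq_mul_div, ← Real.rpow_add hQ0]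
            congr 2
        _ ≤ V * l := by gcongr
    linarith
  have hPVl : 384 ≤ P * V * l := by nlinarith
  set M : ℕ := ⌊P * V * l / 128⌋₊ with hM
  have hM1 : (M : ℝ) ≤ P * V * l / 128 := Nat.floor_le (by positivity)
  have hM2 : P * V * l / 128 < M + 1 := Nat.lt_floor_add_one _
  have hM3 : P * V * l / 256 ≤ M := by linarith
  have hM4 : 3 ≤ M := Nat.le_floor (by push_cast; linarith)
  have hcard1 : 1 ≤ 𝒰.card := by
    have : (1 : ℝ) ≤ 𝒰.card := hV1.trans hpr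
    exact_mod_cast this
  have hprod : V * (P * V * l / 256) ≤ ((𝒰.card * M : ℕ) : ℝ) := by
    push_cast
    gcongr
  have hV3 : 3 < V := by
    have e1 : Q ^ (ω - η - δ) ≤ Q ^ (ω - η) :=
      Real.rpow_le_rpow_of_exponent_le hQ1 (by linarith)
    linarith
  have hVV : U ^ 2 ≤ V ^ 2 * Q ^ (2 * η) := by
    have e1 : (V * Q ^ η) ^ 2 = V ^ 2 * Q ^ (2 * η) := by
      rw [mul_pow, ← Real.rpow_natCast (Q ^ η), ← Real.rpow_mul hQ0.le]
      congr 2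
      push_cast
      ring
    rw [← e1]
    gcongr
  refine ⟨𝒰, V, M, fun u hu => (Finset.mem_filter.1 hu).2.1, fun u hu => (Finset.mem_filter.1 hu).2.2,
    hV3, fun u hu => (Finset.mem_Icc.1 (Finset.mem_filter.1 hu).1).2, by nlinarith, ?_, ?_, ?_⟩
  · push_cast
    linarith
  · refine le_trans ?_ hprod
    have e1 : Q ^ (2 * ω - 2 * η) / 4 ≤ V ^ 2 := by
      have e2 : Q ^ (2 * ω - 2 * η) / 4 * Q ^ (2 * η) ≤ V ^ 2 * Q ^ (2 * η) := by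
        refine le_trans ?_ hVV
        calc Q ^ (2 * ω - 2 * η) / 4 * Q ^ (2 * η) = (Q ^ ω / 2) ^ 2 := by
              rw [div_mul_eq_mul_div, ← Real.rpow_add hQ0, div_pow, ← Real.rpow_natCast (Q ^ ω),
                ← Real.rpow_mul hQ0.le]
              norm_num
              ring_nf
          _ ≤ U ^ 2 := by gcongr
      exact le_of_mul_le_mul_right e2 (by positivity)
    have e6 : Q ^ (2 * ω - 3 * η) * 1024 ≤ Q ^ (2 * ω - 2 * η) := by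
      calc Q ^ (2 * ω - 3 * η) * 1024 ≤ Q ^ (2 * ω - 3 * η) * Q ^ η := by gcongr
        _ = _ := by rw [← Real.rpow_add hQ0]; congr 1; ring
    calc Q ^ (2 * ω - 3 * η) * l ≤ (Q ^ (2 * ω - 2 * η) / 1024) * l := by
          apply mul_le_mul_of_nonneg_right _ hl0.le
          linarith
      _ = 1 * (Q ^ (2 * ω - 2 * η) / 4) * l / 256 := by ring
      _ ≤ P * V ^ 2 * l / 256 := by gcongr
      _ = _ := by ring
  · have e0 : Q ^ (-(3 * η)) * 1024 ≤ Q ^ (-(2 * η)) := by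
      calc Q ^ (-(3 * η)) * 1024 ≤ Q ^ (-(3 * η)) * Q ^ η := by gcongr
        _ = _ := by rw [← Real.rpow_add hQ0]; congr 1; ring
    have e2 : Q ^ (-(2 * η)) ≤ V ^ 2 / U ^ 2 := by
      rw [le_div_iff₀ (by positivity)]
      calc Q ^ (-(2 * η)) * U ^ 2 ≤ Q ^ (-(2 * η)) * (V ^ 2 * Q ^ (2 * η)) := by gcongr
        _ = V ^ 2 * (Q ^ (-(2 * η)) * Q ^ (2 * η)) := by ring
        _ = V ^ 2 := by
            rw [← Real.rpow_add hQ0, neg_add_cancel, Real.rpow_zero, mul_one]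
    calc Q ^ (-(3 * η)) * l ≤ Q ^ (-(2 * η)) / 256 * l := by
          apply mul_le_mul_of_nonneg_right _ hl0.le
          have : 0 < Q ^ (-(3 * η)) := by positivity
          linarith
      _ ≤ (V ^ 2 / U ^ 2) / 256 * l := by gcongr
      _ = V * (P * V * l / 256) * (P / (P * U) ^ 2) := by
          field_simp
      _ ≤ _ := by gcongr

end Pool.Agent.X123.ML
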