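import Mathlib

/-!
# Rational points near a given one, and truncated counting functions
-/

set_option autoImplicit false

namespace Pool.Agent.X123.ML

open Finset

/-- The integer `x₀ a₁ - x₁ a₀`, where `x = x₀ / x₁` in lowest terms. -/
def form (a : ℤ × ℤ) (x : ℚ) : ℤ := x.num * a.2 - x.den * a.1

/-- the sum of the truncated local heights outside `S` -/
noncomputable def N1 {q : ℕ} (α : Fin q → ℤ × ℤ) (S : Finset ℕ) (x : ℚ) : ℝ :=
  ∑ i, ∑ p ∈ (form (α i) x).natAbs.primeFactors \ S, Real.log p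

/-- the height -/
def H (x : ℚ) : ℕ := max x.num.natAbs x.den

theorem H_pos (x : ℚ) : 1 ≤ H x := le_max_of_le_right x.den_pos

theorem sum_log_le {m : ℕ} (hm : m ≠ 0) (S : Finset ℕ) :
    ∑ p ∈ m.primeFactors \ S, Real.log (p : ℝ) ≤ Real.log m := by
  calc ∑ p ∈ m.primeFactors \ S, Real.log (p : ℝ) ≤ ∑ p ∈ m.primeFactors, Real.log (p : ℝ) := by
        apply sum_le_sum_of_subset_of_nonneg sdiff_subset
        intro p hp _
        exact Real.log_natCast_nonneg p
    _ = Real.log ((∏ p ∈ m.primeFactors, p : ℕ) : ℝ) := by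
        rw [Nat.cast_prod, Real.log_prod]
        intro p hp
        exact_mod_cast (Nat.prime_of_mem_primeFactors hp).ne_zero
    _ ≤ Real.log m := by
        apply Real.log_le_log
        · exact_mod_cast prod_pos fun p hp => (Nat.prime_of_mem_primeFactors hp).pos
        · exact_mod_cast Nat.le_of_dvd (Nat.pos_of_ne_zero hm) (Nat.prod_primeFactors_dvd m)

theorem form_le (a : ℤ × ℤ) (x : ℚ) :
    (form a x).natAbs ≤ (a.1.natAbs + a.2.natAbs) * H x := by
  unfold form H
  calc (x.num * a.2 - x.den * a.1).natAbs ≤ (x.num * a.2).natAbs + ((x.den : ℤ) * a.1).natAbs :=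
        Int.natAbs_sub_le _ _
    _ = x.num.natAbs * a.2.natAbs + x.den * a.1.natAbs := by
        rw [Int.natAbs_mul, Int.natAbs_mul, Int.natAbs_natCast]
    _ ≤ (max x.num.natAbs x.den) * a.2.natAbs + (max x.num.natAbs x.den) * a.1.natAbs := by
        gcongr
        · exact le_max_left _ _
        · exact le_max_right _ _
    _ = _ := by ring

theorem sum_log_dvd {m k : ℕ} (hm : m ≠ 0) (hk : 1 ≤ k) (h : 2 ^ k ∣ m) (S : Finset ℕ) :
    ∑ p ∈ m.primeFactors \ S, Real.log (p : ℝ) ≤ Real.log m - (k - 1) * Real.log 2 := by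
  obtain ⟨t, rfl⟩ := h
  have ht : t ≠ 0 := by rintro rfl; simp at hm
  have h1 : (2 ^ k * t).primeFactors = (2 * t).primeFactors := by
    rw [Nat.primeFactors_mul (by positivity) ht, Nat.primeFactors_mul (by norm_num) ht,
      Nat.primeFactors_pow _ (by omega)]
  rw [h1]
  refine (sum_log_le (by positivity) S).trans (le_of_eq ?_)
  push_cast
  rw [Real.log_mul (by norm_num) (by exact_mod_cast ht),
    Real.log_mul (by positivity) (by exact_mod_cast ht), Real.log_pow]
  ring

/-- the constant -/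
noncomputable def cst {q : ℕ} (α : Fin q → ℤ × ℤ) : ℝ :=
  ∑ i, Real.log (((α i).1.natAbs + (α i).2.natAbs : ℕ) : ℝ)

theorem log_form_le {a : ℤ × ℤ} {x : ℚ} (h : form a x ≠ 0) :
    Real.log (((form a x).natAbs : ℕ) : ℝ) ≤
      Real.log (H x) + Real.log ((a.1.natAbs + a.2.natAbs : ℕ) : ℝ) := by
  have h1 := form_le a x
  have h2 : 0 < (form a x).natAbs := Int.natAbs_pos.2 h
  have h3 : 0 < (a.1.natAbs + a.2.natAbs) * H x := h2.trans_le h1
  have h4 : 0 < a.1.natAbs + a.2.natAbs := Nat.pos_of_mul_pos_right h3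
  have h5 : 0 < H x := H_pos x
  rw [add_comm, ← Real.log_mul (by exact_mod_cast h4.ne') (by exact_mod_cast h5.ne')]
  exact Real.log_le_log (by exact_mod_cast h2) (by exact_mod_cast h1)

theorem N1_le {q : ℕ} (α : Fin q → ℤ × ℤ) (S : Finset ℕ) {x : ℚ}
    (hx : ∀ i, form (α i) x ≠ 0) {i0 : Fin q} {k : ℕ} (hk : 1 ≤ k)
    (h : (2 : ℤ) ^ k ∣ form (α i0) x) :
    N1 α S x ≤ q * Real.log (H x) + cst α - (k - 1) * Real.log 2 := by
  classical
  have h2 : 2 ^ k ∣ (form (α i0) x).natAbs := by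
    have := Int.natAbs_dvd_natAbs.2 h
    simpa [Int.natAbs_pow] using this
  have key : ∀ i, ∑ p ∈ (form (α i) x).natAbs.primeFactors \ S, Real.log (p : ℝ) ≤
      Real.log (H x) + Real.log (((α i).1.natAbs + (α i).2.natAbs : ℕ) : ℝ) -
        if i = i0 then ((k : ℝ) - 1) * Real.log 2 else 0 := by
    intro i
    have h3 := log_form_le (hx i)
    have h4 := Int.natAbs_ne_zero.2 (hx i)
    split_ifs with hi
    · subst hi
      have h5 := sum_log_dvd h4 hk h2 S
      linarith
    · have h5 := sum_log_le h4 S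
      linarith
  unfold N1 cst
  refine (sum_le_sum fun i _ => key i).trans (le_of_eq ?_)
  rw [sum_sub_distrib, sum_add_distrib, sum_const, card_univ, Fintype.card_fin, nsmul_eq_mul,
    sum_ite_eq' univ i0]
  simp

/-- the rational point `a₀/a₁ + 2 ^ k u / b` -/
theorem point {a : ℤ × ℤ} (ha : a.2 ≠ 0) {k u b Q : ℕ} (hb : b % 2 = 1) (hbu : b ≤ 2 ^ k * u)
    (hQ : 2 ^ k * u ≤ Q) :
    H ((a.1 : ℚ) / a.2 + 2 ^ k * u / b) ≤ (a.1.natAbs + a.2.natAbs) * Q ∧
      (2 : ℤ) ^ k ∣ form a ((a.1 : ℚ) / a.2 + 2 ^ k * u / b) := by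
  have hb0 : b ≠ 0 := by rintro rfl; simp at hb
  have hbq : (b : ℚ) ≠ 0 := by exact_mod_cast hb0
  have haq : (a.2 : ℚ) ≠ 0 := by exact_mod_cast ha
  set A : ℤ := a.1 * b + a.2 * (2 ^ k * u) with hA
  set B : ℤ := a.2 * b with hB
  have hB0 : B ≠ 0 := mul_ne_zero ha (by exact_mod_cast hb0)
  set x : ℚ := (a.1 : ℚ) / a.2 + 2 ^ k * u / b with hx
  have hxAB : x = (A : ℚ) / B := by
    rw [hx, hA, hB]
    push_cast
    field_simp
  have hbQ : b ≤ Q := hbu.trans hQ
  constructor
  · unfold H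
    have hnum : x.num ∣ A := by
      rw [hxAB, ← Rat.divInt_eq_div]
      exact Rat.num_dvd A hB0
    have hden : ((x.den : ℤ)) ∣ B := by
      rw [hxAB, ← Rat.divInt_eq_div]
      exact Rat.den_dvd A B
    apply max_le
    · by_cases hA0 : A = 0
      · rw [hxAB, hA0]
        simp
      · calc x.num.natAbs ≤ A.natAbs := Nat.le_of_dvd (Int.natAbs_pos.2 hA0)
              (Int.natAbs_dvd_natAbs.2 hnum)
          _ ≤ (a.1 * b).natAbs + (a.2 * (2 ^ k * u)).natAbs := Int.natAbs_add_le _ _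
          _ = a.1.natAbs * b + a.2.natAbs * (2 ^ k * u) := by
              rw [Int.natAbs_mul, Int.natAbs_mul, Int.natAbs_natCast]
              congr 2
          _ ≤ a.1.natAbs * Q + a.2.natAbs * Q := by gcongr
          _ = _ := by ring
    · calc x.den ≤ B.natAbs := Nat.le_of_dvd (Int.natAbs_pos.2 hB0)
            (by simpa using Int.natAbs_dvd_natAbs.2 hden)
        _ = a.2.natAbs * b := by rw [hB, Int.natAbs_mul, Int.natAbs_natCast]
        _ ≤ (a.1.natAbs + a.2.natAbs) * Q := by gcongr; omega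
  · have h1 : x.num * B = A * x.den := by
      have h2 : (x.num : ℚ) / x.den = (A : ℚ) / B := by rw [Rat.num_div_den]; exact hxAB
      rw [div_eq_div_iff (by exact_mod_cast x.den_ne_zero) (by exact_mod_cast hB0)] at h2
      exact_mod_cast h2
    have h2 : form a x * b = 2 ^ k * (a.2 * x.den * u) := by
      apply mul_left_cancel₀ ha
      unfold form
      rw [hA, hB] at h1
      linear_combination a.2 * h1
    have h3 : IsCoprime ((2 : ℤ) ^ k) (b : ℤ) := by
      apply IsCoprime.pow_left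
      rw [Int.isCoprime_iff_gcd_eq_one]
      have : Nat.Coprime 2 b := (Nat.coprime_two_left).2 (Nat.odd_iff.2 hb)
      exact_mod_cast this
    exact h3.dvd_of_dvd_mul_right ⟨_, h2⟩

end Pool.Agent.X123.ML
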