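import Pool.Agent.X123.ML.Level
import Pool.Agent.X123.ML.Viol

/-!
# The lower bound for the dimension
-/

set_option autoImplicit false

namespace Pool.Agent.X123.ML

open Filter Topology Finset
open scoped ENNReal

/-- the reals with infinitely many good approximations by rationals with a small truncated counting
function -/
def W {q : ℕ} (α : Fin q → ℤ × ℤ) (S : Finset ℕ) (κ c τ : ℝ) : Set ℝ :=
  {ξ | {x : ℚ | (∀ i, form (α i) x ≠ 0) ∧ N1 α S x < (q - κ) * Real.log (H x) + c ∧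
    |ξ - x| ≤ (H x : ℝ) ^ (-τ)}.Infinite}

theorem start {q : ℕ} (α : Fin q → ℤ × ℤ) (h0 : ∀ i, α i ≠ 0) (θ : ℝ) :
    ∃ y0 l0 : ℝ, 1 ≤ y0 ∧ 0 < l0 ∧ y0 + l0 ≤ 2 ∧
      ∀ i, ∀ y, y0 ≤ y → y ≤ y0 + l0 → (θ + y) * (α i).2 - (α i).1 ≠ 0 := by
  set B : Set ℝ := ⋃ i, {y | (θ + y) * (α i).2 - (α i).1 = 0} with hBdef
  have hB : B.Finite := by
    refine Set.finite_iUnion fun i => ?_
    by_cases h2 : (α i).2 = 0
    · have h1 : (α i).1 ≠ 0 := fun h => h0 i (Prod.ext h h2)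
      have : {y : ℝ | (θ + y) * (α i).2 - (α i).1 = 0} = ∅ := by
        ext y
        simp only [Set.mem_ofPred_eq, Set.mem_empty_iff_false, iff_false]
        rw [h2]
        simpa using h1
      rw [this]
      exact Set.finite_empty
    · refine (Set.finite_singleton ((α i).1 / (α i).2 - θ : ℝ)).subset fun y hy => ?_
      have h3 : ((α i).2 : ℝ) ≠ 0 := by exact_mod_cast h2
      have h4 : (θ + y) * (α i).2 - (α i).1 = 0 := hy
      rw [Set.mem_singleton_iff, eq_sub_iff_add_eq, eq_div_iff h3]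
      linarith
  obtain ⟨y, hy⟩ := ((Set.Ioo_infinite (show (1 : ℝ) < 2 by norm_num)).sdiff hB).nonempty
  have hopen : IsOpen (Set.Ioo (1 : ℝ) 2 \ B) := isOpen_Ioo.sdiff hB.isClosed
  obtain ⟨r, hr, hball⟩ := Metric.isOpen_iff.1 hopen y hy
  have hin : ∀ z, y ≤ z → z ≤ y + r / 2 → z ∈ Set.Ioo (1 : ℝ) 2 \ B := by
    intro z h1 h2
    apply hball
    rw [Metric.mem_ball, Real.dist_eq, abs_of_nonneg (by linarith)]
    linarith
  refine ⟨y, r / 2, hy.1.1.le, by linarith, (hin _ (by linarith) le_rfl).1.2.le, ?_⟩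
  intro i z h1 h2 h3
  exact (hin z h1 h2).2 (Set.mem_iUnion.2 ⟨i, h3⟩)

theorem form_ne {a : ℤ × ℤ} {x : ℚ} (h : (x : ℝ) * a.2 - a.1 ≠ 0) : form a x ≠ 0 := by
  intro h1
  apply h
  unfold form at h1
  have h2 : (x : ℝ) = x.num / x.den := by
    exact_mod_cast (Rat.num_div_den x).symm
  have h3 : (x.den : ℝ) ≠ 0 := by exact_mod_cast x.den_ne_zero
  rw [h2, div_mul_eq_mul_div, sub_eq_zero, div_eq_iff h3]
  have h4 : (x.num : ℝ) * a.2 - x.den * a.1 = 0 := by exact_mod_cast h1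
  linarith

theorem lower_lt {q : ℕ} (α : Fin q → ℤ × ℤ) (S : Finset ℕ) (h0 : ∀ i, α i ≠ 0) (i0 : Fin q)
    (hi0 : (α i0).2 ≠ 0) {κ c τ s : ℝ} (hκ0 : 0 ≤ κ) (hκ1 : κ < 1) (hτ : 2 - κ ≤ τ) (hs0 : 0 < s)
    (hs : s * τ < 2 - κ) : ENNReal.ofReal s ≤ dimH (W α S κ c τ) := by
  classical
  set θ : ℝ := (α i0).1 / (α i0).2 with hθ
  obtain ⟨y0, l0, hy0, hl00, hyl0, hstart⟩ := start α h0 θ
  set CH : ℕ := (α i0).1.natAbs + (α i0).2.natAbs with hCH
  have hCH1 : 1 ≤ CH := by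
    have := Int.natAbs_pos.2 hi0
    omega
  have hCHR : (1 : ℝ) ≤ CH := by exact_mod_cast hCH1
  have hτ1 : 1 < τ := by linarith
  have hs1 : s < 1 := by nlinarith
  obtain ⟨g, hg⟩ : ∃ g, g = 2 - κ - s * τ := ⟨_, rfl⟩
  have hg0 : 0 < g := by linarith
  obtain ⟨δ, hδ⟩ : ∃ δ, δ = min (g / 4) (1 / 8) := ⟨_, rfl⟩
  have hδ0 : 0 < δ := by rw [hδ]; exact lt_min (by linarith) (by norm_num)
  have hδ1 : δ ≤ g / 4 := by rw [hδ]; exact min_le_left _ _
  have hδ2 : δ ≤ 1 / 8 := by rw [hδ]; exact min_le_right _ _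
  obtain ⟨A, hA⟩ : ∃ A : ℕ, A = ⌈(τ + 1) / δ⌉₊ + 2 := ⟨_, rfl⟩
  have hAδ : τ + 1 ≤ δ * A := by
    have h1 := Nat.le_ceil ((τ + 1) / δ)
    rw [div_le_iff₀ hδ0] at h1
    rw [hA]
    push_cast
    nlinarith
  obtain ⟨η, hη⟩ : ∃ η, η = min (min ((1 - κ) / 2) (1 / 16)) (g / (4 * (4 + 3 * A))) := ⟨_, rfl⟩
  have hη0 : 0 < η := by
    rw [hη]
    exact lt_min (lt_min (by linarith) (by norm_num)) (by positivity)
  have hη1 : η ≤ (1 - κ) / 2 := by
    rw [hη]; exact (min_le_left _ _).trans (min_le_left _ _)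
  have hη2 : η ≤ 1 / 16 := by
    rw [hη]; exact (min_le_left _ _).trans (min_le_right _ _)
  have hη3 : η * (4 + 3 * A) ≤ g / 4 := by
    have : η ≤ g / (4 * (4 + 3 * A)) := by rw [hη]; exact min_le_right _ _
    rw [le_div_iff₀ (by positivity)] at this
    linarith
  set β : ℝ := κ + η with hβ
  have hβ0 : 0 < β := by linarith
  have hβ1 : β < 1 := by linarith
  have hA0 : (0 : ℝ) ≤ A := Nat.cast_nonneg _
  have hkey : s * (τ + 3 * η * A) ≤ 2 - β - 3 * η - δ := by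
    have h1 : s * (3 * η * A) ≤ 3 * η * A := by
      have : 0 ≤ 3 * η * A := by positivity
      nlinarith
    rw [hβ]
    nlinarith
  -- large parameters
  have hQlim : Tendsto (fun N : ℕ => (2 : ℝ) ^ N) atTop atTop :=
    tendsto_pow_atTop_atTop_of_one_lt (by norm_num)
  have hpow : ∀ t : ℝ, 0 < t → ∀ B : ℝ, ∀ᶠ N : ℕ in atTop, B ≤ ((2 : ℝ) ^ N) ^ t := fun t ht B =>
    ((tendsto_rpow_atTop ht).comp hQlim).eventually_ge_atTop B
  have hlin : ∀ᶠ N : ℕ in atTop, κ * Real.log CH + cst α - c + Real.log 2 < η * N * Real.log 2 := by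
    have h1 : Tendsto (fun N : ℕ => (η * Real.log 2) * (N : ℝ)) atTop atTop :=
      tendsto_natCast_atTop_atTop.const_mul_atTop (by positivity)
    filter_upwards [h1.eventually_gt_atTop (κ * Real.log CH + cst α - c + Real.log 2)] with N hN
    linarith
  obtain ⟨N0, hN0⟩ := eventually_atTop.1 ((level (β := β) (η := η) (δ := δ) hβ0 hβ1 hη0 hη2
    hδ2).and ((hpow δ hδ0 l0⁻¹).and ((hpow η hη0 2).and ((hpow 1 one_pos ((CH : ℝ) ^ τ)).and
      ((hpow (1 / 2) (by norm_num) 2).and hlin)))))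
  obtain ⟨Nn, hNn⟩ : ∃ f : ℕ → ℕ, ∀ n, f n = (N0 + 1) * A ^ n := ⟨_, fun _ => rfl⟩
  have hNN : ∀ n, N0 ≤ Nn n := by
    intro n
    rw [hNn]
    have h1 : 1 ≤ A ^ n := Nat.one_le_pow _ _ (by omega)
    calc N0 ≤ (N0 + 1) * 1 := by omega
      _ ≤ _ := Nat.mul_le_mul_left _ h1
  obtain ⟨Q, hQ⟩ : ∃ Q : ℕ → ℝ, ∀ n, (2 : ℝ) ^ Nn n = Q n := ⟨_, fun _ => rfl⟩
  have hQ1 : ∀ n, 1 ≤ Q n := fun n => by rw [← hQ]; exact one_le_pow₀ (by norm_num)
  have hQ0 : ∀ n, 0 < Q n := fun n => lt_of_lt_of_le one_pos (hQ1 n)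
  have hQS : ∀ n, Q (n + 1) = Q n ^ (A : ℝ) := by
    intro n
    rw [Real.rpow_natCast]
    rw [← hQ, ← hQ, hNn, hNn, ← pow_mul]
    congr 1
    ring
  have hN1 := fun n => hN0 _ (hNN n)
  simp only [hQ] at hN1
  have hc1 : ∀ n, l0⁻¹ ≤ Q n ^ δ := fun n => (hN1 n).2.1
  have hc2 : ∀ n, 2 ≤ Q n ^ η := fun n => (hN1 n).2.2.1
  have hc3 : ∀ n, (CH : ℝ) ^ τ ≤ Q n := fun n => by
    have := (hN1 n).2.2.2.1
    rwa [Real.rpow_one] at this
  have hc4 : ∀ n, 2 ≤ Q n ^ (1 / 2 : ℝ) := fun n => (hN1 n).2.2.2.2.1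
  have hc5 : ∀ n, κ * Real.log CH + cst α - c + Real.log 2 < η * Nn n * Real.log 2 :=
    fun n => (hN1 n).2.2.2.2.2
  have hlev := fun n => (hN1 n).1
  choose k hkN hkβ hk1 hke hlev2 using hlev
  obtain ⟨l, hlz, hlS⟩ : ∃ l : ℕ → ℝ, l 0 = l0 ∧ ∀ n, l (n + 1) = (CH * Q n) ^ (-τ) :=
    ⟨fun n => Nat.casesOn n l0 (fun n => (CH * Q n) ^ (-τ)), rfl, fun n => rfl⟩
  have hlS2 : ∀ n, l (n + 1) ≤ Q n ^ (-τ) := by
    intro n
    rw [hlS]
    apply Real.rpow_le_rpow_of_nonpos (hQ0 n) _ (by linarith)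
    have := hQ0 n
    nlinarith
  have hllow : ∀ n, Q n ^ (-δ) ≤ l n := by
    intro n
    cases n with
    | zero =>
      rw [hlz, Real.rpow_neg (hQ0 0).le, inv_le_comm₀ (Real.rpow_pos_of_pos (hQ0 0) _) hl00]
      exact hc1 0
    | succ n =>
      rw [hlS, hQS, ← Real.rpow_mul (hQ0 n).le]
      calc Q n ^ ((A : ℝ) * -δ) ≤ Q n ^ (-1 + -τ) :=
            Real.rpow_le_rpow_of_exponent_le (hQ1 n) (by nlinarith)
        _ = (Q n)⁻¹ * Q n ^ (-τ) := by
            rw [Real.rpow_add (hQ0 n), Real.rpow_neg_one]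
        _ ≤ (CH : ℝ) ^ (-τ) * Q n ^ (-τ) := by
            apply mul_le_mul_of_nonneg_right _ (Real.rpow_nonneg (hQ0 n).le _)
            rw [Real.rpow_neg (by positivity)]
            exact inv_anti₀ (by positivity) (hc3 n)
        _ = _ := (Real.mul_rpow (by positivity) (hQ0 n).le).symm
  have hl0' : ∀ n, 0 < l n := fun n => lt_of_lt_of_le (Real.rpow_pos_of_pos (hQ0 n) _) (hllow n)
  have hhalf : ∀ n, l (n + 1) ≤ l n / 2 := by
    intro n
    refine (hlS2 n).trans ?_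
    rw [le_div_iff₀ (by norm_num)]
    refine le_trans ?_ (hllow n)
    calc Q n ^ (-τ) * 2 ≤ Q n ^ (-τ) * Q n ^ (1 / 2 : ℝ) :=
          mul_le_mul_of_nonneg_left (hc4 n) (Real.rpow_nonneg (hQ0 n).le _)
      _ = Q n ^ (-τ + 1 / 2) := (Real.rpow_add (hQ0 n) _ _).symm
      _ ≤ _ := Real.rpow_le_rpow_of_exponent_le (hQ1 n) (by linarith)
  have hlev3 := fun n => hlev2 n (l n) (hllow n)
  choose 𝒰 V M h𝒰 hV hU hm2 hM hd1 hd2 using hlev3
  obtain ⟨m, hm⟩ : ∃ m : ℕ → ℕ, ∀ n, (𝒰 n).card * M n = m n := ⟨_, fun _ => rfl⟩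
  obtain ⟨e, he⟩ : ∃ e : ℕ → ℝ, ∀ n, (2 : ℝ) ^ k n / (Q n) ^ 2 = e n := ⟨_, fun _ => rfl⟩
  simp only [hm, he] at hm2 hd1 hd2
  simp only [he] at hke
  have he0 : ∀ n, 0 < e n := fun n => by
    rw [← he]
    exact div_pos (by positivity) (pow_pos (hQ0 n) 2)
  have hle : ∀ n, l (n + 1) ≤ e n / 2 := by
    intro n
    refine (hlS2 n).trans ?_
    rw [le_div_iff₀ (by norm_num)]
    refine le_trans ?_ (hke n)
    calc Q n ^ (-τ) * 2 ≤ Q n ^ (-τ) * Q n ^ η :=
          mul_le_mul_of_nonneg_left (hc2 n) (Real.rpow_nonneg (hQ0 n).le _)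
      _ = Q n ^ (-τ + η) := (Real.rpow_add (hQ0 n) _ _).symm
      _ ≤ _ := Real.rpow_le_rpow_of_exponent_le (hQ1 n) (by linarith)
  -- the sets of left end points
  obtain ⟨G, hGz, hGS⟩ : ∃ G : ℕ → ℝ → Prop, (∀ a, G 0 a) ∧ ∀ n a, G (n + 1) a ↔
      ∃ x : ℚ, (x : ℝ) = a ∧ (H x : ℝ) ≤ CH * Q n ∧ (2 : ℤ) ^ k n ∣ form (α i0) x :=
    ⟨fun n a => Nat.casesOn n True (fun n => ∃ x : ℚ, (x : ℝ) = a ∧ (H x : ℝ) ≤ CH * Q n ∧
      (2 : ℤ) ^ k n ∣ form (α i0) x), fun _ => trivial, fun _ _ => Iff.rfl⟩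
  set I : ℕ → Set ℝ := fun n => {a | θ + y0 ≤ a ∧ a + l n ≤ θ + y0 + l0 ∧ G n a} with hI
  have hcantor := cantor m (fun n => by have := hm2 n; omega) e l he0 hle hl0' I
    ⟨θ + y0, le_rfl, by rw [hlz], hGz _⟩ ?_ s
    (max ((CH : ℝ) ^ (τ * s)) ((m 0 * e 0) ^ s)⁻¹) hs0 hs1.le ?_ ?_
  · -- conclusion
    set K0 : Set ℝ := {ξ : ℝ | ∀ n, ∃ c ∈ I n, c ≤ ξ ∧ ξ ≤ c + l n} with hK0
    have hsub : K0 ⊆ W α S κ c τ ∪ Set.range ((↑) : ℚ → ℝ) := by
      intro ξ hξ
      by_cases hrat : ξ ∈ Set.range ((↑) : ℚ → ℝ)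
      · exact Or.inr hrat
      left
      intro hfin
      -- the approximations
      have happ : ∀ n, ∃ x : ℚ, ((∀ i, form (α i) x ≠ 0) ∧
          N1 α S x < (q - κ) * Real.log (H x) + c ∧ |ξ - x| ≤ (H x : ℝ) ^ (-τ)) ∧
          |ξ - x| ≤ l (n + 1) := by
        intro n
        obtain ⟨a, ⟨ha1, ha2, ha3⟩, ha4, ha5⟩ := hξ (n + 1)
        obtain ⟨x, rfl, hxH, hxk⟩ := (hGS n a).1 ha3
        have hne : ∀ i, form (α i) x ≠ 0 := by
          intro i
          apply form_ne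
          have h1 := hstart i ((x : ℝ) - θ) (by linarith) (by have := hl0' (n + 1); linarith)
          rwa [show θ + ((x : ℝ) - θ) = x by ring] at h1
        have hHpos : (0 : ℝ) < H x := by exact_mod_cast H_pos x
        have hdist : |ξ - x| ≤ l (n + 1) := by
          rw [abs_of_nonneg (by linarith)]
          linarith
        refine ⟨x, ⟨hne, ?_, ?_⟩, hdist⟩
        · have h1 := N1_le α S hne (hk1 n) hxk
          have h2 : Real.log (H x) ≤ Real.log CH + Nn n * Real.log 2 := by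
            calc Real.log (H x) ≤ Real.log (CH * Q n) := Real.log_le_log hHpos hxH
              _ = _ := by
                rw [Real.log_mul (by positivity) (hQ0 n).ne', ← hQ, Real.log_pow]
          have h3 := hc5 n
          have h4 := hkβ n
          have h5 : 0 < Real.log 2 := Real.log_pos (by norm_num)
          have h6 : κ * Real.log (H x) ≤ κ * (Real.log CH + Nn n * Real.log 2) :=
            mul_le_mul_of_nonneg_left h2 hκ0
          have h7 : (κ + η) * Nn n * Real.log 2 ≤ k n * Real.log 2 :=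
            mul_le_mul_of_nonneg_right h4 h5.le
          linarith
        · refine hdist.trans ?_
          rw [hlS]
          exact Real.rpow_le_rpow_of_nonpos hHpos hxH (by linarith)
      have hdpos : ∃ d : ℝ, 0 < d ∧ ∀ x ∈ hfin.toFinset, d ≤ |ξ - (x : ℝ)| := by
        rcases hfin.toFinset.eq_empty_or_nonempty with h | h
        · exact ⟨1, one_pos, by rw [h]; simp⟩
        · obtain ⟨x, hx, hmin⟩ := hfin.toFinset.exists_min_image (fun x => |ξ - (x : ℝ)|) h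
          refine ⟨|ξ - x|, abs_pos.2 (sub_ne_zero.2 fun h => hrat ⟨x, h.symm⟩), hmin⟩
      obtain ⟨d, hd, hdall⟩ := hdpos
      have hln : ∀ n, l n ≤ l0 * (1 / 2) ^ n := by
        intro n
        induction n with
        | zero => rw [hlz]; simp
        | succ n ih =>
          refine (hhalf n).trans ?_
          rw [pow_succ]
          linarith
      obtain ⟨n, hn⟩ := exists_pow_lt_of_lt_one (show 0 < d / l0 by positivity)
        (show (1 / 2 : ℝ) < 1 by norm_num)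
      rw [lt_div_iff₀ hl00] at hn
      obtain ⟨x, hx, hx2⟩ := happ n
      have h1 := hdall x (hfin.mem_toFinset.2 hx)
      have h2 := hln (n + 1)
      rw [pow_succ] at h2
      have h3 : 0 < l0 * (1 / 2) ^ n := by positivity
      linarith
    have h1 : dimH K0 ≤ dimH (W α S κ c τ) := by
      refine (dimH_mono hsub).trans ?_
      rw [dimH_union, (Set.countable_range ((↑) : ℚ → ℝ)).dimH_zero]
      simp
    exact hcantor.trans h1
  · -- the refinement
    rintro n a ⟨ha1, ha2, ha3⟩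
    have hP1 : (1 : ℝ) ≤ 2 ^ k n := one_le_pow₀ (by norm_num)
    obtain ⟨f, hf1, hf2⟩ := pts (p := 2) Nat.prime_two (𝒰 n) (h𝒰 n) (P := (2 : ℝ) ^ k n)
      (V := V n) (U := (2 : ℝ) ^ (Nn n - k n)) (y := a - θ) (l := l n / 2) (M := M n) hP1 (hV n)
      (fun u hu => by exact_mod_cast hU n u hu) (by linarith) (by have := hl0' n; linarith)
      (by have := hl0' n; linarith) (hM n)
    have hPQ : (2 : ℝ) ^ k n * 2 ^ (Nn n - k n) = Q n := by
      rw [← hQ, ← pow_add]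
      congr 1
      have := hkN n
      omega
    refine ⟨fun i => θ + f i, fun i hi => ?_, fun i j hij hj => ?_⟩
    · obtain ⟨u, hu, b, hb1, hb2, hb3, hb4, hb5⟩ := hf1 i (by rw [hm]; exact hi)
      have h1 : a ≤ θ + f i := by linarith
      have h2 : θ + f i + l (n + 1) ≤ a + l n := by
        have := hhalf n
        linarith
      refine ⟨⟨by linarith, by linarith, ?_⟩, h1, h2⟩
      have hb2' : b ≤ 2 ^ k n * u := by exact_mod_cast hb2
      have huU := hU n u hu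
      have hQn : 2 ^ k n * u ≤ 2 ^ Nn n := by
        calc 2 ^ k n * u ≤ 2 ^ k n * 2 ^ (Nn n - k n) := Nat.mul_le_mul_left _ huU
          _ = 2 ^ Nn n := by
            rw [← pow_add]
            congr 1
            have := hkN n
            omega
      obtain ⟨hp1, hp2⟩ := point hi0 hb1 hb2' hQn
      refine (hGS n _).2 ⟨_, ?_, ?_, hp2⟩
      · push_cast
        rw [hb3, hθ]
      · have : ((H ((((α i0).1 : ℤ) : ℚ) / ((α i0).2 : ℤ) + 2 ^ k n * u / b) : ℕ) : ℝ) ≤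
            ((CH * 2 ^ Nn n : ℕ) : ℝ) := by exact_mod_cast hp1
        push_cast at this
        rw [hQ] at this
        exact this
    · have h1 := hf2 i j hij (by rw [hm]; exact hj)
      rw [hPQ, he] at h1
      linarith
  · -- the dimension condition
    intro n
    cases n with
    | zero =>
      simp only [Finset.range_zero, Finset.prod_empty, inv_one]
      have h1 : (0 : ℝ) < (m 0 * e 0) ^ s := by
        apply Real.rpow_pos_of_pos
        have h2 : 0 < m 0 := by have := hm2 0; omega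
        have h3 : (0 : ℝ) < m 0 := by exact_mod_cast h2
        have h4 := he0 0
        positivity
      calc (1 : ℝ) = ((m 0 * e 0) ^ s)⁻¹ * (m 0 * e 0) ^ s := (inv_mul_cancel₀ h1.ne').symm
        _ ≤ _ := mul_le_mul_of_nonneg_right (le_max_right _ _) h1.le
    | succ n =>
      have hq := hQ0 n
      have h1 : (m n : ℝ) ≤ ∏ i ∈ Finset.range (n + 1), (m i : ℝ) := by
        rw [Finset.prod_range_succ]
        have h2 : (1 : ℝ) ≤ ∏ i ∈ Finset.range n, (m i : ℝ) := by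
          have : 1 ≤ ∏ i ∈ Finset.range n, m i := Finset.one_le_prod' fun i _ => by
            have := hm2 i; omega
          exact_mod_cast this
        have h3 : (0 : ℝ) ≤ m n := Nat.cast_nonneg _
        nlinarith
      have h2 : Q n ^ (2 - β - 3 * η - δ) ≤ m n := by
        refine le_trans ?_ (hd1 n)
        calc Q n ^ (2 - β - 3 * η - δ) = Q n ^ (2 - β - 3 * η) * Q n ^ (-δ) := by
              rw [← Real.rpow_add hq]; congr 1
          _ ≤ _ := mul_le_mul_of_nonneg_left (hllow n) (Real.rpow_nonneg hq.le _)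
      have h3 : (∏ i ∈ Finset.range (n + 1), (m i : ℝ))⁻¹ ≤ Q n ^ (-(2 - β - 3 * η - δ)) := by
        rw [Real.rpow_neg hq.le]
        exact inv_anti₀ (Real.rpow_pos_of_pos hq _) (h2.trans h1)
      refine h3.trans ?_
      have h4 : (CH : ℝ) ^ (-τ) * Q n ^ (-(τ + 3 * η * A)) ≤ m (n + 1) * e (n + 1) := by
        refine le_trans (le_of_eq ?_) (hd2 (n + 1))
        rw [hlS, hQS, ← Real.rpow_mul hq.le, Real.mul_rpow (by positivity) hq.le]
        have e2 : Q n ^ (-(τ + 3 * η * A)) = Q n ^ ((A : ℝ) * -(3 * η)) * Q n ^ (-τ) := by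
          rw [← Real.rpow_add hq]
          congr 1
          ring
        rw [e2]
        ring
      have hCHp : (0 : ℝ) < CH := by linarith
      have h5 : (CH : ℝ) ^ (-(τ * s)) * Q n ^ (-(s * (τ + 3 * η * A))) ≤
          (m (n + 1) * e (n + 1)) ^ s := by
        have e3 : (CH : ℝ) ^ (-(τ * s)) * Q n ^ (-(s * (τ + 3 * η * A))) =
            ((CH : ℝ) ^ (-τ) * Q n ^ (-(τ + 3 * η * A))) ^ s := by
          rw [Real.mul_rpow (Real.rpow_nonneg hCHp.le _) (Real.rpow_nonneg hq.le _),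
            ← Real.rpow_mul hCHp.le, ← Real.rpow_mul hq.le]
          congr 2 <;> ring
        rw [e3]
        exact Real.rpow_le_rpow (mul_nonneg (Real.rpow_nonneg hCHp.le _)
          (Real.rpow_nonneg hq.le _)) h4 hs0.le
      have hCs : 0 < (CH : ℝ) ^ (τ * s) := Real.rpow_pos_of_pos hCHp _
      calc Q n ^ (-(2 - β - 3 * η - δ)) ≤ Q n ^ (-(s * (τ + 3 * η * A))) :=
            Real.rpow_le_rpow_of_exponent_le (hQ1 n) (by linarith)
        _ = (CH : ℝ) ^ (τ * s) * ((CH : ℝ) ^ (-(τ * s)) * Q n ^ (-(s * (τ + 3 * η * A)))) := by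
            rw [← mul_assoc, ← Real.rpow_add hCHp, add_neg_cancel, Real.rpow_zero, one_mul]
        _ ≤ (CH : ℝ) ^ (τ * s) * (m (n + 1) * e (n + 1)) ^ s :=
            mul_le_mul_of_nonneg_left h5 hCs.le
        _ ≤ _ := by
            apply mul_le_mul_of_nonneg_right (le_max_left _ _)
            apply Real.rpow_nonneg
            have := he0 (n + 1)
            positivity
  · -- the product tends to infinity
    intro y hy
    have hprod : ∀ n, (2 : ℝ) ^ n ≤ ∏ i ∈ Finset.range n, (m i : ℝ) := by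
      intro n
      induction n with
      | zero => simp
      | succ n ih =>
        rw [pow_succ, Finset.prod_range_succ]
        have : (2 : ℝ) ≤ m n := by exact_mod_cast hm2 n
        gcongr
    obtain ⟨n, hn⟩ := exists_pow_lt_of_lt_one hy (show (1 / 2 : ℝ) < 1 by norm_num)
    refine ⟨n, lt_of_le_of_lt ?_ hn⟩
    rw [one_div, inv_pow]
    exact inv_anti₀ (by positivity) (hprod n)

end Pool.Agent.X123.ML
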