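import Pool.Agent.X123.ML.Viol

/-!
# Rational points near two given ones at the primes 2 and 3
-/

set_option autoImplicit false

namespace Pool.Agent.X123.ML

open Finset

theorem sum_log_dvd' {m k p : ℕ} (hp : p.Prime) (hm : m ≠ 0) (hk : 1 ≤ k) (h : p ^ k ∣ m)
    (S : Finset ℕ) :
    ∑ r ∈ m.primeFactors \ S, Real.log (r : ℝ) ≤ Real.log m - (k - 1) * Real.log p := by
  obtain ⟨t, rfl⟩ := h
  have ht : t ≠ 0 := by rintro rfl; simp at hm
  have hp0 : p ≠ 0 := hp.ne_zero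
  have h1 : (p ^ k * t).primeFactors = (p * t).primeFactors := by
    rw [Nat.primeFactors_mul (by positivity) ht, Nat.primeFactors_mul hp0 ht,
      Nat.primeFactors_pow _ (by omega)]
  rw [h1]
  refine (sum_log_le (mul_ne_zero hp0 ht) S).trans (le_of_eq ?_)
  push_cast
  have hpR : (p : ℝ) ≠ 0 := by exact_mod_cast hp0
  rw [Real.log_mul hpR (by exact_mod_cast ht),
    Real.log_mul (by positivity) (by exact_mod_cast ht), Real.log_pow]
  ring

/-- the truncated counting function of one form divisible by a high power up to a factor `D` -/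
theorem sum_log_form {p k : ℕ} (hp : p.Prime) (hk : 1 ≤ k) {a : ℤ × ℤ} {x : ℚ} {D : ℤ}
    (hD : D ≠ 0) (hx : form a x ≠ 0) (h : (p : ℤ) ^ k ∣ form a x * D) (S : Finset ℕ) :
    ∑ r ∈ (form a x).natAbs.primeFactors \ S, Real.log (r : ℝ) ≤
      Real.log (H x) + Real.log ((a.1.natAbs + a.2.natAbs : ℕ) : ℝ) +
        Real.log (D.natAbs : ℝ) - (k - 1) * Real.log p := by
  classical
  have h1 : p ^ k ∣ (form a x).natAbs * D.natAbs := by
    have := Int.natAbs_dvd_natAbs.2 h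
    rw [Int.natAbs_pow, Int.natAbs_natCast, Int.natAbs_mul] at this
    exact this
  have hF : (form a x).natAbs ≠ 0 := Int.natAbs_ne_zero.2 hx
  have hDn : D.natAbs ≠ 0 := Int.natAbs_ne_zero.2 hD
  have h2 := sum_log_dvd' hp (mul_ne_zero hF hDn) hk h1 S
  have h3 : ∑ r ∈ (form a x).natAbs.primeFactors \ S, Real.log (r : ℝ) ≤
      ∑ r ∈ ((form a x).natAbs * D.natAbs).primeFactors \ S, Real.log (r : ℝ) := by
    apply sum_le_sum_of_subset_of_nonneg
    · apply sdiff_subset_sdiff _ subset_rfl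
      exact Nat.primeFactors_mono (dvd_mul_right _ _) (mul_ne_zero hF hDn)
    · intro r _ _
      exact Real.log_natCast_nonneg r
  refine h3.trans (h2.trans ?_)
  push_cast
  rw [Real.log_mul (by exact_mod_cast hF) (by exact_mod_cast hDn)]
  have h4 := log_form_le hx
  push_cast at h4
  linarith

theorem N1_le2 {q : ℕ} (α : Fin q → ℤ × ℤ) (S : Finset ℕ) {x : ℚ}
    (hx : ∀ i, form (α i) x ≠ 0) {i1 i2 : Fin q} (h12 : i1 ≠ i2) {D : ℤ} (hD : D ≠ 0) {k j : ℕ}
    (hk : 1 ≤ k) (hj : 1 ≤ j)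
    (h1 : (2 : ℤ) ^ k ∣ form (α i1) x * D) (h2 : (3 : ℤ) ^ j ∣ form (α i2) x * D) :
    N1 α S x ≤ q * Real.log (H x) + (cst α + 2 * Real.log (D.natAbs : ℝ)) -
      (k - 1) * Real.log 2 - (j - 1) * Real.log 3 := by
  classical
  have key : ∀ i, ∑ p ∈ (form (α i) x).natAbs.primeFactors \ S, Real.log (p : ℝ) ≤
      Real.log (H x) + Real.log (((α i).1.natAbs + (α i).2.natAbs : ℕ) : ℝ) +
        (if i = i1 then Real.log (D.natAbs : ℝ) - ((k : ℝ) - 1) * Real.log 2 else 0) +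
        (if i = i2 then Real.log (D.natAbs : ℝ) - ((j : ℝ) - 1) * Real.log 3 else 0) := by
    intro i
    by_cases hi1 : i = i1
    · subst hi1
      rw [if_pos rfl, if_neg h12]
      have := sum_log_form Nat.prime_two hk hD (hx i) (by exact_mod_cast h1) S
      push_cast at this ⊢
      linarith
    · rw [if_neg hi1]
      by_cases hi2 : i = i2
      · subst hi2
        rw [if_pos rfl]
        have := sum_log_form Nat.prime_three hj hD (hx i) (by exact_mod_cast h2) S
        push_cast at this ⊢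
        linarith
      · rw [if_neg hi2]
        have h3 := log_form_le (hx i)
        have h5 := sum_log_le (Int.natAbs_ne_zero.2 (hx i)) S
        linarith
  unfold N1 cst
  refine (sum_le_sum fun i _ => key i).trans (le_of_eq ?_)
  rw [sum_add_distrib, sum_add_distrib, sum_add_distrib, sum_const, card_univ, Fintype.card_fin,
    nsmul_eq_mul, sum_ite_eq' univ i1, sum_ite_eq' univ i2]
  simp only [mem_univ, if_true]
  ring

/-- the rational point -/
theorem point2 {a b : ℤ × ℤ} {k j u v Q : ℕ} (hu : u % 3 ≠ 0) (hv : v % 2 = 1)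
    (hQu : 2 ^ k * u ≤ Q) (hQv : 3 ^ j * v ≤ Q)
    (hden : (2 : ℤ) ^ k * u * b.2 - 3 ^ j * v * a.2 ≠ 0) :
    ∃ x : ℚ, (x : ℝ) = ((2 : ℝ) ^ k * u * b.1 - 3 ^ j * v * a.1) /
        ((2 : ℝ) ^ k * u * b.2 - 3 ^ j * v * a.2) ∧
      H x ≤ (a.1.natAbs + a.2.natAbs + b.1.natAbs + b.2.natAbs) * Q ∧
      (2 : ℤ) ^ k ∣ form a x * (b.1 * a.2 - b.2 * a.1) ∧
      (3 : ℤ) ^ j ∣ form b x * (b.1 * a.2 - b.2 * a.1) := by
  obtain ⟨A, hA⟩ : ∃ A : ℤ, A = 2 ^ k * u * b.1 - 3 ^ j * v * a.1 := ⟨_, rfl⟩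
  obtain ⟨B, hB⟩ : ∃ B : ℤ, B = 2 ^ k * u * b.2 - 3 ^ j * v * a.2 := ⟨_, rfl⟩
  have hB0 : B ≠ 0 := by rw [hB]; exact hden
  obtain ⟨x, hx⟩ : ∃ x : ℚ, x = (A : ℚ) / B := ⟨_, rfl⟩
  have hgA : ∃ g : ℤ, A = x.num * g ∧ B = x.den * g := by
    have h1 : x.num ∣ A := by
      rw [hx, ← Rat.divInt_eq_div]
      exact Rat.num_dvd A hB0
    have h2 : ((x.den : ℤ)) ∣ B := by
      rw [hx, ← Rat.divInt_eq_div]
      exact Rat.den_dvd A B
    obtain ⟨g, hg⟩ := h2
    refine ⟨g, ?_, hg⟩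
    have hxB : (x.num : ℚ) / x.den = (A : ℚ) / B := by rw [Rat.num_div_den]; exact hx
    rw [div_eq_div_iff (by exact_mod_cast x.den_ne_zero) (by exact_mod_cast hB0)] at hxB
    have h3 : x.num * B = A * x.den := by exact_mod_cast hxB
    have h4 : (x.den : ℤ) ≠ 0 := by exact_mod_cast x.den_ne_zero
    apply mul_right_cancel₀ h4
    rw [← h3, hg]
    ring
  obtain ⟨g, hg1, hg2⟩ := hgA
  have hg0 : g ≠ 0 := by
    rintro rfl
    rw [mul_zero] at hg2
    exact hB0 hg2
  have hfa : form a x * g = 2 ^ k * u * (b.1 * a.2 - b.2 * a.1) := by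
    have : form a x * g = A * a.2 - B * a.1 := by
      unfold form
      rw [hg1, hg2]
      ring
    rw [this, hA, hB]
    ring
  have hfb : form b x * g = 3 ^ j * v * (b.1 * a.2 - b.2 * a.1) := by
    have : form b x * g = A * b.2 - B * b.1 := by
      unfold form
      rw [hg1, hg2]
      ring
    rw [this, hA, hB]
    ring
  have hAle : A.natAbs ≤ (a.1.natAbs + b.1.natAbs) * Q := by
    rw [hA]
    refine (Int.natAbs_sub_le _ _).trans ?_
    have e1 : (2 : ℤ) ^ k * u = ((2 ^ k * u : ℕ) : ℤ) := by push_cast; rfl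
    have e2 : (3 : ℤ) ^ j * v = ((3 ^ j * v : ℕ) : ℤ) := by push_cast; rfl
    rw [e1, e2, Int.natAbs_mul, Int.natAbs_mul, Int.natAbs_natCast, Int.natAbs_natCast]
    have h5 := Nat.mul_le_mul_right b.1.natAbs hQu
    have h6 := Nat.mul_le_mul_right a.1.natAbs hQv
    calc _ ≤ Q * b.1.natAbs + Q * a.1.natAbs := add_le_add h5 h6
      _ = _ := by ring
  have hBle : B.natAbs ≤ (a.2.natAbs + b.2.natAbs) * Q := by
    rw [hB]
    refine (Int.natAbs_sub_le _ _).trans ?_
    have e1 : (2 : ℤ) ^ k * u = ((2 ^ k * u : ℕ) : ℤ) := by push_cast; rfl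
    have e2 : (3 : ℤ) ^ j * v = ((3 ^ j * v : ℕ) : ℤ) := by push_cast; rfl
    rw [e1, e2, Int.natAbs_mul, Int.natAbs_mul, Int.natAbs_natCast, Int.natAbs_natCast]
    have h5 := Nat.mul_le_mul_right b.2.natAbs hQu
    have h6 := Nat.mul_le_mul_right a.2.natAbs hQv
    calc _ ≤ Q * b.2.natAbs + Q * a.2.natAbs := add_le_add h5 h6
      _ = _ := by ring
  have hg1' : 1 ≤ g.natAbs := Int.natAbs_pos.2 hg0
  refine ⟨x, ?_, ?_, ?_, ?_⟩
  · rw [hx, hA, hB]
    push_cast
    rfl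
  · unfold H
    have h1 : x.num.natAbs ≤ A.natAbs := by
      rw [hg1, Int.natAbs_mul]
      exact Nat.le_mul_of_pos_right _ hg1'
    have h2 : x.den ≤ B.natAbs := by
      rw [hg2, Int.natAbs_mul, Int.natAbs_natCast]
      exact Nat.le_mul_of_pos_right _ hg1'
    apply max_le
    · refine h1.trans (hAle.trans (Nat.mul_le_mul_right _ ?_))
      omega
    · refine h2.trans (hBle.trans (Nat.mul_le_mul_right _ ?_))
      omega
  · -- 2 ^ k
    have h1 : form a x * (b.1 * a.2 - b.2 * a.1) * (3 ^ j * v) =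
        2 ^ k * (u * (b.1 * a.2 - b.2 * a.1) * form b x) := by
      linear_combination (form b x) * hfa - (form a x) * hfb
    have h2 : IsCoprime ((2 : ℤ) ^ k) ((3 ^ j * v : ℕ) : ℤ) := by
      apply IsCoprime.pow_left
      rw [Int.isCoprime_iff_gcd_eq_one]
      have h3 : Nat.Coprime 2 (3 ^ j * v) := by
        rw [Nat.coprime_two_left]
        exact (Odd.pow (by decide)).mul (Nat.odd_iff.2 hv)
      exact_mod_cast h3
    push_cast at h2
    exact h2.dvd_of_dvd_mul_right ⟨_, h1⟩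
  · have h1 : form b x * (b.1 * a.2 - b.2 * a.1) * (2 ^ k * u) =
        3 ^ j * (v * (b.1 * a.2 - b.2 * a.1) * form a x) := by
      linear_combination (form a x) * hfb - (form b x) * hfa
    have h2 : IsCoprime ((3 : ℤ) ^ j) ((2 ^ k * u : ℕ) : ℤ) := by
      apply IsCoprime.pow_left
      rw [Int.isCoprime_iff_gcd_eq_one]
      have h3 : Nat.Coprime 3 (2 ^ k * u) := by
        apply Nat.Coprime.mul_right
        · exact Nat.Coprime.pow_right _ (by norm_num)
        · rw [Nat.Prime.coprime_iff_not_dvd Nat.prime_three]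
          intro h
          exact hu (Nat.mod_eq_zero_of_dvd h)
      exact_mod_cast h3
    push_cast at h2
    exact h2.dvd_of_dvd_mul_right ⟨_, h1⟩

end Pool.Agent.X123.ML
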