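import Pool.Agent.X123.ML.Level2
import Pool.Agent.X123.ML.Point2
import Pool.Agent.X123.ML.Low

/-!
# The lower bound for the dimension, full range
-/

set_option autoImplicit false

namespace Pool.Agent.X123.ML

open Filter Topology Finset
open scoped ENNReal NNReal

theorem start2 {ι : Type} [Finite ι] (p r : ι → ℝ) (h0 : ∀ i, p i ≠ 0 ∨ r i ≠ 0) :
    ∃ y0 l0 : ℝ, 1 ≤ y0 ∧ 0 < l0 ∧ y0 + l0 ≤ 2 ∧
      ∀ i, ∀ y, y0 ≤ y → y ≤ y0 + l0 → p i * y + r i ≠ 0 := by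
  set B : Set ℝ := ⋃ i, {y | p i * y + r i = 0} with hBdef
  have hB : B.Finite := by
    refine Set.finite_iUnion fun i => ?_
    by_cases h2 : p i = 0
    · have h1 : r i ≠ 0 := (h0 i).resolve_left (not_not.2 h2)
      have : {y : ℝ | p i * y + r i = 0} = ∅ := by
        ext y
        simp only [Set.mem_ofPred_eq, Set.mem_empty_iff_false, iff_false]
        rw [h2]
        simpa using h1
      rw [this]
      exact Set.finite_empty
    · refine (Set.finite_singleton (-r i / p i : ℝ)).subset fun y hy => ?_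
      have h4 : p i * y + r i = 0 := hy
      rw [Set.mem_singleton_iff, eq_div_iff h2]
      linarith
  obtain ⟨y, hy⟩ := ((Set.Ioo_infinite (show (1 : ℝ) < 2 by norm_num)).sdiff hB).nonempty
  have hopen : IsOpen (Set.Ioo (1 : ℝ) 2 \ B) := isOpen_Ioo.sdiff hB.isClosed
  obtain ⟨r, hr, hball⟩ := Metric.isOpen_iff.1 hopen y hy
  have hin : ∀ z, y ≤ z → z ≤ y + r / 2 → z ∈ Set.Ioo (1 : ℝ) 2 \ B := by
    intro z h1 h2
    apply hball
    rw [Metric.mem_ball, Real.dist_eq, abs_of_nonneg (by linarith)]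
    linarith
  refine ⟨y, r / 2, hy.1.1.le, by linarith, (hin _ (by linarith) le_rfl).1.2.le, ?_⟩
  intro i z h1 h2 h3
  exact (hin z h1 h2).2 (Set.mem_iUnion.2 ⟨i, h3⟩)

theorem dimH_image_ge (K : Set ℝ) (Φ : ℝ → ℝ) {L : ℝ} (hL : 0 ≤ L)
    (h : ∀ x ∈ K, ∀ y ∈ K, |x - y| ≤ L * |Φ x - Φ y|) : dimH K ≤ dimH (Φ '' K) := by
  have hinj : Set.InjOn Φ K := by
    intro x hx y hy hxy
    have h1 := h x hx y hy
    rw [hxy, sub_self, abs_zero, mul_zero] at h1
    exact sub_eq_zero.1 (abs_eq_zero.1 (le_antisymm h1 (abs_nonneg _)))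
  let g : ℝ → ℝ := Function.invFunOn Φ K
  have hg1 : ∀ a ∈ Φ '' K, g a ∈ K ∧ Φ (g a) = a := fun a ha =>
    ⟨Function.invFunOn_mem ha, Function.invFunOn_eq ha⟩
  have hg2 : K ⊆ g '' (Φ '' K) := by
    intro x hx
    refine ⟨Φ x, ⟨x, hx, rfl⟩, ?_⟩
    obtain ⟨h1, h2⟩ := hg1 (Φ x) ⟨x, hx, rfl⟩
    exact hinj h1 hx h2
  have hlip : LipschitzOnWith L.toNNReal g (Φ '' K) := by
    apply LipschitzOnWith.of_dist_le_mul
    intro a ha b hb
    obtain ⟨h1, h2⟩ := hg1 a ha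
    obtain ⟨h3, h4⟩ := hg1 b hb
    have h5 := h _ h1 _ h3
    rw [h2, h4] at h5
    rw [Real.dist_eq, Real.dist_eq, Real.coe_toNNReal _ hL]
    exact h5
  exact (dimH_mono hg2).trans hlip.dimH_image_le

theorem phi_sub {a1 a2 b1 b2 t t' : ℝ} (h : t * b2 - a2 ≠ 0) (h' : t' * b2 - a2 ≠ 0) :
    (t * b1 - a1) / (t * b2 - a2) - (t' * b1 - a1) / (t' * b2 - a2) =
      (t' - t) * (b1 * a2 - b2 * a1) / ((t * b2 - a2) * (t' * b2 - a2)) := by
  rw [div_sub_div _ _ h h']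
  congr 1
  ring

theorem lower2 {q : ℕ} (α : Fin q → ℤ × ℤ) (S : Finset ℕ) (h0 : ∀ i, α i ≠ 0) (i1 i2 : Fin q)
    (hΔ : (α i2).1 * (α i1).2 - (α i2).2 * (α i1).1 ≠ 0) {κ c τ s : ℝ} (hκ0 : 0 ≤ κ)
    (hκ2 : κ < 2) (hτ : 2 - κ ≤ τ) (hs0 : 0 < s)
    (hs : s * τ < 2 - κ) : ENNReal.ofReal s ≤ dimH (W α S κ c τ) := by
  classical
  have h12 : i1 ≠ i2 := by
    rintro rfl
    exact hΔ (by ring)
  obtain ⟨a, ha⟩ : ∃ a, a = α i1 := ⟨_, rfl⟩
  obtain ⟨b, hb⟩ : ∃ b, b = α i2 := ⟨_, rfl⟩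
  obtain ⟨Δ, hΔd⟩ : ∃ Δ : ℤ, Δ = b.1 * a.2 - b.2 * a.1 := ⟨_, rfl⟩
  have hΔ0 : Δ ≠ 0 := by rw [hΔd, ha, hb]; exact hΔ
  have hΔR : (Δ : ℝ) ≠ 0 := by exact_mod_cast hΔ0
  have hΔe : (Δ : ℝ) = (b.1 : ℝ) * a.2 - b.2 * a.1 := by rw [hΔd]; push_cast; ring
  have hΔabs : 0 < |(Δ : ℝ)| := abs_pos.2 hΔR
  -- the start interval
  obtain ⟨y0, l0, hy0, hl00, hyl0, hstart⟩ := start2 (ι := Option (Fin q))
    (fun o => o.elim (b.2 : ℝ) fun i => (b.1 : ℝ) * (α i).2 - b.2 * (α i).1)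
    (fun o => o.elim (-(a.2 : ℝ)) fun i => -((a.1 : ℝ) * (α i).2 - a.2 * (α i).1)) (by
      intro o
      cases o with
      | none =>
        simp only [Option.elim]
        by_contra hcon
        push Not at hcon
        apply hΔR
        have h1 : (a.2 : ℝ) = 0 := by linarith [hcon.2]
        rw [hΔe, hcon.1, h1]
        ring
      | some i =>
        simp only [Option.elim]
        by_contra hcon
        push Not at hcon
        apply h0 i
        obtain ⟨h1, h2⟩ := hcon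
        have h3 : (Δ : ℝ) * (α i).1 = 0 := by
          rw [hΔe]
          linear_combination (b.1 : ℝ) * h2 + (a.1 : ℝ) * h1
        have h4 : (Δ : ℝ) * (α i).2 = 0 := by
          rw [hΔe]
          linear_combination (b.2 : ℝ) * h2 + (a.2 : ℝ) * h1
        refine Prod.ext ?_ ?_
        · exact_mod_cast (mul_eq_zero.1 h3).resolve_left hΔR
        · exact_mod_cast (mul_eq_zero.1 h4).resolve_left hΔR)
  have hpole : ∀ t, y0 ≤ t → t ≤ y0 + l0 → t * b.2 - a.2 ≠ 0 := by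
    intro t h1 h2
    have := hstart none t h1 h2
    simp only [Option.elim] at this
    intro h3
    apply this
    linarith
  have havoid : ∀ i, ∀ t, y0 ≤ t → t ≤ y0 + l0 →
      (t * b.1 - a.1) / (t * b.2 - a.2) * (α i).2 - (α i).1 ≠ 0 := by
    intro i t h1 h2 h3
    have h4 := hstart (some i) t h1 h2
    simp only [Option.elim] at h4
    apply h4
    have h5 := hpole t h1 h2
    rw [div_mul_eq_mul_div, sub_eq_zero, div_eq_iff h5] at h3
    linarith
  -- Lipschitz constants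
  obtain ⟨m0, hm00, hm0⟩ : ∃ m0 : ℝ, 0 < m0 ∧ ∀ t, y0 ≤ t → t ≤ y0 + l0 →
      m0 ≤ |t * b.2 - a.2| := by
    have hc : ContinuousOn (fun t : ℝ => |t * b.2 - a.2|) (Set.Icc y0 (y0 + l0)) :=
      (by fun_prop : Continuous (fun t : ℝ => |t * b.2 - a.2|)).continuousOn
    obtain ⟨t0, ht0, hmin⟩ := isCompact_Icc.exists_isMinOn
      (Set.nonempty_Icc.2 (by linarith : y0 ≤ y0 + l0)) hc
    exact ⟨|t0 * b.2 - a.2|, abs_pos.2 (hpole t0 ht0.1 ht0.2), fun t h1 h2 => hmin ⟨h1, h2⟩⟩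
  obtain ⟨L, hL⟩ : ∃ L : ℝ, L = max (|(Δ : ℝ)| / m0 ^ 2) 1 := ⟨_, rfl⟩
  have hL1 : 1 ≤ L := by rw [hL]; exact le_max_right _ _
  have hL0 : 0 < L := by linarith
  have hLlip : ∀ t t', y0 ≤ t → t ≤ y0 + l0 → y0 ≤ t' → t' ≤ y0 + l0 →
      |(t * b.1 - a.1) / (t * b.2 - a.2) - (t' * b.1 - a.1) / (t' * b.2 - a.2)| ≤
        L * |t - t'| := by
    intro t t' h1 h2 h3 h4
    rw [phi_sub (hpole t h1 h2) (hpole t' h3 h4), ← hΔe, abs_div, abs_mul, abs_mul,
      abs_sub_comm t' t]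
    have h5 := hm0 t h1 h2
    have h6 := hm0 t' h3 h4
    have h7 : m0 ^ 2 ≤ |t * b.2 - a.2| * |t' * b.2 - a.2| := by nlinarith
    calc |t - t'| * |(Δ : ℝ)| / (|t * b.2 - a.2| * |t' * b.2 - a.2|) ≤
        |t - t'| * |(Δ : ℝ)| / m0 ^ 2 := by
          apply div_le_div_of_nonneg_left (by positivity) (by positivity) h7
      _ = |(Δ : ℝ)| / m0 ^ 2 * |t - t'| := by ring
      _ ≤ L * |t - t'| := by
          apply mul_le_mul_of_nonneg_right _ (abs_nonneg _)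
          rw [hL]
          exact le_max_left _ _
  have hLinv : ∀ t t', y0 ≤ t → t ≤ y0 + l0 → y0 ≤ t' → t' ≤ y0 + l0 →
      |t - t'| ≤ ((2 * |(b.2 : ℝ)| + |(a.2 : ℝ)|) ^ 2 / |(Δ : ℝ)|) *
        |(t * b.1 - a.1) / (t * b.2 - a.2) - (t' * b.1 - a.1) / (t' * b.2 - a.2)| := by
    intro t t' h1 h2 h3 h4
    have hp := hpole t h1 h2
    have hp' := hpole t' h3 h4
    rw [phi_sub hp hp', ← hΔe, abs_div, abs_mul, abs_mul, abs_sub_comm t' t]
    have hb : ∀ z, y0 ≤ z → z ≤ y0 + l0 → |z * b.2 - a.2| ≤ 2 * |(b.2 : ℝ)| + |(a.2 : ℝ)| := by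
      intro z h5 h6
      have hz1 : |z| ≤ 2 := by rw [abs_of_nonneg (by linarith)]; linarith
      calc |z * b.2 - a.2| ≤ |z * b.2| + |(a.2 : ℝ)| := abs_sub _ _
        _ = |z| * |(b.2 : ℝ)| + |(a.2 : ℝ)| := by rw [abs_mul]
        _ ≤ _ := by gcongr
    have h5 := hb t h1 h2
    have h6 := hb t' h3 h4
    have h7 : 0 < |t * b.2 - a.2| := abs_pos.2 hp
    have h8 : 0 < |t' * b.2 - a.2| := abs_pos.2 hp'
    have h9 : |t * b.2 - a.2| * |t' * b.2 - a.2| ≤ (2 * |(b.2 : ℝ)| + |(a.2 : ℝ)|) ^ 2 := by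
      nlinarith
    calc |t - t'| = (|t * b.2 - a.2| * |t' * b.2 - a.2|) / |(Δ : ℝ)| *
        (|t - t'| * |(Δ : ℝ)| / (|t * b.2 - a.2| * |t' * b.2 - a.2|)) := by field_simp
      _ ≤ _ := by gcongr
  set CH : ℕ := a.1.natAbs + a.2.natAbs + b.1.natAbs + b.2.natAbs with hCH
  have hCH1 : 1 ≤ CH := by
    by_contra hcon
    have h1 : a.1.natAbs = 0 := by omega
    have h2 : a.2.natAbs = 0 := by omega
    apply hΔ0
    rw [hΔd, Int.natAbs_eq_zero.1 h1, Int.natAbs_eq_zero.1 h2]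
    ring
  have hCHR : (1 : ℝ) ≤ CH := by exact_mod_cast hCH1
  have hCHp : (0 : ℝ) < CH := by linarith
  obtain ⟨ρ, hρ⟩ : ∃ ρ, ρ = 2 - κ := ⟨_, rfl⟩
  have hρ0 : 0 < ρ := by linarith
  have hρ2 : ρ ≤ 2 := by linarith
  have hτ0 : 0 < τ := by linarith
  have hs1 : s < 1 := by
    by_contra hcon
    push Not at hcon
    nlinarith
  obtain ⟨g, hg⟩ : ∃ g, g = ρ - s * τ := ⟨_, rfl⟩
  have hg0 : 0 < g := by linarith
  have hgρ : g ≤ ρ := by
    have : 0 < s * τ := by positivity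
    linarith
  obtain ⟨δ, hδ⟩ : ∃ δ, δ = g / 8 := ⟨_, rfl⟩
  have hδ0 : 0 < δ := by linarith
  obtain ⟨A, hA⟩ : ∃ A : ℕ, A = ⌈(τ + 1) / δ⌉₊ + 2 := ⟨_, rfl⟩
  have hAδ : τ + 1 ≤ δ * A := by
    have h1 := Nat.le_ceil ((τ + 1) / δ)
    rw [div_le_iff₀ hδ0] at h1
    rw [hA]
    push_cast
    nlinarith
  have hA0 : (0 : ℝ) ≤ A := Nat.cast_nonneg _
  obtain ⟨η, hη⟩ : ∃ η, η = min (1 / 16) (g / (4 * (4 + 3 * A))) := ⟨_, rfl⟩
  have hη0 : 0 < η := by
    rw [hη]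
    exact lt_min (by norm_num) (by positivity)
  have hη2 : η ≤ 1 / 16 := by rw [hη]; exact min_le_left _ _
  have hη3 : η * (4 + 3 * A) ≤ g / 4 := by
    have : η ≤ g / (4 * (4 + 3 * A)) := by rw [hη]; exact min_le_right _ _
    rw [le_div_iff₀ (by positivity)] at this
    linarith
  have hη4 : η ≤ g / 16 := by
    have : 0 ≤ η * A := by positivity
    linarith
  obtain ⟨ω, hω⟩ : ∃ ω, ω = (ρ - η) / 2 := ⟨_, rfl⟩
  have hω1 : ω < 1 := by linarith
  have hωδ : η + δ < ω := by linarith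
  have hkey : s * (τ + 3 * η * A) ≤ 2 * ω - 3 * η - δ := by
    have h1 : s * (3 * η * A) ≤ 3 * η * A := by
      have : 0 ≤ 3 * η * A := by positivity
      nlinarith
    rw [hω]
    nlinarith
  -- large parameters
  have hQlim : Tendsto (fun N : ℕ => (2 : ℝ) ^ N) atTop atTop :=
    tendsto_pow_atTop_atTop_of_one_lt (by norm_num)
  have hpow : ∀ t : ℝ, 0 < t → ∀ B : ℝ, ∀ᶠ N : ℕ in atTop, B ≤ ((2 : ℝ) ^ N) ^ t := fun t ht B =>
    ((tendsto_rpow_atTop ht).comp hQlim).eventually_ge_atTop B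
  obtain ⟨C0, hC0⟩ : ∃ C0, C0 = κ * Real.log CH + (cst α + 2 * Real.log (Δ.natAbs : ℝ)) - c +
    Real.log 2 + 2 * Real.log 3 := ⟨_, rfl⟩
  have hlin : ∀ᶠ N : ℕ in atTop, C0 < η * N * Real.log 2 := by
    have h1 : Tendsto (fun N : ℕ => (η * Real.log 2) * (N : ℝ)) atTop atTop :=
      tendsto_natCast_atTop_atTop.const_mul_atTop (by positivity)
    filter_upwards [h1.eventually_gt_atTop C0] with N hN
    linarith
  obtain ⟨N0, hN0⟩ := eventually_atTop.1 ((level2 (ω := ω) (η := η) (δ := δ) hω1 hη0 hη2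
    hδ0.le hωδ).and ((hpow δ hδ0 l0⁻¹).and ((hpow η hη0 6).and ((hpow 1 one_pos
      (L * (CH : ℝ) ^ τ)).and ((hpow (ρ / 2) (by linarith) 2).and hlin)))))
  obtain ⟨Nn, hNn⟩ : ∃ f : ℕ → ℕ, ∀ n, f n = (N0 + 1) * A ^ n := ⟨_, fun _ => rfl⟩
  have hNN : ∀ n, N0 ≤ Nn n := by
    intro n
    rw [hNn]
    have h1 : 1 ≤ A ^ n := Nat.one_le_pow _ _ (by omega)
    calc N0 ≤ (N0 + 1) * 1 := by omega
      _ ≤ _ := Nat.mul_le_mul_left _ h1
  obtain ⟨Q, hQ⟩ : ∃ Q : ℕ → ℝ, ∀ n, (2 : ℝ) ^ Nn n = Q n := ⟨_, fun _ => rfl⟩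
  have hQ1 : ∀ n, 1 ≤ Q n := fun n => by rw [← hQ]; exact one_le_pow₀ (by norm_num)
  have hQ0 : ∀ n, 0 < Q n := fun n => lt_of_lt_of_le one_pos (hQ1 n)
  have hQS : ∀ n, Q (n + 1) = Q n ^ (A : ℝ) := by
    intro n
    rw [Real.rpow_natCast]
    rw [← hQ, ← hQ, hNn, hNn, ← pow_mul]
    congr 1
    ring
  have hN1 := fun n => hN0 _ (hNN n)
  simp only [hQ] at hN1
  have hc1 : ∀ n, l0⁻¹ ≤ Q n ^ δ := fun n => (hN1 n).2.1
  have hc2 : ∀ n, 6 ≤ Q n ^ η := fun n => (hN1 n).2.2.1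
  have hc3 : ∀ n, L * (CH : ℝ) ^ τ ≤ Q n := fun n => by
    have := (hN1 n).2.2.2.1
    rwa [Real.rpow_one] at this
  have hc4 : ∀ n, 2 ≤ Q n ^ (ρ / 2) := fun n => (hN1 n).2.2.2.2.1
  have hc5 : ∀ n, C0 < η * Nn n * Real.log 2 := fun n => (hN1 n).2.2.2.2.2
  have hlev := fun n => (hN1 n).1
  choose k j hkN hkβ hk1 hj1 hkj1 hkj2 hke hlev2 using hlev
  obtain ⟨l, hlz, hlS⟩ : ∃ l : ℕ → ℝ, l 0 = l0 ∧ ∀ n, l (n + 1) = (CH * Q n) ^ (-τ) / L :=
    ⟨fun n => Nat.casesOn n l0 (fun n => (CH * Q n) ^ (-τ) / L), rfl, fun n => rfl⟩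
  have hlS2 : ∀ n, l (n + 1) ≤ Q n ^ (-τ) := by
    intro n
    rw [hlS]
    have h1 : ((CH : ℝ) * Q n) ^ (-τ) ≤ Q n ^ (-τ) := by
      apply Real.rpow_le_rpow_of_nonpos (hQ0 n) _ (by linarith)
      have := hQ0 n
      nlinarith
    have h2 : 0 ≤ ((CH : ℝ) * Q n) ^ (-τ) :=
      Real.rpow_nonneg (mul_nonneg hCHp.le (hQ0 n).le) _
    exact (div_le_self h2 hL1).trans h1
  have hllow : ∀ n, Q n ^ (-δ) ≤ l n := by
    intro n
    cases n with
    | zero =>
      rw [hlz, Real.rpow_neg (hQ0 0).le, inv_le_comm₀ (Real.rpow_pos_of_pos (hQ0 0) _) hl00]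
      exact hc1 0
    | succ n =>
      rw [hlS, hQS, ← Real.rpow_mul (hQ0 n).le]
      calc Q n ^ ((A : ℝ) * -δ) ≤ Q n ^ (-1 + -τ) :=
            Real.rpow_le_rpow_of_exponent_le (hQ1 n) (by nlinarith)
        _ = (Q n)⁻¹ * Q n ^ (-τ) := by
            rw [Real.rpow_add (hQ0 n), Real.rpow_neg_one]
        _ ≤ (L * (CH : ℝ) ^ τ)⁻¹ * Q n ^ (-τ) := by
            apply mul_le_mul_of_nonneg_right _ (Real.rpow_nonneg (hQ0 n).le _)
            exact inv_anti₀ (by positivity) (hc3 n)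
        _ = ((CH : ℝ) ^ (-τ) * Q n ^ (-τ)) / L := by
            rw [Real.rpow_neg hCHp.le, mul_inv]
            field_simp
        _ = _ := by rw [← Real.mul_rpow hCHp.le (hQ0 n).le]
  have hl0' : ∀ n, 0 < l n := fun n => lt_of_lt_of_le (Real.rpow_pos_of_pos (hQ0 n) _) (hllow n)
  have hhalf : ∀ n, l (n + 1) ≤ l n / 2 := by
    intro n
    refine (hlS2 n).trans ?_
    rw [le_div_iff₀ (by norm_num)]
    refine le_trans ?_ (hllow n)
    calc Q n ^ (-τ) * 2 ≤ Q n ^ (-τ) * Q n ^ (ρ / 2) :=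
          mul_le_mul_of_nonneg_left (hc4 n) (Real.rpow_nonneg (hQ0 n).le _)
      _ = Q n ^ (-τ + ρ / 2) := (Real.rpow_add (hQ0 n) _ _).symm
      _ ≤ _ := Real.rpow_le_rpow_of_exponent_le (hQ1 n) (by linarith)
  have hlev3 := fun n => hlev2 n (l n) (hllow n)
  choose 𝒰 V M h𝒰 hV hV3 hU hm2 hM hd1 hd2 using hlev3
  obtain ⟨m, hm⟩ : ∃ m : ℕ → ℕ, ∀ n, (𝒰 n).card * M n = m n := ⟨_, fun _ => rfl⟩
  obtain ⟨P, hP⟩ : ∃ P : ℕ → ℝ, ∀ n, (2 : ℝ) ^ k n / 3 ^ j n = P n := ⟨_, fun _ => rfl⟩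
  obtain ⟨e, he⟩ : ∃ e : ℕ → ℝ, ∀ n, P n / (P n * 2 ^ (Nn n - k n)) ^ 2 = e n :=
    ⟨_, fun _ => rfl⟩
  simp only [hm, hP, he] at hm2 hd1 hd2 hM
  simp only [hP, he] at hke
  have hP0 : ∀ n, 0 < P n := fun n => by rw [← hP]; positivity
  have hP1 : ∀ n, 1 ≤ P n := fun n => by
    rw [← hP, le_div_iff₀ (by positivity), one_mul]
    exact hkj1 n
  have he0 : ∀ n, 0 < e n := fun n => by
    rw [← he]
    have := hP0 n
    positivity
  have hle : ∀ n, l (n + 1) ≤ e n / 2 := by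
    intro n
    refine (hlS2 n).trans ?_
    have h1 := hke n
    have h2 : Q n ^ (-τ) * 6 ≤ Q n ^ (-(2 * ω)) := by
      calc Q n ^ (-τ) * 6 ≤ Q n ^ (-τ) * Q n ^ η :=
            mul_le_mul_of_nonneg_left (hc2 n) (Real.rpow_nonneg (hQ0 n).le _)
        _ = Q n ^ (-τ + η) := (Real.rpow_add (hQ0 n) _ _).symm
        _ ≤ _ := Real.rpow_le_rpow_of_exponent_le (hQ1 n) (by linarith)
    linarith
  -- the sets of left end points
  obtain ⟨G, hGz, hGS⟩ : ∃ G : ℕ → ℝ → Prop, (∀ a, G 0 a) ∧ ∀ n t, G (n + 1) t ↔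
      ∃ u v : ℕ, t = (2 : ℝ) ^ k n * u / (3 ^ j n * v) ∧ u % 3 ≠ 0 ∧ v % 2 = 1 ∧
        2 ^ k n * u ≤ 2 ^ Nn n ∧ 3 ^ j n * v ≤ 2 ^ Nn n :=
    ⟨fun n t => Nat.casesOn n True (fun n => ∃ u v : ℕ, t = (2 : ℝ) ^ k n * u / (3 ^ j n * v) ∧
      u % 3 ≠ 0 ∧ v % 2 = 1 ∧ 2 ^ k n * u ≤ 2 ^ Nn n ∧ 3 ^ j n * v ≤ 2 ^ Nn n),
      fun _ => trivial, fun _ _ => Iff.rfl⟩
  set I : ℕ → Set ℝ := fun n => {t | y0 ≤ t ∧ t + l n ≤ y0 + l0 ∧ G n t} with hI
  have hcantor := cantor m (fun n => by have := hm2 n; omega) e l he0 hle hl0' I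
    ⟨y0, le_rfl, by rw [hlz], hGz _⟩ ?_ s
    (max ((L * (CH : ℝ) ^ τ) ^ s) ((m 0 * e 0) ^ s)⁻¹) hs0 hs1.le ?_ ?_
  · -- conclusion
    set K0 : Set ℝ := {ξ : ℝ | ∀ n, ∃ c ∈ I n, c ≤ ξ ∧ ξ ≤ c + l n} with hK0
    have hK0i : ∀ t ∈ K0, y0 ≤ t ∧ t ≤ y0 + l0 := by
      intro t ht
      obtain ⟨z, ⟨h1, h2, _⟩, h3, h4⟩ := ht 0
      exact ⟨by linarith, by linarith⟩
    set Φ : ℝ → ℝ := fun t => (t * b.1 - a.1) / (t * b.2 - a.2) with hΦ
    have hdimΦ : dimH K0 ≤ dimH (Φ '' K0) := by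
      refine dimH_image_ge K0 Φ (L := (2 * |(b.2 : ℝ)| + |(a.2 : ℝ)|) ^ 2 / |(Δ : ℝ)|)
        (by positivity) ?_
      intro t ht t' ht'
      exact hLinv t t' (hK0i t ht).1 (hK0i t ht).2 (hK0i t' ht').1 (hK0i t' ht').2
    have hsub : Φ '' K0 ⊆ W α S κ c τ ∪ Set.range ((↑) : ℚ → ℝ) := by
      rintro ξ ⟨t, htK, rfl⟩
      by_cases hrat : Φ t ∈ Set.range ((↑) : ℚ → ℝ)
      · exact Or.inr hrat
      left
      intro hfin
      -- the approximations
      have happ : ∀ n, ∃ x : ℚ, ((∀ i, form (α i) x ≠ 0) ∧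
          N1 α S x < (q - κ) * Real.log (H x) + c ∧ |Φ t - x| ≤ (H x : ℝ) ^ (-τ)) ∧
          |Φ t - x| ≤ L * l (n + 1) := by
        intro n
        obtain ⟨z, ⟨hz1, hz2, hz3⟩, hz4, hz5⟩ := htK (n + 1)
        have hzl := hl0' (n + 1)
        have hzu : z ≤ y0 + l0 := by linarith
        obtain ⟨u, v, hzuv, hu3, hv2, huQ, hvQ⟩ := (hGS n z).1 hz3
        have hv0 : (v : ℝ) ≠ 0 := by
          have : v ≠ 0 := by rintro rfl; simp at hv2
          exact_mod_cast this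
        have h3v : (3 : ℝ) ^ j n * v ≠ 0 := mul_ne_zero (by positivity) hv0
        have hden1 : (2 : ℝ) ^ k n * u * b.2 - 3 ^ j n * v * a.2 =
            (3 ^ j n * v) * (z * b.2 - a.2) := by
          rw [hzuv]
          field_simp
        have hnum1 : (2 : ℝ) ^ k n * u * b.1 - 3 ^ j n * v * a.1 =
            (3 ^ j n * v) * (z * b.1 - a.1) := by
          rw [hzuv]
          field_simp
        have hden : (2 : ℤ) ^ k n * u * b.2 - 3 ^ j n * v * a.2 ≠ 0 := by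
          intro h
          have h' : (2 : ℝ) ^ k n * u * b.2 - 3 ^ j n * v * a.2 = 0 := by exact_mod_cast h
          rw [hden1] at h'
          exact mul_ne_zero h3v (hpole z hz1 hzu) h'
        obtain ⟨x, hx1, hx2, hx3, hx4⟩ := point2 hu3 hv2 huQ hvQ hden
        have hxΦ : (x : ℝ) = Φ z := by
          rw [hx1, hden1, hnum1, mul_div_mul_left _ _ h3v]
        have hne : ∀ i, form (α i) x ≠ 0 := by
          intro i
          apply form_ne
          rw [hxΦ]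
          exact havoid i z hz1 hzu
        have hHpos : (0 : ℝ) < H x := by exact_mod_cast H_pos x
        have hxH : (H x : ℝ) ≤ CH * Q n := by
          rw [← hQ]
          exact_mod_cast hx2
        have ht := hK0i t htK
        have hdist : |Φ t - x| ≤ L * l (n + 1) := by
          rw [hxΦ]
          refine (hLlip t z ht.1 ht.2 hz1 hzu).trans ?_
          apply mul_le_mul_of_nonneg_left _ hL0.le
          rw [abs_of_nonneg (by linarith)]
          linarith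
        refine ⟨x, ⟨hne, ?_, ?_⟩, hdist⟩
        · have h1 := N1_le2 α S hne h12 hΔ0 (hk1 n) (hj1 n)
            (by rw [hΔd, ← ha]; exact hx3) (by rw [hΔd, ← hb]; exact hx4)
          have h2 : Real.log (H x) ≤ Real.log CH + Nn n * Real.log 2 := by
            calc Real.log (H x) ≤ Real.log (CH * Q n) := Real.log_le_log hHpos hxH
              _ = _ := by
                rw [Real.log_mul hCHp.ne' (hQ0 n).ne', ← hQ, Real.log_pow]
          have h3 := hc5 n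
          rw [hC0] at h3
          have h4 := hkβ n
          have h5 : 0 < Real.log 2 := Real.log_pos (by norm_num)
          have h6 : κ * Real.log (H x) ≤ κ * (Real.log CH + Nn n * Real.log 2) :=
            mul_le_mul_of_nonneg_left h2 hκ0
          have h7 : (1 - ω) * Nn n * Real.log 2 ≤ k n * Real.log 2 :=
            mul_le_mul_of_nonneg_right h4 h5.le
          have h8 : k n * Real.log 2 ≤ Real.log 3 + j n * Real.log 3 := by
            have h9 := Real.log_le_log (by positivity) (hkj2 n)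
            rw [Real.log_pow, Real.log_mul (by norm_num) (by positivity), Real.log_pow] at h9
            exact h9
          have h10 : (1 - ω) * 2 = κ + η := by rw [hω, hρ]; ring
          have h11 : (κ + η) * (Nn n * Real.log 2) ≤ k n * Real.log 2 + j n * Real.log 3 +
              Real.log 3 := by
            rw [← h10]
            linarith
          linarith
        · refine hdist.trans ?_
          rw [hlS, mul_div_cancel₀ _ hL0.ne']
          exact Real.rpow_le_rpow_of_nonpos hHpos hxH (by linarith)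
      have hdpos : ∃ d : ℝ, 0 < d ∧ ∀ x ∈ hfin.toFinset, d ≤ |Φ t - (x : ℝ)| := by
        rcases hfin.toFinset.eq_empty_or_nonempty with h | h
        · exact ⟨1, one_pos, by rw [h]; simp⟩
        · obtain ⟨x, hx, hmin⟩ := hfin.toFinset.exists_min_image (fun x => |Φ t - (x : ℝ)|) h
          refine ⟨|Φ t - x|, abs_pos.2 (sub_ne_zero.2 fun h => hrat ⟨x, h.symm⟩), hmin⟩
      obtain ⟨d, hd, hdall⟩ := hdpos
      have hln : ∀ n, l n ≤ l0 * (1 / 2) ^ n := by
        intro n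
        induction n with
        | zero => rw [hlz]; simp
        | succ n ih =>
          refine (hhalf n).trans ?_
          rw [pow_succ]
          linarith
      obtain ⟨n, hn⟩ := exists_pow_lt_of_lt_one (show 0 < d / (L * l0) by positivity)
        (show (1 / 2 : ℝ) < 1 by norm_num)
      rw [lt_div_iff₀ (by positivity)] at hn
      obtain ⟨x, hx, hx2⟩ := happ n
      have h1 := hdall x (hfin.mem_toFinset.2 hx)
      have h2 := hln (n + 1)
      rw [pow_succ] at h2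
      have h3 : 0 < L * (l0 * (1 / 2) ^ n) := by positivity
      have h4 : L * l (n + 1) ≤ L * (l0 * ((1 / 2) ^ n * (1 / 2))) :=
        mul_le_mul_of_nonneg_left h2 hL0.le
      linarith
    have h1 : dimH (Φ '' K0) ≤ dimH (W α S κ c τ) := by
      refine (dimH_mono hsub).trans ?_
      rw [dimH_union, (Set.countable_range ((↑) : ℚ → ℝ)).dimH_zero]
      simp
    exact hcantor.trans (hdimΦ.trans h1)
  · -- the refinement
    rintro n z ⟨hz1, hz2, hz3⟩
    have hl := hl0' n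
    obtain ⟨f, hf1, hf2⟩ := pts (p := 2) Nat.prime_two (𝒰 n) (h𝒰 n) (P := P n)
      (V := V n) (U := (2 : ℝ) ^ (Nn n - k n)) (y := z) (l := l n / 2) (M := M n) (hP1 n) (hV n)
      (fun u hu => by exact_mod_cast hU n u hu) (by linarith) (by linarith)
      (by linarith) (hM n)
    refine ⟨f, fun i hi => ?_, fun i i' hij hj => ?_⟩
    · obtain ⟨u, hu, v, hv1, hv2, hv3, hv4, hv5⟩ := hf1 i (by rw [hm]; exact hi)
      have h2 : f i + l (n + 1) ≤ z + l n := by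
        have := hhalf n
        linarith
      refine ⟨⟨by linarith, by linarith, ?_⟩, hv4, h2⟩
      have huU := hU n u hu
      have h3jv : 3 ^ j n * v ≤ 2 ^ k n * u := by
        have h5 : (v : ℝ) ≤ (2 : ℝ) ^ k n / 3 ^ j n * u := by rw [hP]; exact hv2
        rw [div_mul_eq_mul_div, le_div_iff₀ (by positivity)] at h5
        have h6 : (3 : ℝ) ^ j n * v ≤ 2 ^ k n * u := by linarith
        exact_mod_cast h6
      have hQn : 2 ^ k n * u ≤ 2 ^ Nn n := by
        calc 2 ^ k n * u ≤ 2 ^ k n * 2 ^ (Nn n - k n) := Nat.mul_le_mul_left _ huU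
          _ = 2 ^ Nn n := by
            rw [← pow_add]
            congr 1
            have := hkN n
            omega
      refine (hGS n _).2 ⟨u, v, ?_, ?_, hv1, hQn, h3jv.trans hQn⟩
      · rw [hv3, ← hP]
        have hv0 : (v : ℝ) ≠ 0 := by
          have : v ≠ 0 := by rintro rfl; simp at hv1
          exact_mod_cast this
        field_simp
      · intro h3
        have h4 : 3 ∣ u := Nat.dvd_of_mod_eq_zero h3
        have h5 : 3 = u := (Nat.prime_dvd_prime_iff_eq Nat.prime_three (h𝒰 n u hu)).1 h4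
        have h6 := hV n u hu
        have h7 := hV3 n
        rw [← h5] at h6
        push_cast at h6
        linarith
    · have h1 := hf2 i i' hij (by rw [hm]; exact hj)
      rw [he] at h1
      exact h1
  · -- the dimension condition
    intro n
    cases n with
    | zero =>
      simp only [Finset.range_zero, Finset.prod_empty, inv_one]
      have h1 : (0 : ℝ) < (m 0 * e 0) ^ s := by
        apply Real.rpow_pos_of_pos
        have h2 : 0 < m 0 := by have := hm2 0; omega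
        have h3 : (0 : ℝ) < m 0 := by exact_mod_cast h2
        have h4 := he0 0
        positivity
      calc (1 : ℝ) = ((m 0 * e 0) ^ s)⁻¹ * (m 0 * e 0) ^ s := (inv_mul_cancel₀ h1.ne').symm
        _ ≤ _ := mul_le_mul_of_nonneg_right (le_max_right _ _) h1.le
    | succ n =>
      have hq := hQ0 n
      have h1 : (m n : ℝ) ≤ ∏ i ∈ Finset.range (n + 1), (m i : ℝ) := by
        rw [Finset.prod_range_succ]
        have h2 : (1 : ℝ) ≤ ∏ i ∈ Finset.range n, (m i : ℝ) := by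
          have : 1 ≤ ∏ i ∈ Finset.range n, m i := Finset.one_le_prod' fun i _ => by
            have := hm2 i; omega
          exact_mod_cast this
        have h3 : (0 : ℝ) ≤ m n := Nat.cast_nonneg _
        nlinarith
      have h2 : Q n ^ (2 * ω - 3 * η - δ) ≤ m n := by
        refine le_trans ?_ (hd1 n)
        calc Q n ^ (2 * ω - 3 * η - δ) = Q n ^ (2 * ω - 3 * η) * Q n ^ (-δ) := by
              rw [← Real.rpow_add hq]; congr 1
          _ ≤ _ := mul_le_mul_of_nonneg_left (hllow n) (Real.rpow_nonneg hq.le _)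
      have h3 : (∏ i ∈ Finset.range (n + 1), (m i : ℝ))⁻¹ ≤ Q n ^ (-(2 * ω - 3 * η - δ)) := by
        rw [Real.rpow_neg hq.le]
        exact inv_anti₀ (Real.rpow_pos_of_pos hq _) (h2.trans h1)
      refine h3.trans ?_
      have hLC : 0 < L * (CH : ℝ) ^ τ := by positivity
      have h4 : (L * (CH : ℝ) ^ τ)⁻¹ * Q n ^ (-(τ + 3 * η * A)) ≤ m (n + 1) * e (n + 1) := by
        refine le_trans (le_of_eq ?_) (hd2 (n + 1))
        rw [hlS, hQS, ← Real.rpow_mul hq.le, Real.mul_rpow hCHp.le hq.le]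
        have e2 : Q n ^ (-(τ + 3 * η * A)) = Q n ^ ((A : ℝ) * -(3 * η)) * Q n ^ (-τ) := by
          rw [← Real.rpow_add hq]
          congr 1
          ring
        rw [e2, Real.rpow_neg hCHp.le, mul_inv]
        field_simp
      have h5 : ((L * (CH : ℝ) ^ τ) ^ s)⁻¹ * Q n ^ (-(s * (τ + 3 * η * A))) ≤
          (m (n + 1) * e (n + 1)) ^ s := by
        have e3 : ((L * (CH : ℝ) ^ τ) ^ s)⁻¹ * Q n ^ (-(s * (τ + 3 * η * A))) =
            ((L * (CH : ℝ) ^ τ)⁻¹ * Q n ^ (-(τ + 3 * η * A))) ^ s := by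
          rw [Real.mul_rpow (inv_nonneg.2 hLC.le) (Real.rpow_nonneg hq.le _),
            Real.inv_rpow hLC.le, ← Real.rpow_mul hq.le]
          congr 2
          ring
        rw [e3]
        exact Real.rpow_le_rpow (mul_nonneg (inv_nonneg.2 hLC.le)
          (Real.rpow_nonneg hq.le _)) h4 hs0.le
      have hCs : 0 < (L * (CH : ℝ) ^ τ) ^ s := Real.rpow_pos_of_pos hLC _
      calc Q n ^ (-(2 * ω - 3 * η - δ)) ≤ Q n ^ (-(s * (τ + 3 * η * A))) :=
            Real.rpow_le_rpow_of_exponent_le (hQ1 n) (by linarith)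
        _ = (L * (CH : ℝ) ^ τ) ^ s * (((L * (CH : ℝ) ^ τ) ^ s)⁻¹ *
            Q n ^ (-(s * (τ + 3 * η * A)))) := by
            rw [mul_inv_cancel_left₀ hCs.ne']
        _ ≤ (L * (CH : ℝ) ^ τ) ^ s * (m (n + 1) * e (n + 1)) ^ s :=
            mul_le_mul_of_nonneg_left h5 hCs.le
        _ ≤ _ := by
            apply mul_le_mul_of_nonneg_right (le_max_left _ _)
            apply Real.rpow_nonneg
            have := he0 (n + 1)
            positivity
  · -- the product tends to infinity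
    intro y hy
    have hprod : ∀ n, (2 : ℝ) ^ n ≤ ∏ i ∈ Finset.range n, (m i : ℝ) := by
      intro n
      induction n with
      | zero => simp
      | succ n ih =>
        rw [pow_succ, Finset.prod_range_succ]
        have : (2 : ℝ) ≤ m n := by exact_mod_cast hm2 n
        gcongr
    obtain ⟨n, hn⟩ := exists_pow_lt_of_lt_one hy (show (1 / 2 : ℝ) < 1 by norm_num)
    refine ⟨n, lt_of_le_of_lt ?_ hn⟩
    rw [one_div, inv_pow]
    exact inv_anti₀ (by positivity) (hprod n)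

end Pool.Agent.X123.ML
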