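import Mathlib

/-! (copy of Pool.Agent.X35.MF.Mean by helper35, without its import)
# The mean square of the Fourier coefficients of a function `f` with `y ^ k |f|` bounded, and the sets of large coefficients
-/

set_option autoImplicit false

namespace Pool.Agent.X123.ML

open Finset Polynomial Complex

/-- a polynomial bounded by `M` on the unit circle -/
theorem poly_sq_le (P : ℂ[X]) (M : ℝ) (h : ∀ w : ℂ, ‖w‖ = 1 → ‖P.eval w‖ ≤ M) (N : ℕ) :
    ∑ n ∈ range N, ‖P.coeff n‖ ^ 2 ≤ M ^ 2 := by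
  have h1 := P.sum_sq_norm_coeff_eq_circleAverage
  have h2 : Real.circleAverage (fun θ ↦ ‖P.eval θ‖ ^ 2) 0 1 ≤ M ^ 2 := by
    apply Real.circleAverage_mono_on_of_le_circle
    · apply ContinuousOn.circleIntegrable'
      fun_prop
    · intro x hx
      have : ‖x‖ = 1 := by
        rw [mem_sphere_iff_norm, sub_zero, abs_one] at hx
        exact hx
      exact pow_le_pow_left₀ (norm_nonneg _) (h x this) 2
  rw [← h1] at h2
  refine le_trans ?_ h2
  have h3 : ∑ n ∈ range N, ‖P.coeff n‖ ^ 2 = ∑ n ∈ (range N).filter (fun n => n ∈ P.support), ‖P.coeff n‖ ^ 2 := by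
    rw [sum_filter]
    apply sum_congr rfl
    intro n _
    split_ifs with hn
    · rfl
    · rw [Polynomial.notMem_support_iff.1 hn]
      simp
  rw [h3]
  apply sum_le_sum_of_subset_of_nonneg
  · intro n hn
    exact (mem_filter.1 hn).2
  · intro n _ _
    positivity

/-- a power series bounded by `M` on a circle of radius `ρ` -/
theorem series_sq_le (a : ℕ → ℂ) (ρ M : ℝ) (hρ : 0 ≤ ρ) (hsum : Summable (fun n => ‖a n‖ * ρ ^ n))
    (h : ∀ w : ℂ, ‖w‖ = ρ → ‖∑' n, a n * w ^ n‖ ≤ M) (N : ℕ) :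
    ∑ n ∈ range N, (‖a n‖ * ρ ^ n) ^ 2 ≤ M ^ 2 := by
  have hM : 0 ≤ M := le_trans (norm_nonneg _) (h (ρ : ℂ) (by rw [Complex.norm_real, Real.norm_of_nonneg hρ]))
  -- the bound with an error term
  have key : ∀ δ : ℝ, 0 < δ → ∑ n ∈ range N, (‖a n‖ * ρ ^ n) ^ 2 ≤ (M + δ) ^ 2 := by
    intro δ hδ
    have ht := hsum.hasSum.tendsto_sum_nat
    have hev : ∀ᶠ K in Filter.atTop, (∑' n, ‖a n‖ * ρ ^ n) - δ < ∑ n ∈ range K, ‖a n‖ * ρ ^ n :=
      ht.eventually (lt_mem_nhds (by linarith))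
    obtain ⟨K, hK⟩ := (hev.and (Filter.eventually_ge_atTop N)).exists
    obtain ⟨hK1, hK2⟩ := hK
    set P : ℂ[X] := ∑ n ∈ range K, Polynomial.C (a n * ρ ^ n) * X ^ n with hP
    have hcoef : ∀ n < K, P.coeff n = a n * ρ ^ n := by
      intro n hn
      rw [hP, finsetSum_coeff]
      simp only [coeff_C_mul, coeff_X_pow]
      rw [sum_eq_single n]
      · simp
      · intro m _ hm
        rw [if_neg (fun h => hm h.symm), mul_zero]
      · intro h
        exact absurd (mem_range.2 hn) h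
    have hb : ∀ w : ℂ, ‖w‖ = 1 → ‖P.eval w‖ ≤ M + δ := by
      intro w hw
      have e1 : P.eval w = ∑ n ∈ range K, a n * (ρ * w) ^ n := by
        rw [hP, eval_finsetSum]
        apply sum_congr rfl
        intro n _
        rw [eval_mul, eval_C, eval_pow, eval_X, mul_pow]
        ring
      have hnorm : ‖(ρ : ℂ) * w‖ = ρ := by rw [norm_mul, hw, mul_one, Complex.norm_real, Real.norm_of_nonneg hρ]
      have hs : Summable (fun n => a n * ((ρ : ℂ) * w) ^ n) := by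
        apply Summable.of_norm
        refine hsum.congr fun n => ?_
        rw [norm_mul, norm_pow, hnorm]
      have e2 : ∑ n ∈ range K, a n * (ρ * w) ^ n = (∑' n, a n * (ρ * w) ^ n) - ∑' n, a (n + K) * (ρ * w) ^ (n + K) := by
        rw [← hs.sum_add_tsum_nat_add K]
        ring
      have hs' : Summable (fun n => ‖a (n + K)‖ * ρ ^ (n + K)) := (summable_nat_add_iff K).2 hsum
      have e3 : ‖∑' n, a (n + K) * ((ρ : ℂ) * w) ^ (n + K)‖ ≤ δ := by
        have e4 : ∀ n, ‖a (n + K) * ((ρ : ℂ) * w) ^ (n + K)‖ = ‖a (n + K)‖ * ρ ^ (n + K) := by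
          intro n
          rw [norm_mul, norm_pow, hnorm]
        have h5 := norm_tsum_le_tsum_norm (f := fun n => a (n + K) * ((ρ : ℂ) * w) ^ (n + K)) (by
          simp only [e4]
          exact hs')
        simp only [e4] at h5
        have h6 := hsum.sum_add_tsum_nat_add K
        linarith
      rw [e1, e2]
      have h7 := h _ hnorm
      exact (norm_sub_le _ _).trans (add_le_add h7 e3)
    have h8 := poly_sq_le P (M + δ) hb N
    refine le_trans (le_of_eq ?_) h8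
    apply sum_congr rfl
    intro n hn
    rw [hcoef n (lt_of_lt_of_le (mem_range.1 hn) hK2), norm_mul, norm_pow, Complex.norm_real, Real.norm_of_nonneg hρ]
  by_contra hcon
  push Not at hcon
  have hcont : Filter.Tendsto (fun δ : ℝ => (M + δ) ^ 2) (nhdsWithin 0 (Set.Ioi 0)) (nhds ((M + 0) ^ 2)) := by
    apply Filter.Tendsto.mono_left _ nhdsWithin_le_nhds
    exact ((continuous_const.add continuous_id).pow 2).tendsto 0
  rw [add_zero] at hcont
  have h9 := ge_of_tendsto hcont (by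
    filter_upwards [self_mem_nhdsWithin] with δ hδ
    exact key δ hδ)
  exact absurd h9 (not_le.2 hcon)

/-- the mean square of the coefficients of `f` with `y ^ k |f| ≤ C` -/
theorem mean_sq (a : ℕ → ℂ) (f : ℂ → ℂ) (k C : ℝ) (hk : 0 ≤ k) (hC : 0 ≤ C)
    (hf : ∀ z : ℂ, 0 < z.im → HasSum (fun n : ℕ => a n * cexp (2 * Real.pi * I * n * z)) (f z))
    (hb : ∀ z : ℂ, 0 < z.im → z.im ^ k * ‖f z‖ ≤ C) (X : ℕ) (hX : 1 ≤ X) :
    ∑ n ∈ range (X + 1), ‖a n‖ ^ 2 ≤ Real.exp (4 * Real.pi) * C ^ 2 * (X : ℝ) ^ (2 * k) := by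
  have hX0 : (0 : ℝ) < X := by exact_mod_cast hX
  set ρ : ℝ := Real.exp (-(2 * Real.pi / X)) with hρ
  have hρ0 : 0 < ρ := Real.exp_pos _
  -- a point `z` with `e(z) = w`
  have hz : ∀ w : ℂ, ‖w‖ = ρ → ∃ z : ℂ, z.im = 1 / X ∧ ∀ n : ℕ, cexp (2 * Real.pi * I * n * z) = w ^ n := by
    intro w hw
    have hw0 : w ≠ 0 := by
      intro h0
      rw [h0, norm_zero] at hw
      linarith
    refine ⟨Complex.log w / (2 * Real.pi * I), ?_, fun n => ?_⟩
    · have h1 : (2 * Real.pi * I : ℂ) ≠ 0 := by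
        simp [Real.pi_ne_zero]
      have h2 : Complex.log w / (2 * Real.pi * I) = ((Complex.log w).im / (2 * Real.pi) : ℝ) + (-(Complex.log w).re / (2 * Real.pi) : ℝ) * I := by
        have hpi : (Real.pi : ℂ) ≠ 0 := by exact_mod_cast Real.pi_ne_zero
        rw [div_eq_iff h1]
        nth_rewrite 1 [← Complex.re_add_im (Complex.log w)]
        push_cast
        field_simp
        ring_nf
        rw [Complex.I_sq]
        ring
      rw [h2]
      simp only [add_im, ofReal_im, mul_im, ofReal_re, I_im, mul_one, I_re, mul_zero, add_zero, zero_add]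
      rw [Complex.log_re, hw, hρ, Real.log_exp]
      field_simp
    · have h1 : (2 * Real.pi * I : ℂ) ≠ 0 := by
        simp [Real.pi_ne_zero]
      have h2 : 2 * Real.pi * I * n * (Complex.log w / (2 * Real.pi * I)) = n * Complex.log w := by
        field_simp
      rw [h2, Complex.exp_nat_mul, Complex.exp_log hw0]
  have hsumw : ∀ w : ℂ, ‖w‖ = ρ → HasSum (fun n => a n * w ^ n) (∑' n, a n * w ^ n) ∧ ‖∑' n, a n * w ^ n‖ ≤ C * (X : ℝ) ^ k := by
    intro w hw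
    obtain ⟨z, hz1, hz2⟩ := hz w hw
    have him : 0 < z.im := by
      rw [hz1]
      positivity
    have h1 := hf z him
    simp only [hz2] at h1
    refine ⟨h1.summable.hasSum, ?_⟩
    rw [h1.tsum_eq]
    have h2 := hb z him
    rw [hz1, one_div, Real.inv_rpow hX0.le, inv_mul_le_iff₀ (Real.rpow_pos_of_pos hX0 _)] at h2
    linarith
  have hsum : Summable (fun n => ‖a n‖ * ρ ^ n) := by
    have h1 := (hsumw (ρ : ℂ) (by rw [Complex.norm_real, Real.norm_of_nonneg hρ0.le])).1.summable.norm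
    refine h1.congr fun n => ?_
    rw [norm_mul, norm_pow, Complex.norm_real, Real.norm_of_nonneg hρ0.le]
  have h1 := series_sq_le a ρ (C * (X : ℝ) ^ k) hρ0.le hsum (fun w hw => (hsumw w hw).2) (X + 1)
  have h2 : ∀ n ∈ range (X + 1), ‖a n‖ ^ 2 ≤ Real.exp (4 * Real.pi) * (‖a n‖ * ρ ^ n) ^ 2 := by
    intro n hn
    have hn' : (n : ℝ) ≤ X := by exact_mod_cast Nat.lt_succ_iff.1 (mem_range.1 hn)
    have h3 : 1 ≤ Real.exp (4 * Real.pi) * (ρ ^ n) ^ 2 := by
      rw [hρ, ← Real.exp_nat_mul, ← Real.exp_nat_mul, ← Real.exp_add]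
      apply Real.one_le_exp
      push_cast
      have h4 : (n : ℝ) * (2 * Real.pi / X) ≤ 2 * Real.pi := by
        rw [mul_div_assoc', div_le_iff₀ hX0]
        nlinarith [Real.pi_pos]
      nlinarith
    calc ‖a n‖ ^ 2 = ‖a n‖ ^ 2 * 1 := (mul_one _).symm
      _ ≤ ‖a n‖ ^ 2 * (Real.exp (4 * Real.pi) * (ρ ^ n) ^ 2) := mul_le_mul_of_nonneg_left h3 (by positivity)
      _ = Real.exp (4 * Real.pi) * (‖a n‖ * ρ ^ n) ^ 2 := by ring
  calc ∑ n ∈ range (X + 1), ‖a n‖ ^ 2 ≤ ∑ n ∈ range (X + 1), Real.exp (4 * Real.pi) * (‖a n‖ * ρ ^ n) ^ 2 := sum_le_sum h2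
    _ = Real.exp (4 * Real.pi) * ∑ n ∈ range (X + 1), (‖a n‖ * ρ ^ n) ^ 2 := by rw [mul_sum]
    _ ≤ Real.exp (4 * Real.pi) * (C * (X : ℝ) ^ k) ^ 2 := mul_le_mul_of_nonneg_left h1 (Real.exp_pos _).le
    _ = Real.exp (4 * Real.pi) * C ^ 2 * (X : ℝ) ^ (2 * k) := by
        rw [mul_pow, ← Real.rpow_natCast, ← Real.rpow_natCast, ← Real.rpow_mul hX0.le]
        push_cast
        ring_nf

open Classical in
/-- the number of the large coefficients: if `∑_{n ≤ X} ‖a n‖² ≤ D X ^ (2 k)`, then `‖a n‖ ≤ c n ^ (k - 1 / 2 + ε)` for all but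
`O(X ^ (1 - 2 ε + δ))` integers `n ≤ X` -/
theorem large_card (a : ℕ → ℂ) (k D ε c : ℝ) (hD : 0 ≤ D) (hε : ε ≤ 1 / 2) (hc : 0 < c) (hkε : 0 ≤ k - 1 / 2 + ε)
    (h : ∀ X : ℕ, 1 ≤ X → ∑ n ∈ range (X + 1), ‖a n‖ ^ 2 ≤ D * (X : ℝ) ^ (2 * k)) (δ : ℝ) (hδ : 0 < δ) :
    ∃ K : ℝ, ∀ X : ℕ, 1 ≤ X →
      (((Ioc 0 X).filter (fun n => n ∈ {n : ℕ | c * (n : ℝ) ^ (k - 1 / 2 + ε) < ‖a n‖})).card : ℝ) ≤ K * (X : ℝ) ^ (1 - 2 * ε + δ) := by
  set P : Set ℕ := {n : ℕ | c * (n : ℝ) ^ (k - 1 / 2 + ε) < ‖a n‖} with hP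
  set s : ℝ := 1 - 2 * ε + δ with hs
  have hs0 : 0 < s := by linarith
  set A : ℝ := D * 2 ^ (2 * (k - 1 / 2 + ε)) / c ^ 2 with hA
  have hA0 : 0 ≤ A := by positivity
  have h2s : (1 : ℝ) < 2 ^ s := Real.one_lt_rpow (by norm_num) hs0
  set K : ℝ := A / (1 - (2 ^ s)⁻¹) + 1 with hK
  have hpos : 0 < 1 - ((2 : ℝ) ^ s)⁻¹ := by
    rw [sub_pos]
    exact inv_lt_one_of_one_lt₀ h2s
  have hK0 : 0 ≤ K := by positivity
  have hKA : A ≤ K * (1 - ((2 : ℝ) ^ s)⁻¹) := by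
    rw [hK, add_mul, div_mul_cancel₀ _ hpos.ne']
    nlinarith
  refine ⟨K, ?_⟩
  intro X
  induction X using Nat.strong_induction_on with
  | _ X ih =>
    intro hX
    have hX0 : (0 : ℝ) < X := by exact_mod_cast hX
    -- the upper half
    have hup : (((Ioc (X / 2) X).filter (fun n => n ∈ P)).card : ℝ) ≤ A * (X : ℝ) ^ s := by
      have h1 : ∑ n ∈ (Ioc (X / 2) X).filter (fun n => n ∈ P), (c * ((X : ℝ) / 2) ^ (k - 1 / 2 + ε)) ^ 2 ≤ ∑ n ∈ range (X + 1), ‖a n‖ ^ 2 := by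
        refine le_trans (sum_le_sum (g := fun n => ‖a n‖ ^ 2) fun n hn => ?_) (sum_le_sum_of_subset_of_nonneg (fun n hn => ?_) fun n _ _ => by positivity)
        · rw [mem_filter, mem_Ioc] at hn
          have h2 : (X : ℝ) / 2 ≤ n := by
            have h3 : X < 2 * n := by omega
            have h4 : (X : ℝ) < 2 * n := by exact_mod_cast h3
            linarith
          have h5 : c * ((X : ℝ) / 2) ^ (k - 1 / 2 + ε) ≤ ‖a n‖ :=
            le_trans (mul_le_mul_of_nonneg_left (Real.rpow_le_rpow (by positivity) h2 hkε) hc.le) (le_of_lt hn.2)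
          exact pow_le_pow_left₀ (by positivity) h5 2
        · rw [mem_filter, mem_Ioc] at hn
          rw [mem_range]
          omega
      rw [sum_const, nsmul_eq_mul] at h1
      have h2 := h1.trans (h X hX)
      have h3 : (c * ((X : ℝ) / 2) ^ (k - 1 / 2 + ε)) ^ 2 = c ^ 2 * (X : ℝ) ^ (2 * (k - 1 / 2 + ε)) / 2 ^ (2 * (k - 1 / 2 + ε)) := by
        rw [mul_pow, Real.div_rpow hX0.le (by norm_num), div_pow, ← Real.rpow_natCast ((X : ℝ) ^ (k - 1 / 2 + ε)) 2,
          ← Real.rpow_natCast ((2 : ℝ) ^ (k - 1 / 2 + ε)) 2, ← Real.rpow_mul hX0.le, ← Real.rpow_mul (by norm_num)]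
        push_cast
        rw [mul_comm (k - 1 / 2 + ε) 2, mul_div_assoc]
      have h4 : 0 < c ^ 2 * (X : ℝ) ^ (2 * (k - 1 / 2 + ε)) / 2 ^ (2 * (k - 1 / 2 + ε)) := by positivity
      rw [h3] at h2
      have h5 : (((Ioc (X / 2) X).filter (fun n => n ∈ P)).card : ℝ) ≤ D * (X : ℝ) ^ (2 * k) / (c ^ 2 * (X : ℝ) ^ (2 * (k - 1 / 2 + ε)) / 2 ^ (2 * (k - 1 / 2 + ε))) := by
        rwa [le_div_iff₀ h4]
      have h6 : D * (X : ℝ) ^ (2 * k) / (c ^ 2 * (X : ℝ) ^ (2 * (k - 1 / 2 + ε)) / 2 ^ (2 * (k - 1 / 2 + ε))) = A * (X : ℝ) ^ (1 - 2 * ε) := by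
        have e : (1 : ℝ) - 2 * ε = 2 * k - 2 * (k - 1 / 2 + ε) := by ring
        rw [e, Real.rpow_sub hX0, hA]
        field_simp
      rw [h6] at h5
      refine h5.trans (mul_le_mul_of_nonneg_left ?_ hA0)
      exact Real.rpow_le_rpow_of_exponent_le (by exact_mod_cast hX) (by linarith)
    -- the lower half
    have hlow : (((Ioc 0 (X / 2)).filter (fun n => n ∈ P)).card : ℝ) ≤ K * ((X : ℝ) ^ s * (2 ^ s)⁻¹) := by
      rcases Nat.eq_zero_or_pos (X / 2) with h0 | h0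
      · rw [h0]
        simp only [Ioc_self, filter_empty, card_empty, Nat.cast_zero]
        positivity
      · have h1 := ih (X / 2) (by omega) h0
        refine h1.trans (mul_le_mul_of_nonneg_left ?_ hK0)
        have h2 : ((X / 2 : ℕ) : ℝ) ≤ (X : ℝ) / 2 := Nat.cast_div_le
        refine (Real.rpow_le_rpow (Nat.cast_nonneg _) h2 hs0.le).trans (le_of_eq ?_)
        rw [Real.div_rpow hX0.le (by norm_num)]
        rfl
    have hsplit : ((Ioc 0 X).filter (fun n => n ∈ P)).card ≤ ((Ioc 0 (X / 2)).filter (fun n => n ∈ P)).card + ((Ioc (X / 2) X).filter (fun n => n ∈ P)).card := by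
      refine le_trans (card_le_card ?_) (card_union_le _ _)
      intro n hn
      rw [mem_filter, mem_Ioc] at hn
      rw [mem_union, mem_filter, mem_filter, mem_Ioc, mem_Ioc]
      by_cases h1 : n ≤ X / 2
      · exact Or.inl ⟨⟨hn.1.1, h1⟩, hn.2⟩
      · exact Or.inr ⟨⟨by omega, hn.1.2⟩, hn.2⟩
    have hsplit' : (((Ioc 0 X).filter (fun n => n ∈ P)).card : ℝ) ≤
        (((Ioc 0 (X / 2)).filter (fun n => n ∈ P)).card : ℝ) + (((Ioc (X / 2) X).filter (fun n => n ∈ P)).card : ℝ) := by exact_mod_cast hsplit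
    have hXs : 0 < (X : ℝ) ^ s := Real.rpow_pos_of_pos hX0 _
    have h9 : A * (X : ℝ) ^ s ≤ K * (1 - ((2 : ℝ) ^ s)⁻¹) * (X : ℝ) ^ s := mul_le_mul_of_nonneg_right hKA hXs.le
    nlinarith

end Pool.Agent.X123.ML
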