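import Pool.Agent.X123.ML.Cantor

/-!
# Many well separated points `p ^ k u / b` in short intervals
-/

set_option autoImplicit false

namespace Pool.Agent.X123.ML

open Filter Topology Finset

/-- many primes between `U ^ (1 - η)` and `U` -/
theorem primes_many {η : ℝ} (hη : 0 < η) (hη1 : η < 1) : ∃ U0 : ℕ, ∀ U : ℕ, U0 ≤ U →
    (U : ℝ) ^ (1 - η) ≤
      (((Finset.Icc 1 U).filter fun u : ℕ => u.Prime ∧ (U : ℝ) ^ (1 - η) ≤ u).card : ℝ) := by
  have h1 : ∀ᶠ x : ℝ in atTop, ‖Real.log x‖ ≤ 1 / 8 * ‖x ^ η‖ :=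
    (isLittleO_log_rpow_atTop hη).def (by norm_num)
  have h2 : ∀ᶠ x : ℝ in atTop, ‖Real.log x‖ ≤ 1 / 16 * ‖x ^ (1 : ℝ)‖ :=
    (isLittleO_log_rpow_atTop one_pos).def (by norm_num)
  obtain ⟨X, hX⟩ := eventually_atTop.1 (h1.and (h2.and (eventually_ge_atTop (2 : ℝ))))
  refine ⟨⌈X⌉₊ + 2, fun U hU => ?_⟩
  have hUX : X ≤ U := (Nat.le_ceil X).trans (by exact_mod_cast (by omega : ⌈X⌉₊ ≤ U))
  obtain ⟨h3, h4, h5⟩ := hX U hUX
  have hU2 : (2 : ℝ) ≤ U := h5
  have hU0 : (0 : ℝ) < U := by linarith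
  have hlog0 : 0 < Real.log U := Real.log_pos (by linarith)
  rw [Real.norm_of_nonneg hlog0.le, Real.norm_of_nonneg (by positivity)] at h3
  rw [Real.norm_of_nonneg hlog0.le, Real.norm_of_nonneg (by positivity), Real.rpow_one] at h4
  set V : ℝ := (U : ℝ) ^ (1 - η) with hV
  have hV0 : 0 < V := by positivity
  have hVU : V * (U : ℝ) ^ η = U := by
    rw [hV, ← Real.rpow_add hU0]
    simp
  -- all primes
  have hpi := Chebyshev.pi_ge U
  have hpi2 : (Nat.primeCounting U : ℕ) = ((Finset.Icc 1 U).filter Nat.Prime).card := by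
    rw [Nat.primeCounting, Nat.primeCounting', Nat.count_eq_card_filter_range]
    congr 1
    ext p
    simp only [Finset.mem_filter, Finset.mem_range, Finset.mem_Icc]
    constructor
    · rintro ⟨h, hp⟩
      exact ⟨⟨hp.one_lt.le, by omega⟩, hp⟩
    · rintro ⟨⟨_, h⟩, hp⟩
      exact ⟨by omega, hp⟩
  have hlog : Real.log ((U : ℝ) + 1) ≤ 1 / 8 * U := by
    have e1 : Real.log ((U : ℝ) + 1) ≤ Real.log (2 * U) :=
      Real.log_le_log (by linarith) (by linarith)
    rw [Real.log_mul (by norm_num) hU0.ne'] at e1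
    have e2 : Real.log 2 ≤ Real.log U := Real.log_le_log (by norm_num) hU2
    linarith
  have hl2 : (0.69 : ℝ) ≤ Real.log 2 := by linarith [Real.log_two_gt_d9]
  have hbig : 2 * V + 1 / 2 ≤ (Nat.primeCounting U : ℝ) := by
    refine le_trans ?_ hpi
    rw [le_div_iff₀ hlog0]
    have e3 : V * Real.log U ≤ 1 / 8 * U := by
      calc V * Real.log U ≤ V * (1 / 8 * (U : ℝ) ^ η) := by gcongr
        _ = 1 / 8 * (V * (U : ℝ) ^ η) := by ring
        _ = _ := by rw [hVU]
    nlinarith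
  -- small primes
  have hsmall : (((Finset.Icc 1 U).filter fun u : ℕ => u.Prime ∧ ¬ V ≤ (u : ℝ)).card : ℝ) ≤ V := by
    have h1 : ((Finset.Icc 1 U).filter fun u : ℕ => u.Prime ∧ ¬ V ≤ (u : ℝ)) ⊆ Finset.Icc 1 ⌊V⌋₊ := by
      intro u hu
      rw [Finset.mem_filter, Finset.mem_Icc] at hu
      rw [Finset.mem_Icc]
      refine ⟨hu.1.1, Nat.le_floor ?_⟩
      have := hu.2.2
      push Not at this
      exact this.le
    have h2 := Finset.card_le_card h1
    rw [Nat.card_Icc, Nat.add_sub_cancel] at h2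
    exact (by exact_mod_cast h2 : _ ≤ ((⌊V⌋₊ : ℕ) : ℝ)).trans (Nat.floor_le hV0.le)
  have hsum : ((Finset.Icc 1 U).filter Nat.Prime).card =
      ((Finset.Icc 1 U).filter fun u : ℕ => u.Prime ∧ V ≤ (u : ℝ)).card +
        ((Finset.Icc 1 U).filter fun u : ℕ => u.Prime ∧ ¬ V ≤ (u : ℝ)).card := by
    rw [← Finset.filter_filter, ← Finset.filter_filter]
    exact (Finset.card_filter_add_card_filter_not _).symm
  rw [hpi2, hsum] at hbig
  push_cast at hbig
  linarith

/-- the `s`-th denominator attached to the prime `u` -/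
def den (p u s : ℕ) : ℕ := if u ∣ 1 + 2 * p * s then 1 + 2 * p * s + p else 1 + 2 * p * s

theorem den_not_dvd {p u : ℕ} (hp : p.Prime) (hu : u.Prime) (s : ℕ) : ¬ u ∣ den p u s := by
  unfold den
  split_ifs with h
  · intro h2
    have h3 : u ∣ p := (Nat.dvd_add_right h).1 h2
    have h4 : u = p := (Nat.prime_dvd_prime_iff_eq hu hp).1 h3
    subst h4
    have h5 : u ∣ 2 * u * s := ⟨2 * s, by ring⟩
    have h6 : u ∣ 1 := (Nat.dvd_add_left h5).1 h
    exact hu.one_lt.ne' (Nat.dvd_one.1 h6)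
  · exact h

theorem den_mod {p u : ℕ} (hp : p.Prime) (s : ℕ) : den p u s % p = 1 := by
  unfold den
  have h1 : 1 % p = 1 := Nat.mod_eq_of_lt hp.one_lt
  split_ifs
  · rw [show 1 + 2 * p * s + p = 1 + p * (2 * s + 1) by ring, Nat.add_mul_mod_self_left, h1]
  · rw [show 1 + 2 * p * s = 1 + p * (2 * s) by ring, Nat.add_mul_mod_self_left, h1]

theorem den_ge (p u s : ℕ) : 1 + 2 * p * s ≤ den p u s := by
  unfold den
  split_ifs <;> omega

theorem den_le (p u s : ℕ) : den p u s ≤ 1 + 2 * p * s + p := by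
  unfold den
  split_ifs <;> omega

theorem den_strictMono {p u : ℕ} (hp : p.Prime) : StrictMono (den p u) := by
  refine strictMono_nat_of_lt_succ fun s => ?_
  have h1 := den_le p u s
  have h2 := den_ge p u (s + 1)
  have h3 := hp.pos
  have h4 : 1 + 2 * p * (s + 1) = 1 + 2 * p * s + 2 * p := by ring
  omega

/-- the points of one prime `u` in a short interval -/
theorem row {p u M : ℕ} (hp : p.Prime) (hu : u.Prime) {P y l : ℝ} (hP : 1 ≤ P)
    (hy : 1 ≤ y) (hl : 0 < l) (hyl : y + l ≤ 2) (hM : 16 * (p : ℝ) * (M + 3) ≤ P * u * l) :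
    ∃ b : ℕ → ℕ, StrictMono b ∧ (∀ s, b s % p = 1) ∧ (∀ s, ¬ u ∣ b s) ∧
      ∀ s < M, y ≤ P * u / b s ∧ P * u / b s ≤ y + l := by
  have hpR : (1 : ℝ) ≤ p := by exact_mod_cast hp.one_lt.le
  have huR : (1 : ℝ) ≤ u := by exact_mod_cast hu.one_lt.le
  set W : ℝ := P * u with hW
  have hW1 : 1 ≤ W := by nlinarith
  set lo : ℝ := W / (y + l) with hlo
  set s0 : ℕ := ⌈lo / (2 * p)⌉₊ with hs0
  refine ⟨fun s => den p u (s0 + s), fun a b h => den_strictMono hp (by omega),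
    fun s => den_mod hp _, fun s => den_not_dvd hp hu _, fun s hs => ?_⟩
  have h1 : lo ≤ 2 * p * (s0 : ℝ) := by
    have := Nat.le_ceil (lo / (2 * p))
    rw [div_le_iff₀ (by positivity)] at this
    linarith
  have hlo0 : 0 < lo := by positivity
  have h2 : 2 * p * (s0 : ℝ) ≤ lo + 2 * p := by
    have := Nat.ceil_lt_add_one (a := lo / (2 * p)) (by positivity)
    rw [div_add_one (by positivity), lt_div_iff₀ (by positivity)] at this
    linarith
  have h3 : ((1 + 2 * p * (s0 + s) : ℕ) : ℝ) ≤ den p u (s0 + s) := by exact_mod_cast den_ge _ _ _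
  have h4 : (den p u (s0 + s) : ℝ) ≤ ((1 + 2 * p * (s0 + s) + p : ℕ) : ℝ) := by
    exact_mod_cast den_le _ _ _
  push_cast at h3 h4
  have hs' : (s : ℝ) + 1 ≤ M := by exact_mod_cast hs
  have hb1 : lo ≤ den p u (s0 + s) := by
    have : (0 : ℝ) ≤ 2 * p * s := by positivity
    nlinarith
  have hb2 : (den p u (s0 + s) : ℝ) ≤ W / y := by
    have e1 : W / y - lo = W * l / (y * (y + l)) := by
      rw [hlo]
      field_simp
      ring
    have e2 : W * l / 4 ≤ W * l / (y * (y + l)) := by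
      apply div_le_div_of_nonneg_left (by positivity) (by positivity)
      nlinarith
    have e3 : (den p u (s0 + s) : ℝ) ≤ lo + 2 * p + 1 + 2 * p * s + p := by linarith
    have e4 : 2 * p + 1 + 2 * p * (s : ℝ) + p ≤ W * l / 4 := by nlinarith
    linarith
  have hb0 : (0 : ℝ) < den p u (s0 + s) := lt_of_lt_of_le hlo0 hb1
  constructor
  · rw [le_div_iff₀ hb0]
    rw [le_div_iff₀ (by linarith)] at hb2
    linarith
  · rw [div_le_iff₀ hb0]
    rw [hlo, div_le_iff₀ (by linarith)] at hb1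
    linarith

/-- separated finite sets are sorted -/
theorem sorted (T : Finset ℝ) {e : ℝ} (hT : ∀ x ∈ T, ∀ y ∈ T, x < y → e ≤ y - x) :
    ∃ f : ℕ → ℝ, (∀ i < T.card, f i ∈ T) ∧
      ∀ i j, i < j → j < T.card → e * ((j : ℝ) - i) ≤ f j - f i := by
  classical
  let f : ℕ → ℝ := fun i => if h : i < T.card then T.orderEmbOfFin rfl ⟨i, h⟩ else 0
  have hf : ∀ i (h : i < T.card), f i = T.orderEmbOfFin rfl ⟨i, h⟩ := fun i h => by
    simp only [f, dif_pos h]
  refine ⟨f, fun i hi => ?_, ?_⟩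
  · rw [hf i hi]
    exact T.orderEmbOfFin_mem rfl _
  · intro i j hij
    induction j, hij using Nat.le_induction with
    | base =>
      intro h
      have h0 : i < T.card := by omega
      rw [hf _ h, hf _ h0]
      have h1 : T.orderEmbOfFin rfl ⟨i, h0⟩ < T.orderEmbOfFin rfl ⟨i + 1, h⟩ :=
        (T.orderEmbOfFin rfl).strictMono (by simp [Fin.lt_def])
      have h2 := hT _ (T.orderEmbOfFin_mem rfl _) _ (T.orderEmbOfFin_mem rfl _) h1
      have e0 : e * (((i.succ : ℕ) : ℝ) - i) = e := by push_cast; ring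
      rw [e0]
      exact h2
    | succ j hij ih =>
      intro h
      have h0 : j < T.card := by omega
      have h3 := ih h0
      rw [hf _ h]
      rw [hf _ h0] at h3
      have h1 : T.orderEmbOfFin rfl ⟨j, h0⟩ < T.orderEmbOfFin rfl ⟨j + 1, h⟩ :=
        (T.orderEmbOfFin rfl).strictMono (by simp [Fin.lt_def])
      have h2 := hT _ (T.orderEmbOfFin_mem rfl _) _ (T.orderEmbOfFin_mem rfl _) h1
      push_cast
      nlinarith

/-- **many separated points in a short interval** -/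
theorem pts {p : ℕ} (hp : p.Prime) (𝒰 : Finset ℕ) (h𝒰 : ∀ u ∈ 𝒰, u.Prime) {P V U y l : ℝ}
    {M : ℕ} (hP : 1 ≤ P) (hV : ∀ u ∈ 𝒰, V ≤ u) (hU : ∀ u ∈ 𝒰, (u : ℝ) ≤ U)
    (hy : 1 ≤ y) (hl : 0 < l) (hyl : y + l ≤ 2) (hM : 16 * (p : ℝ) * (M + 3) ≤ P * V * l) :
    ∃ f : ℕ → ℝ, (∀ i < 𝒰.card * M, ∃ u ∈ 𝒰, ∃ b : ℕ, b % p = 1 ∧ (b : ℝ) ≤ P * u ∧
        f i = P * u / b ∧ y ≤ f i ∧ f i ≤ y + l) ∧
      ∀ i j, i < j → j < 𝒰.card * M → P / (P * U) ^ 2 * ((j : ℝ) - i) ≤ f j - f i := by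
  classical
  have hrow : ∀ u ∈ 𝒰, ∃ b : ℕ → ℕ, StrictMono b ∧ (∀ s, b s % p = 1) ∧ (∀ s, ¬ u ∣ b s) ∧
      ∀ s < M, y ≤ P * u / b s ∧ P * u / b s ≤ y + l := by
    intro u hu
    refine row hp (h𝒰 u hu) hP hy hl hyl (hM.trans ?_)
    have := hV u hu
    gcongr
  choose! b hb1 hb2 hb3 hb4 using hrow
  set T : Finset ℝ := (𝒰 ×ˢ Finset.range M).image fun x => P * x.1 / b x.1 x.2 with hT
  have hbpos : ∀ u ∈ 𝒰, ∀ s, (0 : ℝ) < b u s := by
    intro u hu s
    have h1 := hb2 u hu s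
    have : b u s ≠ 0 := by
      intro h0
      rw [h0] at h1
      simp at h1
    exact_mod_cast Nat.pos_of_ne_zero this
  have hble : ∀ u ∈ 𝒰, ∀ s < M, (b u s : ℝ) ≤ P * u := by
    intro u hu s hs
    have h1 := (hb4 u hu s hs).1
    have h2 := hbpos u hu s
    rw [le_div_iff₀ h2] at h1
    nlinarith
  have hsep : ∀ u ∈ 𝒰, ∀ s < M, ∀ u' ∈ 𝒰, ∀ s' < M, (u, s) ≠ (u', s') →
      u * b u' s' ≠ u' * b u s := by
    intro u hu s hs u' hu' s' hs' hne heq
    have h1 : u ∣ u' * b u s := ⟨_, heq.symm⟩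
    rcases (Nat.Prime.dvd_mul (h𝒰 u hu)).1 h1 with h2 | h2
    · have h3 : u = u' := (Nat.prime_dvd_prime_iff_eq (h𝒰 u hu) (h𝒰 u' hu')).1 h2
      subst h3
      have h4 : b u s' = b u s := Nat.eq_of_mul_eq_mul_left (h𝒰 u hu).pos heq
      have h5 := (hb1 u hu).injective h4
      exact hne (by rw [h5])
    · exact hb3 u hu s h2
  have hdiff : ∀ u ∈ 𝒰, ∀ s < M, ∀ u' ∈ 𝒰, ∀ s' < M,
      P * u / b u s < P * u' / b u' s' → P / (P * U) ^ 2 ≤ P * u' / b u' s' - P * u / b u s := by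
    intro u hu s hs u' hu' s' hs' hlt
    have h1 := hbpos u hu s
    have h2 := hbpos u' hu' s'
    have h3 : (u : ℝ) * b u' s' < u' * b u s := by
      rw [div_lt_div_iff₀ h1 h2] at hlt
      nlinarith
    have h4 : (u : ℝ) * b u' s' + 1 ≤ u' * b u s := by exact_mod_cast h3
    have e1 : P * u' / b u' s' - P * u / b u s = P * (u' * b u s - u * b u' s') /
        (b u s * b u' s') := by
      field_simp
    rw [e1]
    have hU0 : (0 : ℝ) ≤ P * U := by
      have := hU u hu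
      have h0 : (0 : ℝ) ≤ u := Nat.cast_nonneg _
      have : 0 ≤ U := h0.trans this
      positivity
    have h5 : (b u s : ℝ) * b u' s' ≤ (P * U) ^ 2 := by
      have h6 : (b u s : ℝ) ≤ P * U := (hble u hu s hs).trans (by
        have := hU u hu
        gcongr)
      have h7 : (b u' s' : ℝ) ≤ P * U := (hble u' hu' s' hs').trans (by
        have := hU u' hu'
        gcongr)
      nlinarith
    calc P / (P * U) ^ 2 ≤ P / (b u s * b u' s') :=
          div_le_div_of_nonneg_left (by linarith) (by positivity) h5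
      _ ≤ _ := by
          apply div_le_div_of_nonneg_right _ (by positivity)
          nlinarith
  have hcard : T.card = 𝒰.card * M := by
    rw [hT, Finset.card_image_of_injOn, Finset.card_product, Finset.card_range]
    rintro ⟨u, s⟩ hx ⟨u', s'⟩ hx' heq
    simp only [Finset.coe_product, Set.mem_prod, Finset.mem_coe, Finset.mem_range] at hx hx'
    by_contra hne
    have h1 := hbpos u hx.1 s
    have h2 := hbpos u' hx'.1 s'
    apply hsep u hx.1 s hx.2 u' hx'.1 s' hx'.2 hne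
    simp only at heq
    rw [div_eq_div_iff h1.ne' h2.ne'] at heq
    have h3 : (u : ℝ) * b u' s' = u' * b u s := by
      have hP0 : P ≠ 0 := by linarith
      apply mul_left_cancel₀ hP0
      linarith
    exact_mod_cast h3
  obtain ⟨f, hf1, hf2⟩ := sorted T (e := P / (P * U) ^ 2) (by
    intro x hx z hz hxz
    rw [hT, Finset.mem_image] at hx hz
    obtain ⟨⟨u, s⟩, h1, rfl⟩ := hx
    obtain ⟨⟨u', s'⟩, h2, rfl⟩ := hz
    rw [Finset.mem_product, Finset.mem_range] at h1 h2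
    exact hdiff u h1.1 s h1.2 u' h2.1 s' h2.2 hxz)
  rw [hcard] at hf1 hf2
  refine ⟨f, fun i hi => ?_, hf2⟩
  have h1 := hf1 i hi
  rw [hT, Finset.mem_image] at h1
  obtain ⟨⟨u, s⟩, h2, h3⟩ := h1
  rw [Finset.mem_product, Finset.mem_range] at h2
  simp only at h2 h3
  exact ⟨u, h2.1, b u s, hb2 u h2.1 s, hble u h2.1 s h2.2, h3.symm,
    h3 ▸ (hb4 u h2.1 s h2.2).1, h3 ▸ (hb4 u h2.1 s h2.2).2⟩

end Pool.Agent.X123.ML
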