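import Pool.Agent.X123.ML.Bridge
import Pool.Agent.X123.ML.Low2
import Pool.Agent.W221.SelE3
import Pool.Agent.Y314.FD.DimUp

/-!
# The upper bound for the dimension
-/

set_option autoImplicit false

namespace Pool.Agent.X123.ML

open Filter Topology Finset
open scoped ENNReal NNReal

/-- the number of rationals of bounded height with a small truncated counting function -/
theorem count_le {q : ℕ} (hq : 2 ≤ q) (α : Fin q → ℤ × ℤ) (hcop : ∀ i, IsCoprime (α i).1 (α i).2)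
    (hα : ∀ i j, i ≠ j → (α i).1 * (α j).2 ≠ (α j).1 * (α i).2) (S : Finset ℕ) {κ e : ℝ}
    (c : ℝ) {δ : ℝ} (hκ0 : 0 ≤ κ) (he : 0 ≤ e) (hδ : 0 < δ)
    (hsel : Pool.Agent.H691R3.Sel.{0} q κ e) :
    ∃ C : ℝ, ∀ B : ℝ, 1 ≤ B →
      {x : ℚ | (∀ i, form (α i) x ≠ 0) ∧ N1 α S x < (q - κ) * Real.log (H x) + c ∧
        (H x : ℝ) ≤ B}.Finite ∧
      (({x : ℚ | (∀ i, form (α i) x ≠ 0) ∧ N1 α S x < (q - κ) * Real.log (H x) + c ∧
        (H x : ℝ) ≤ B}.ncard : ℕ) : ℝ) ≤ C * B ^ (e + δ) := by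
  obtain ⟨C, hC⟩ := Pool.Agent.W221.Exc.upper (K := ℚ) ∅ Set.finite_empty hq
    (fun i => (((α i).1 : ℚ), ((α i).2 : ℚ))) (by
      intro i h
      have h1' : ((α i).1 : ℚ) = 0 := congrArg Prod.fst h
      have h2' : ((α i).2 : ℚ) = 0 := congrArg Prod.snd h
      have h1 : (α i).1 = 0 := by exact_mod_cast h1'
      have h2 : (α i).2 = 0 := by exact_mod_cast h2'
      have h3 := hcop i
      rw [h1, h2] at h3
      exact not_isCoprime_zero_zero h3) (by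
      intro i j hij h
      apply hα i j hij
      have h1 : ((α i).1 : ℚ) * (α j).2 - (α i).2 * (α j).1 = 0 := h
      have h2 : (α i).1 * (α j).2 - (α i).2 * (α j).1 = 0 := by exact_mod_cast h1
      linarith)
    κ (c + q * ∑ p ∈ S, Real.log (p : ℝ)) δ e hκ0 hδ he hsel
  refine ⟨C, fun B hB => ?_⟩
  obtain ⟨h1, h2⟩ := hC B hB
  have hsub : {x : ℚ | (∀ i, form (α i) x ≠ 0) ∧ N1 α S x < (q - κ) * Real.log (H x) + c ∧
      (H x : ℝ) ≤ B} ⊆ Pool.Agent.W221.Exc.exceptional (K := ℚ) ∅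
        (fun i => (((α i).1 : ℚ), ((α i).2 : ℚ))) κ (c + q * ∑ p ∈ S, Real.log (p : ℝ)) B := by
    rintro x ⟨hx1, hx2, hx3⟩
    have hHpos : (0 : ℝ) < H x := by exact_mod_cast H_pos x
    refine ⟨fun i h => ?_, ?_, ?_⟩
    · apply hx1 i
      have h3 : x * ((α i).2 : ℚ) - 1 * ((α i).1 : ℚ) = 0 := h
      have hxd : x * x.den = x.num := by exact_mod_cast Rat.mul_den_eq_num x
      have h4 : ((form (α i) x : ℤ) : ℚ) = 0 := by
        unfold form
        push_cast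
        rw [← hxd]
        linear_combination (x.den : ℚ) * h3
      exact_mod_cast h4
    · rw [height_eq, Real.exp_log hHpos]
      exact hx3
    · rw [height_eq]
      have h3 := counting_le α hcop S hx1
      calc Pool.Agent.W221.Exc.counting (∅ : Set _)
            (fun i => (((α i).1 : ℚ), ((α i).2 : ℚ))) x ≤
            N1 α S x + q * ∑ p ∈ S, Real.log (p : ℝ) := h3
        _ < _ := by linarith
  refine ⟨h1.subset hsub, ?_⟩
  have h3 : (Module.finrank ℚ ℚ : ℝ) * e + δ = e + δ := by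
    rw [Module.finrank_self, Nat.cast_one, one_mul]
  rw [h3] at h2
  refine le_trans ?_ h2
  exact_mod_cast Set.ncard_le_ncard hsub h1

theorem upper_dim {q : ℕ} (hq : 2 ≤ q) (α : Fin q → ℤ × ℤ)
    (hcop : ∀ i, IsCoprime (α i).1 (α i).2)
    (hα : ∀ i j, i ≠ j → (α i).1 * (α j).2 ≠ (α j).1 * (α i).2) (S : Finset ℕ) {κ e τ : ℝ}
    (c : ℝ) (hκ0 : 0 ≤ κ) (he : 0 ≤ e) (hτ : 0 < τ)
    (hsel : Pool.Agent.H691R3.Sel.{0} q κ e) :
    dimH (W α S κ c τ) ≤ ENNReal.ofReal (e / τ) := by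
  classical
  by_contra hcon
  push Not at hcon
  obtain ⟨r, hr1, hr2⟩ := ENNReal.lt_iff_exists_nnreal_btwn.1 hcon
  have hr3 : e / τ < r := by
    have h1 : ENNReal.ofReal (e / τ) < ENNReal.ofReal (r : ℝ) := by
      rw [ENNReal.ofReal_coe_nnreal]; exact hr1
    exact (ENNReal.ofReal_lt_ofReal_iff_of_nonneg (by positivity)).1 h1
  apply absurd hr2
  rw [not_lt]
  obtain ⟨s, hs⟩ : ∃ s : ℝ, s = (r : ℝ) := ⟨_, rfl⟩
  rw [← hs] at hr3
  have hsτ : e < s * τ := by rwa [div_lt_iff₀ hτ] at hr3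
  have hs0 : 0 < s := lt_of_le_of_lt (by positivity) hr3
  obtain ⟨δ, hδ⟩ : ∃ δ : ℝ, δ = (s * τ - e) / 2 := ⟨_, rfl⟩
  have hδ0 : 0 < δ := by linarith
  obtain ⟨C, hC⟩ := count_le hq α hcop hα S c hκ0 he hδ0 hsel
  set b : ℝ := (2 : ℝ) ^ (-τ) with hb
  have hb0 : 0 < b := by positivity
  have hb1 : b < 1 := Real.rpow_lt_one_of_one_lt_of_neg (by norm_num) (by linarith)
  have hbv : ∀ v : ℕ, b ^ v = ((2 : ℝ) ^ v) ^ (-τ) := by
    intro v
    rw [hb, ← Real.rpow_natCast, ← Real.rpow_mul (by norm_num), ← Real.rpow_natCast,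
      ← Real.rpow_mul (by norm_num)]
    congr 1
    ring
  have hB : ∀ v : ℕ, (1 : ℝ) ≤ 2 ^ (v + 1) := fun v => one_le_pow₀ (by norm_num)
  let F : ℕ → Finset ℝ := fun v => ((hC _ (hB v)).1.toFinset).image ((↑) : ℚ → ℝ)
  -- the threshold
  have hev : ∀ᶠ v : ℕ in atTop, C * 2 ^ (e + δ) ≤ ((2 : ℝ) ^ v) ^ δ :=
    ((tendsto_rpow_atTop hδ0).comp
      (tendsto_pow_atTop_atTop_of_one_lt (by norm_num : (1 : ℝ) < 2))).eventually_ge_atTop _
  obtain ⟨v0, hv0⟩ := eventually_atTop.1 hev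
  have hmain := Pool.Agent.Y314.FD.dimH_le_of_balls (W α S κ c τ) F hb0 hb1 hs0.le (v0 := v0)
    (fun v hv => ?_) (fun ξ hξ => ?_)
  · rwa [hs, ENNReal.ofReal_coe_nnreal] at hmain
  · have h1 : ((F v).card : ℝ) ≤ C * ((2 : ℝ) ^ (v + 1)) ^ (e + δ) := by
      refine le_trans ?_ (hC _ (hB v)).2
      rw [Set.ncard_eq_toFinset_card _ (hC _ (hB v)).1]
      have h9 : (F v).card ≤ ((hC _ (hB v)).1.toFinset).card := Finset.card_image_le
      exact_mod_cast h9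
    refine h1.trans ?_
    have h2 : ((2 : ℝ) ^ (v + 1)) ^ (e + δ) = ((2 : ℝ) ^ v) ^ (e + δ) * 2 ^ (e + δ) := by
      rw [pow_succ, Real.mul_rpow (by positivity) (by norm_num)]
    have h3 : b ^ (-(s * v)) = ((2 : ℝ) ^ v) ^ (e + δ) * ((2 : ℝ) ^ v) ^ δ := by
      rw [← Real.rpow_add (by positivity), hb, ← Real.rpow_mul (by norm_num),
        ← Real.rpow_natCast, ← Real.rpow_mul (by norm_num)]
      congr 1
      rw [hδ]
      ring
    rw [h2, h3]
    calc C * (((2 : ℝ) ^ v) ^ (e + δ) * 2 ^ (e + δ)) =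
        ((2 : ℝ) ^ v) ^ (e + δ) * (C * 2 ^ (e + δ)) := by ring
      _ ≤ _ := mul_le_mul_of_nonneg_left (hv0 v hv) (by positivity)
  · rw [frequently_atTop]
    intro v1
    have hfin : {x : ℚ | (∀ i, form (α i) x ≠ 0) ∧
        N1 α S x < (q - κ) * Real.log (H x) + c ∧ (H x : ℝ) ≤ 2 ^ (v1 + 1)}.Finite :=
      (hC _ (hB v1)).1
    have hinf : {x : ℚ | (∀ i, form (α i) x ≠ 0) ∧ N1 α S x < (q - κ) * Real.log (H x) + c ∧
      |ξ - x| ≤ (H x : ℝ) ^ (-τ)}.Infinite := hξ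
    obtain ⟨x, ⟨hx1, hx2, hx3⟩, hx4⟩ := (hinf.sdiff hfin).nonempty
    have hHx : 2 ^ (v1 + 1) < H x := by
      by_contra hcon
      push Not at hcon
      exact hx4 ⟨hx1, hx2, by exact_mod_cast hcon⟩
    have hH0 : H x ≠ 0 := by have := H_pos x; omega
    set v : ℕ := Nat.log 2 (H x) with hv
    have hv1 : 2 ^ v ≤ H x := Nat.pow_log_le_self 2 hH0
    have hv2 : H x < 2 ^ (v + 1) := Nat.lt_pow_succ_log_self (by norm_num) _
    have hv3 : v1 ≤ v := by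
      have := (Nat.pow_lt_pow_iff_right (by norm_num : 1 < 2)).1 (hHx.trans hv2)
      omega
    refine ⟨v, hv3, (x : ℝ), ?_, ?_⟩
    · simp only [F, Finset.mem_image, Set.Finite.mem_toFinset]
      refine ⟨x, ⟨hx1, hx2, ?_⟩, rfl⟩
      exact_mod_cast hv2.le
    · rw [Real.dist_eq, hbv]
      refine hx3.trans ?_
      apply Real.rpow_le_rpow_of_nonpos (by positivity) _ (by linarith)
      exact_mod_cast hv1

/-- the lower bound in general -/
theorem lower_dim {q : ℕ} (hq : 2 ≤ q) (α : Fin q → ℤ × ℤ)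
    (hcop : ∀ i, IsCoprime (α i).1 (α i).2)
    (hα : ∀ i j, i ≠ j → (α i).1 * (α j).2 ≠ (α j).1 * (α i).2) (S : Finset ℕ) {κ τ : ℝ}
    (c : ℝ) (hκ0 : 0 ≤ κ) (hκ2 : κ < 2) (hτ : 0 < τ) :
    ENNReal.ofReal (min 1 ((2 - κ) / τ)) ≤ dimH (W α S κ c τ) := by
  set τ' : ℝ := max τ (2 - κ) with hτ'
  have h0 : ∀ i, α i ≠ 0 := by
    intro i h
    have h3 := hcop i
    rw [h] at h3
    exact not_isCoprime_zero_zero h3
  have hτ1 : 2 - κ ≤ τ' := le_max_right _ _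
  have hτ'0 : 0 < τ' := lt_of_lt_of_le hτ (le_max_left _ _)
  have hsub : W α S κ c τ' ⊆ W α S κ c τ := by
    intro ξ hξ
    refine Set.Infinite.mono ?_ hξ
    rintro x ⟨h1, h2, h3⟩
    refine ⟨h1, h2, h3.trans ?_⟩
    apply Real.rpow_le_rpow_of_exponent_le
    · exact_mod_cast H_pos x
    · have := le_max_left τ (2 - κ)
      linarith
  refine le_trans ?_ (dimH_mono hsub)
  have hmin : min 1 ((2 - κ) / τ) ≤ (2 - κ) / τ' := by
    rw [le_div_iff₀ hτ'0, hτ']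
    rcases max_cases τ (2 - κ) with ⟨h1, _⟩ | ⟨h1, _⟩
    · rw [h1]
      calc min 1 ((2 - κ) / τ) * τ ≤ ((2 - κ) / τ) * τ :=
            mul_le_mul_of_nonneg_right (min_le_right _ _) hτ.le
        _ = 2 - κ := div_mul_cancel₀ _ hτ.ne'
    · rw [h1]
      calc min 1 ((2 - κ) / τ) * (2 - κ) ≤ 1 * (2 - κ) :=
            mul_le_mul_of_nonneg_right (min_le_left _ _) (by linarith)
        _ = _ := one_mul _
  have hmin0 : 0 < min 1 ((2 - κ) / τ) := lt_min one_pos (div_pos (by linarith) hτ)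
  refine le_of_forall_lt fun d hd => ?_
  obtain ⟨r, hr1, hr2⟩ := ENNReal.lt_iff_exists_nnreal_btwn.1 hd
  refine hr1.trans_le ?_
  rcases eq_or_ne r 0 with h | h
  · rw [h]; simp
  have hr0 : (0 : ℝ) < r := by exact_mod_cast pos_iff_ne_zero.2 h
  have hr3 : (r : ℝ) < min 1 ((2 - κ) / τ) := by
    have h1 : ENNReal.ofReal (r : ℝ) < ENNReal.ofReal (min 1 ((2 - κ) / τ)) := by
      rw [ENNReal.ofReal_coe_nnreal]; exact hr2
    exact (ENNReal.ofReal_lt_ofReal_iff_of_nonneg hr0.le).1 h1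
  have hi1 : (⟨0, by omega⟩ : Fin q) ≠ ⟨1, by omega⟩ := by
    intro h
    have := congrArg Fin.val h
    simp at this
  have h2 := lower2 α S h0 ⟨0, by omega⟩ ⟨1, by omega⟩ (by
    have h4 := hα _ _ hi1
    intro h5
    apply h4
    linarith) (κ := κ) (c := c) (τ := τ') (s := r) hκ0 hκ2 hτ1 hr0 (by
    have h5 : (r : ℝ) < (2 - κ) / τ' := hr3.trans_le hmin
    rwa [lt_div_iff₀ hτ'0] at h5)
  rwa [ENNReal.ofReal_coe_nnreal] at h2

end Pool.Agent.X123.ML
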